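import Pool.Agent.Work.MP_e0c7e8_nt.AW.Main

/-!
# Draft of the hand-in MP_e0c7e8_nt.AverageBelowHeathBrownPierce (to be landed after 19:05Z)
-/

set_option autoImplicit false

namespace Pool.Agent.Work.MP_e0c7e8_nt.AW.Final

open Finset

/-- Let `a ≥ 0` and let `m ≥ 5` be odd. There is `C` such that for all `X ≥ 1` the sum over all
negative discriminants `d`, fundamental or not, with `|d| ≤ X`, of the number of elements `x` with
`x ^ (2 ^ a m) = 1` of the class group of the order of discriminant `d` is at most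
`C X ^ (3 / 2 - 3 / (2 m + 2) - 1 / (13 m ^ 3))`. -/
theorem result :
    ∀ a m : ℕ, 5 ≤ m → Odd m → ∃ C : ℝ, 0 < C ∧ ∀ X : ℝ, 1 ≤ X →
      ∑ d ∈ (Icc (-⌊X⌋) (-1)).filter (fun d : ℤ => d % 4 = 0 ∨ d % 4 = 1),
        (Nat.card {x : ClassGroup ↥(Algebra.adjoin ℤ
          ({((d : ℂ) + Complex.I * ((Real.sqrt (-(d : ℝ)) : ℝ) : ℂ)) / 2} : Set ℂ)) //
          x ^ (2 ^ a * m) = 1} : ℝ) ≤
        C * X ^ ((3 : ℝ) / 2 - 3 / (2 * m + 2) - 1 / (13 * m ^ 3)) :=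
  Pool.Agent.Work.MP_e0c7e8_nt.AW.FN2_all

end Pool.Agent.Work.MP_e0c7e8_nt.AW.Final
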