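import Pool.Agent.Work.MP_e0c7e8_nt.AW.Stmts

/-!
# Item BG2: solutions with large `v`
-/

set_option autoImplicit false

namespace Pool.Agent.Work.MP_e0c7e8_nt.AW

open Finset Pool.Agent.Work.MP_e0c7e8_nt.SM Pool.Agent.Work.MP_e0c7e8_nt.BG
  Pool.Agent.Work.MP_e0c7e8_nt.AV

namespace I_BG2

theorem mem_NN {P j : ℕ} {s : Finset ℕ} (hs : s ⊆ Pr P) (hc : s.card = j) :
    ∏ p ∈ s, p ∈ NN P j :=
  Finset.mem_image.2 ⟨s, Finset.mem_powersetCard.2 ⟨hs, hc⟩, rfl⟩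

theorem prime_of_mem {P p : ℕ} (h : p ∈ Pr P) : p.Prime := (Finset.mem_filter.1 h).2.1

theorem le_of_mem {P p : ℕ} (h : p ∈ Pr P) : p ≤ P :=
  (Finset.mem_Icc.1 (Finset.mem_filter.1 h).1).2

theorem set_eq {P : ℕ} {s t : Finset ℕ} (hs : s ⊆ Pr P) (ht : t ⊆ Pr P)
    (h : ∏ p ∈ s, p = ∏ p ∈ t, p) : s = t := by
  rw [← Nat.primeFactors_prod (fun p hp => prime_of_mem (hs hp)), h,
    Nat.primeFactors_prod (fun p hp => prime_of_mem (ht hp))]

theorem ex_sub (j : ℕ) (A : Finset ℕ) : ∃ t : Finset ℕ, j ≤ A.card → t ⊆ A ∧ t.card = j := by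
  by_cases h : j ≤ A.card
  · obtain ⟨t, ht, hc⟩ := Finset.exists_subset_card_eq (s := A) (n := j) h
    exact ⟨t, fun _ => ⟨ht, hc⟩⟩
  · exact ⟨∅, fun h' => absurd h' h⟩

/-- A subset with `j` elements. -/
noncomputable def sb (j : ℕ) (A : Finset ℕ) : Finset ℕ := (ex_sub j A).choose

theorem sb_spec (j : ℕ) (A : Finset ℕ) (h : j ≤ A.card) : sb j A ⊆ A ∧ (sb j A).card = j :=
  (ex_sub j A).choose_spec h

/-- The primes of `x`. -/
noncomputable def sc (j1 j2 : ℕ) (A : Finset ℕ) : Finset ℕ := sb j2 (A \ sb j1 A)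

/-- The primes of `z`. -/
noncomputable def sr (j1 j2 : ℕ) (A B : Finset ℕ) : Finset ℕ :=
  (A ∪ B) \ (sb j1 A ∪ sc j1 j2 A)

structure Spec (P j1 j2 j3 : ℕ) (A B : Finset ℕ) : Prop where
  s1 : sb j1 A ⊆ Pr P
  s2 : sc j1 j2 A ⊆ Pr P
  s3 : sr j1 j2 A B ⊆ Pr P
  u1 : sb j1 A ⊆ A ∪ B
  u2 : sc j1 j2 A ⊆ A ∪ B
  u3 : sr j1 j2 A B ⊆ A ∪ B
  c1 : (sb j1 A).card = j1
  c2 : (sc j1 j2 A).card = j2
  c3 : (sr j1 j2 A B).card = j3
  d12 : Disjoint (sb j1 A) (sc j1 j2 A)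
  d3 : Disjoint (sb j1 A ∪ sc j1 j2 A) (sr j1 j2 A B)
  un : (sb j1 A ∪ sc j1 j2 A) ∪ sr j1 j2 A B = A ∪ B

theorem spec {P J j1 j2 j3 : ℕ} {A B : Finset ℕ} (h12 : j1 + j2 ≤ J)
    (h123 : j1 + j2 + j3 = 2 * J) (hA : A ∈ powersetCard J (Pr P))
    (hB : B ∈ powersetCard J (Pr P)) (hAB : Disjoint A B) : Spec P j1 j2 j3 A B := by
  obtain ⟨hA1, hA2⟩ := Finset.mem_powersetCard.1 hA
  obtain ⟨hB1, hB2⟩ := Finset.mem_powersetCard.1 hB
  obtain ⟨a1, a2⟩ := sb_spec j1 A (by omega)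
  have hc : (A \ sb j1 A).card = J - j1 := by
    rw [Finset.card_sdiff_of_subset a1]; omega
  obtain ⟨b1, b2⟩ := sb_spec j2 (A \ sb j1 A) (by omega)
  have b1' : sc j1 j2 A ⊆ A := b1.trans Finset.sdiff_subset
  have hd : Disjoint (sb j1 A) (sc j1 j2 A) :=
    Finset.disjoint_of_subset_right b1 Finset.disjoint_sdiff
  have hu : sb j1 A ∪ sc j1 j2 A ⊆ A ∪ B :=
    (Finset.union_subset a1 b1').trans Finset.subset_union_left
  have hcu : (sb j1 A ∪ sc j1 j2 A).card = j1 + j2 := by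
    rw [Finset.card_union_of_disjoint hd, a2]
    congr 1
  refine ⟨a1.trans hA1, b1'.trans hA1, Finset.sdiff_subset.trans (Finset.union_subset hA1 hB1),
    a1.trans Finset.subset_union_left, b1'.trans Finset.subset_union_left, Finset.sdiff_subset,
    a2, b2, ?_, hd, Finset.disjoint_sdiff, Finset.union_sdiff_of_subset hu⟩
  rw [sr, Finset.card_sdiff_of_subset hu, hcu, Finset.card_union_of_disjoint hAB]
  omega

/-- The point of two sets. -/
noncomputable def pt (j1 j2 : ℕ) (A B : Finset ℕ) : ℕ × (ℕ × ℕ) :=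
  (∏ p ∈ sb j1 A, p, (∏ p ∈ sc j1 j2 A, p, ∏ p ∈ sr j1 j2 A B, p))

theorem pt_mem {P J j1 j2 j3 : ℕ} {A B : Finset ℕ} (h12 : j1 + j2 ≤ J)
    (h123 : j1 + j2 + j3 = 2 * J) (hA : A ∈ powersetCard J (Pr P))
    (hB : B ∈ powersetCard J (Pr P)) (hAB : Disjoint A B) :
    pt j1 j2 A B ∈ NN P j1 ×ˢ (NN P j2 ×ˢ NN P j3) := by
  have h := spec h12 h123 hA hB hAB
  exact Finset.mem_product.2 ⟨mem_NN h.s1 h.c1, Finset.mem_product.2
    ⟨mem_NN h.s2 h.c2, mem_NN h.s3 h.c3⟩⟩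

theorem pt_cop {P J j1 j2 j3 v : ℕ} {A B : Finset ℕ} (h12 : j1 + j2 ≤ J)
    (h123 : j1 + j2 + j3 = 2 * J) (hA : A ∈ powersetCard J (Pr P))
    (hB : B ∈ powersetCard J (Pr P)) (hAB : Disjoint A B) (hv : ∀ p ∈ A ∪ B, ¬ p ∣ v) :
    (pt j1 j2 A B).1.Coprime v ∧ (pt j1 j2 A B).2.1.Coprime v ∧
      (pt j1 j2 A B).2.2.Coprime v := by
  have h := spec h12 h123 hA hB hAB
  have hU : A ∪ B ⊆ Pr P := Finset.union_subset (Finset.mem_powersetCard.1 hA).1
    (Finset.mem_powersetCard.1 hB).1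
  have key : ∀ s : Finset ℕ, s ⊆ A ∪ B → Nat.Coprime (∏ p ∈ s, p) v := by
    intro s hs
    refine Nat.Coprime.prod_left fun p hp => ?_
    exact (Nat.Prime.coprime_iff_not_dvd (prime_of_mem (hU (hs hp)))).2 (hv p (hs hp))
  exact ⟨key _ h.u1, key _ h.u2, key _ h.u3⟩

theorem pt_prod {P J j1 j2 j3 : ℕ} {A B : Finset ℕ} (h12 : j1 + j2 ≤ J)
    (h123 : j1 + j2 + j3 = 2 * J) (hA : A ∈ powersetCard J (Pr P))
    (hB : B ∈ powersetCard J (Pr P)) (hAB : Disjoint A B) :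
    ((pt j1 j2 A B).1 : ℤ) * (((pt j1 j2 A B).2.1 : ℤ) * ((pt j1 j2 A B).2.2 : ℤ)) =
      (∏ p ∈ A, (p : ℤ)) * ∏ p ∈ B, (p : ℤ) := by
  have h := spec h12 h123 hA hB hAB
  rw [← Finset.prod_union hAB, ← h.un, Finset.prod_union h.d3, Finset.prod_union h.d12,
    ← mul_assoc]
  simp only [pt]
  push_cast
  rfl

theorem pt_union {P J j1 j2 j3 : ℕ} {A B A' B' : Finset ℕ} (h12 : j1 + j2 ≤ J)
    (h123 : j1 + j2 + j3 = 2 * J) (hA : A ∈ powersetCard J (Pr P))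
    (hB : B ∈ powersetCard J (Pr P)) (hAB : Disjoint A B) (hA' : A' ∈ powersetCard J (Pr P))
    (hB' : B' ∈ powersetCard J (Pr P)) (hAB' : Disjoint A' B')
    (h : pt j1 j2 A B = pt j1 j2 A' B') : A ∪ B = A' ∪ B' := by
  have g := spec h12 h123 hA hB hAB
  have g' := spec h12 h123 hA' hB' hAB'
  simp only [pt, Prod.mk.injEq] at h
  obtain ⟨e1, e2, e3⟩ := h
  rw [← g.un, ← g'.un, set_eq g.s1 g'.s1 e1, set_eq g.s2 g'.s2 e2, set_eq g.s3 g'.s3 e3]

theorem prod_le {P J : ℕ} {A : Finset ℕ} (hA : A ∈ powersetCard J (Pr P)) :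
    ∏ p ∈ A, p ≤ P ^ J := by
  obtain ⟨hA1, hA2⟩ := Finset.mem_powersetCard.1 hA
  calc ∏ p ∈ A, p ≤ P ^ A.card := Finset.prod_le_pow_card A (fun p => p) P
        (fun p hp => le_of_mem (hA1 hp))
    _ = P ^ J := by rw [hA2]

theorem abs_u {m P J v : ℕ} {X : ℝ} {A B : Finset ℕ} {u : ℤ}
    (hA : A ∈ powersetCard J (Pr P)) (hB : B ∈ powersetCard J (Pr P))
    (hs : Sol m X A B u v) : |u| ≤ ((2 * P ^ (m * J) : ℕ) : ℤ) := by
  obtain ⟨D, -, -, hD⟩ := hs.eq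
  have h1 : (∏ p ∈ A, (p : ℤ)) * ∏ p ∈ B, (p : ℤ) ≤ (P : ℤ) ^ (2 * J) := by
    have a := prod_le hA
    have b := prod_le hB
    have : (∏ p ∈ A, p) * ∏ p ∈ B, p ≤ P ^ (2 * J) := by
      calc (∏ p ∈ A, p) * ∏ p ∈ B, p ≤ P ^ J * P ^ J := Nat.mul_le_mul a b
        _ = P ^ (2 * J) := by rw [← pow_add]; congr 1; ring
    have h7 := (Nat.cast_le (α := ℤ)).2 this
    push_cast at h7
    exact h7
  have h0 : 0 ≤ (∏ p ∈ A, (p : ℤ)) * ∏ p ∈ B, (p : ℤ) :=
    mul_nonneg (Finset.prod_nonneg fun _ _ => by positivity)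
      (Finset.prod_nonneg fun _ _ => by positivity)
  have h2 : u ^ 2 ≤ (2 * (P : ℤ) ^ (m * J)) ^ 2 := by
    have h3 : ((∏ p ∈ A, (p : ℤ)) * ∏ p ∈ B, (p : ℤ)) ^ m ≤ ((P : ℤ) ^ (2 * J)) ^ m :=
      pow_le_pow_left₀ h0 h1 m
    have h4 : (2 * (P : ℤ) ^ (m * J)) ^ 2 = 4 * ((P : ℤ) ^ (2 * J)) ^ m := by
      rw [mul_pow, ← pow_mul, ← pow_mul]
      norm_num
      congr 1
      ring
    rw [h4]
    have h5 : 0 ≤ (D : ℤ) * (v : ℤ) ^ 2 := by positivity
    linarith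
  have := abs_le_of_sq_le_sq h2 (by positivity)
  push_cast
  exact this

theorem odd_case {m P J j1 j2 j3 U v : ℕ} {X : ℝ} {A B : Finset ℕ} {u : ℤ}
    (h12 : j1 + j2 ≤ J) (h123 : j1 + j2 + j3 = 2 * J)
    (hA : A ∈ powersetCard J (Pr P)) (hB : B ∈ powersetCard J (Pr P)) (hAB : Disjoint A B)
    (hU : 2 * P ^ (m * J) ≤ U) (hs : Sol m X A B u v) :
    pt j1 j2 A B ∈ HT m 4 U v (NN P j1) (NN P j2) (NN P j3) := by
  classical
  refine Finset.mem_filter.2 ⟨pt_mem h12 h123 hA hB hAB, pt_cop h12 h123 hA hB hAB hs.cop,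
    u, ?_, ?_⟩
  · exact (abs_u hA hB hs).trans (by exact_mod_cast hU)
  · obtain ⟨D, -, -, hD⟩ := hs.eq
    rw [pt_prod h12 h123 hA hB hAB]
    refine ⟨-(D : ℤ), ?_⟩
    push_cast
    linarith

theorem even_case {m P J j1 j2 j3 U w : ℕ} {X : ℝ} {A B : Finset ℕ} {u : ℤ}
    (h12 : j1 + j2 ≤ J) (h123 : j1 + j2 + j3 = 2 * J)
    (hA : A ∈ powersetCard J (Pr P)) (hB : B ∈ powersetCard J (Pr P)) (hAB : Disjoint A B)
    (hU : 2 * P ^ (m * J) ≤ U) (hs : Sol m X A B u (2 * w)) :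
    pt j1 j2 A B ∈ HT m 1 U w (NN P j1) (NN P j2) (NN P j3) := by
  classical
  obtain ⟨D, -, -, hD⟩ := hs.eq
  have he : Even u := by
    have h2 : Even (u ^ 2) := by
      have : u ^ 2 = 2 * (2 * ((∏ p ∈ A, (p : ℤ)) * ∏ p ∈ B, (p : ℤ)) ^ m -
          2 * ((D : ℤ) * (w : ℤ) ^ 2)) := by
        push_cast at hD
        linarith
      rw [this]
      exact even_two_mul _
    exact (Int.even_pow.1 h2).1
  obtain ⟨u', hu'⟩ := he.two_dvd
  obtain ⟨k1, k2, k3⟩ := pt_cop h12 h123 hA hB hAB hs.cop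
  refine Finset.mem_filter.2 ⟨pt_mem h12 h123 hA hB hAB,
    ⟨Nat.Coprime.coprime_mul_left_right k1, Nat.Coprime.coprime_mul_left_right k2,
      Nat.Coprime.coprime_mul_left_right k3⟩, u', ?_, ?_⟩
  · have h1 := (abs_u hA hB hs).trans (show ((2 * P ^ (m * J) : ℕ) : ℤ) ≤ (U : ℤ) by
      exact_mod_cast hU)
    have h2 : |u'| ≤ |u| := by
      rw [hu', abs_mul]
      have : (0 : ℤ) ≤ |u'| := abs_nonneg _
      norm_num
      linarith
    exact h2.trans h1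
  · rw [pt_prod h12 h123 hA hB hAB]
    refine ⟨-(D : ℤ), ?_⟩
    rw [hu'] at hD
    push_cast at hD ⊢
    linarith

/-- The map. -/
noncomputable def psi (j1 j2 : ℕ) (y : Finset ℕ × Finset ℕ × ℕ) :
    (Σ _ : ℕ, ℕ × (ℕ × ℕ)) ⊕ (Σ _ : ℕ, ℕ × (ℕ × ℕ)) :=
  if y.2.2 % 2 = 1 then Sum.inl ⟨y.2.2, pt j1 j2 y.1 y.2.1⟩
  else Sum.inr ⟨y.2.2 / 2, pt j1 j2 y.1 y.2.1⟩

theorem psi_eq {j1 j2 : ℕ} {A B A' B' : Finset ℕ} {v v' : ℕ}
    (h : psi j1 j2 (A, B, v) = psi j1 j2 (A', B', v')) :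
    v = v' ∧ pt j1 j2 A B = pt j1 j2 A' B' := by
  by_cases hv : v % 2 = 1
  · by_cases hv' : v' % 2 = 1
    · simp only [psi, hv, hv', if_true] at h
      have hq := Sum.inl.inj h
      simp only [Sigma.mk.injEq, heq_eq_eq] at hq
      exact hq
    · simp only [psi, hv, hv', if_true, if_false] at h
      exact absurd h (by simp)
  · by_cases hv' : v' % 2 = 1
    · simp only [psi, hv, hv', if_true, if_false] at h
      exact absurd h (by simp)
    · simp only [psi, hv, hv', if_false] at h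
      have hq := Sum.inr.inj h
      simp only [Sigma.mk.injEq, heq_eq_eq] at hq
      exact ⟨by omega, hq.2⟩

end I_BG2

open I_BG2 in
theorem BG2_pf (h1 : AV.S_NUU) (h2 : AV.S_QFN) : S_BG2 := by
  classical
  intro m P J j1 j2 j3 U W0 W1 T X hm hJ hX h12 h123 hU hW hT hQ
  have hX0 : 0 < X := by linarith
  have hfin := (h2 m P J X hX0).1
  set S : Set (Finset ℕ × Finset ℕ × ℤ × ℕ) :=
    {x ∈ QS m X P J | 2 * W0 + 1 < x.2.2.2} with hS
  have hSf : S.Finite := hfin.subset (Set.sep_subset _ _)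
  set F := hSf.toFinset with hF
  have hmem : ∀ x, x ∈ F ↔ x ∈ QS m X P J ∧ 2 * W0 + 1 < x.2.2.2 := by
    intro x
    rw [hF, Set.Finite.mem_toFinset]
    exact Iff.rfl
  set f : (Finset ℕ × Finset ℕ × ℤ × ℕ) → (Finset ℕ × Finset ℕ × ℕ) :=
    fun x => (x.1, x.2.1, x.2.2.2) with hf
  have hcard : F.card ≤ (112 * T) * (F.image f).card := by
    refine Finset.card_le_mul_card_image F (112 * T) fun y hy => ?_
    obtain ⟨x0, hx0, rfl⟩ := Finset.mem_image.1 hy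
    obtain ⟨hx0q, hx0v⟩ := (hmem x0).1 hx0
    obtain ⟨hA, hB, hAB, hs⟩ := hx0q
    obtain ⟨A, B, u0, v⟩ := x0
    simp only at hA hB hAB hs hx0v
    set n := (∏ p ∈ A, p) * ∏ p ∈ B, p with hn
    have hn1 : 1 ≤ n := by
      refine Nat.succ_le_of_lt (Nat.mul_pos (Finset.prod_pos fun p hp => ?_)
        (Finset.prod_pos fun p hp => ?_))
      · exact (prime_of_mem ((Finset.mem_powersetCard.1 hA).1 hp)).pos
      · exact (prime_of_mem ((Finset.mem_powersetCard.1 hB).1 hp)).pos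
    have hnv : n.Coprime v := by
      refine Nat.Coprime.mul_left (Nat.Coprime.prod_left fun p hp => ?_)
        (Nat.Coprime.prod_left fun p hp => ?_)
      · exact (Nat.Prime.coprime_iff_not_dvd
          (prime_of_mem ((Finset.mem_powersetCard.1 hA).1 hp))).2
          (hs.cop p (Finset.mem_union_left _ hp))
      · exact (Nat.Prime.coprime_iff_not_dvd
          (prime_of_mem ((Finset.mem_powersetCard.1 hB).1 hp))).2
          (hs.cop p (Finset.mem_union_right _ hp))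
    obtain ⟨hUf, hUc⟩ := h1 n v m X hn1 hs.pos hnv hX0
    set E : Set ℤ := {u : ℤ | ∃ D : ℕ, X / 2 < (D : ℝ) ∧ (D : ℝ) ≤ X ∧
      u ^ 2 + (D : ℤ) * (v : ℤ) ^ 2 = 4 * (n : ℤ) ^ m} with hE
    have hc1 : (F.filter fun x => f x = f (A, B, u0, v)).card ≤ hUf.toFinset.card := by
      refine Finset.card_le_card_of_injOn (fun x => x.2.2.1) ?_ ?_
      · intro x hx
        obtain ⟨hx1, hx2⟩ := Finset.mem_filter.1 (Finset.mem_coe.1 hx)
        obtain ⟨hxq, -⟩ := (hmem x).1 hx1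
        obtain ⟨A', B', u', v'⟩ := x
        simp only [hf, Prod.mk.injEq] at hx2
        obtain ⟨rfl, rfl, rfl⟩ := hx2
        obtain ⟨D, hD1, hD2, hD3⟩ := hxq.2.2.2.eq
        refine Finset.mem_coe.2 (hUf.mem_toFinset.2 ⟨D, hD1, hD2, ?_⟩)
        simp only at hD3 ⊢
        rw [hD3, hn]
        push_cast
        rfl
      · intro x hx x' hx' hxx
        obtain ⟨-, hx2⟩ := Finset.mem_filter.1 (Finset.mem_coe.1 hx)
        obtain ⟨-, hx2'⟩ := Finset.mem_filter.1 (Finset.mem_coe.1 hx')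
        obtain ⟨A1, B1, u1, v1⟩ := x
        obtain ⟨A2, B2, u2, v2⟩ := x'
        simp only [hf, Prod.mk.injEq] at hx2 hx2' hxx
        obtain ⟨rfl, rfl, rfl⟩ := hx2
        obtain ⟨rfl, rfl, rfl⟩ := hx2'
        rw [hxx]
    have hc2 : (hUf.toFinset.card : ℝ) ≤ 112 * T := by
      rw [← Set.ncard_eq_toFinset_card E hUf]
      refine hUc.trans ?_
      have hv0 : (0 : ℝ) < v := by exact_mod_cast hs.pos
      have hsq : Real.sqrt X / v ≤ 1 := by
        rw [div_le_one hv0]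
        refine hW.trans ?_
        have : (2 * W0 + 1 : ℕ) ≤ v := hx0v.le
        have h3 : ((2 * W0 + 1 : ℕ) : ℝ) ≤ (v : ℝ) := by exact_mod_cast this
        push_cast at h3
        linarith
      have hT' : ((2 ^ v.primeFactors.card : ℕ) : ℝ) ≤ (T : ℝ) := by
        exact_mod_cast hT v hs.pos (hQ (A, B, u0, v) ⟨hA, hB, hAB, hs⟩)
      push_cast at hT'
      have hs0 : 0 ≤ Real.sqrt X / v + 1 := by positivity
      calc 56 * 2 ^ v.primeFactors.card * (Real.sqrt X / v + 1)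
          ≤ 56 * (T : ℝ) * (1 + 1) := by
            refine mul_le_mul (by linarith) (by linarith) hs0 (by positivity)
        _ = 112 * T := by ring
    have hc3 : ((F.filter fun x => f x = f (A, B, u0, v)).card : ℝ) ≤ ((112 * T : ℕ) : ℝ) := by
      push_cast
      exact le_trans (by exact_mod_cast hc1) hc2
    exact_mod_cast hc3
  have hcard2 : (F.image f).card ≤ 4 ^ J * ((F.image f).image (psi j1 j2)).card := by
    refine Finset.card_le_mul_card_image (F.image f) (4 ^ J) fun y hy => ?_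
    obtain ⟨y0, hy0, rfl⟩ := Finset.mem_image.1 hy
    obtain ⟨x0, hx0, rfl⟩ := Finset.mem_image.1 hy0
    obtain ⟨hx0q, -⟩ := (hmem x0).1 hx0
    obtain ⟨hA, hB, hAB, -⟩ := hx0q
    obtain ⟨A, B, u0, v⟩ := x0
    simp only at hA hB hAB
    have hUc : (A ∪ B).card = 2 * J := by
      rw [Finset.card_union_of_disjoint hAB, (Finset.mem_powersetCard.1 hA).2,
        (Finset.mem_powersetCard.1 hB).2]
      ring
    have h4 : 4 ^ J = (A ∪ B).powerset.card := by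
      rw [Finset.card_powerset, hUc, pow_mul]
      norm_num
    rw [h4]
    refine Finset.card_le_card_of_injOn (fun z => z.1) ?_ ?_
    · intro z hz
      obtain ⟨hz1, hz2⟩ := Finset.mem_filter.1 (Finset.mem_coe.1 hz)
      obtain ⟨x, hx, rfl⟩ := Finset.mem_image.1 hz1
      obtain ⟨hxq, -⟩ := (hmem x).1 hx
      obtain ⟨hA', hB', hAB', -⟩ := hxq
      obtain ⟨A', B', u', v'⟩ := x
      simp only at hA' hB' hAB'
      obtain ⟨-, hp⟩ := psi_eq hz2
      have hu := pt_union h12 h123 hA' hB' hAB' hA hB hAB hp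
      refine Finset.mem_coe.2 (Finset.mem_powerset.2 ?_)
      rw [← hu]
      exact Finset.subset_union_left
    · intro z hz z' hz' hzz
      obtain ⟨hz1, hz2⟩ := Finset.mem_filter.1 (Finset.mem_coe.1 hz)
      obtain ⟨hz1', hz2'⟩ := Finset.mem_filter.1 (Finset.mem_coe.1 hz')
      obtain ⟨x, hx, rfl⟩ := Finset.mem_image.1 hz1
      obtain ⟨x', hx', rfl⟩ := Finset.mem_image.1 hz1'
      obtain ⟨hxq, -⟩ := (hmem x).1 hx
      obtain ⟨hxq', -⟩ := (hmem x').1 hx'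
      obtain ⟨gA, gB, gAB, -⟩ := hxq
      obtain ⟨gA', gB', gAB', -⟩ := hxq'
      obtain ⟨A1, B1, u1, v1⟩ := x
      obtain ⟨A2, B2, u2, v2⟩ := x'
      simp only at gA gB gAB gA' gB' gAB'
      simp only [hf] at hzz
      subst hzz
      obtain ⟨hv1, hp1⟩ := psi_eq hz2
      obtain ⟨hv2, hp2⟩ := psi_eq hz2'
      have hu1 := pt_union h12 h123 gA gB gAB hA hB hAB hp1
      have hu2 := pt_union h12 h123 gA' gB' gAB' hA hB hAB hp2
      have hB1 : B1 = (A ∪ B) \ A1 := by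
        rw [← hu1, Finset.union_sdiff_cancel_left gAB]
      have hB2 : B2 = (A ∪ B) \ A1 := by
        rw [← hu2, Finset.union_sdiff_cancel_left gAB']
      have hv12 : v1 = v2 := hv1.trans hv2.symm
      simp only [hf]
      rw [hB1, hB2, hv12]
  have himg : ((F.image f).image (psi j1 j2)).card ≤
      ∑ w ∈ (Ioc W0 W1).filter (fun w => Nat.Coprime 4 w),
        (HT m 4 U w (NN P j1) (NN P j2) (NN P j3)).card +
      ∑ w ∈ (Ioc W0 W1).filter (fun w => Nat.Coprime 1 w),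
        (HT m 1 U w (NN P j1) (NN P j2) (NN P j3)).card := by
    rw [← Finset.card_sigma, ← Finset.card_sigma, ← Finset.card_disjSum]
    refine Finset.card_le_card ?_
    intro y hy
    obtain ⟨y0, hy0, rfl⟩ := Finset.mem_image.1 hy
    obtain ⟨x, hx, rfl⟩ := Finset.mem_image.1 hy0
    obtain ⟨hxq, hxv⟩ := (hmem x).1 hx
    have hxW := hQ x hxq
    obtain ⟨hA, hB, hAB, hs⟩ := hxq
    obtain ⟨A, B, u, v⟩ := x
    simp only at hA hB hAB hs hxv hxW
    by_cases hv : v % 2 = 1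
    · have : psi j1 j2 (f (A, B, u, v)) = Sum.inl ⟨v, pt j1 j2 A B⟩ := by
        simp only [psi, hf, hv, if_true]
      rw [this]
      refine Finset.inl_mem_disjSum.2 (Finset.mem_sigma.2 ⟨Finset.mem_filter.2
        ⟨Finset.mem_Ioc.2 ⟨by simp only; omega, hxW⟩, ?_⟩, ?_⟩)
      · simp only
        have : Nat.Coprime 2 v := (Nat.coprime_two_left).2 (Nat.odd_iff.2 hv)
        exact Nat.Coprime.mul_left (m := 2) (n := 2) this this
      · exact odd_case h12 h123 hA hB hAB hU hs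
    · have : psi j1 j2 (f (A, B, u, v)) = Sum.inr ⟨v / 2, pt j1 j2 A B⟩ := by
        simp only [psi, hf, hv, if_false]
      rw [this]
      have hv2 : 2 * (v / 2) = v := by omega
      refine Finset.inr_mem_disjSum.2 (Finset.mem_sigma.2 ⟨Finset.mem_filter.2
        ⟨Finset.mem_Ioc.2 ⟨by simp only; omega, by simp only; omega⟩,
          Nat.coprime_one_left _⟩, ?_⟩)
      refine even_case h12 h123 hA hB hAB hU (u := u) (X := X) ?_
      simp only
      rw [hv2]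
      exact hs
  have hfinal : (F.card : ℝ) ≤ 4 ^ J * (112 * T) *
      (∑ w ∈ (Ioc W0 W1).filter (fun w => Nat.Coprime 4 w),
          ((HT m 4 U w (NN P j1) (NN P j2) (NN P j3)).card : ℝ) +
        ∑ w ∈ (Ioc W0 W1).filter (fun w => Nat.Coprime 1 w),
          ((HT m 1 U w (NN P j1) (NN P j2) (NN P j3)).card : ℝ)) := by
    have h5 := hcard.trans (Nat.mul_le_mul_left (112 * T)
      (hcard2.trans (Nat.mul_le_mul_left (4 ^ J) himg)))
    have h6 : (112 * T) * (4 ^ J * (∑ w ∈ (Ioc W0 W1).filter (fun w => Nat.Coprime 4 w),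
          (HT m 4 U w (NN P j1) (NN P j2) (NN P j3)).card +
        ∑ w ∈ (Ioc W0 W1).filter (fun w => Nat.Coprime 1 w),
          (HT m 1 U w (NN P j1) (NN P j2) (NN P j3)).card)) =
        4 ^ J * (112 * T) * (∑ w ∈ (Ioc W0 W1).filter (fun w => Nat.Coprime 4 w),
          (HT m 4 U w (NN P j1) (NN P j2) (NN P j3)).card +
        ∑ w ∈ (Ioc W0 W1).filter (fun w => Nat.Coprime 1 w),
          (HT m 1 U w (NN P j1) (NN P j2) (NN P j3)).card) := by ring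
    rw [h6] at h5
    exact_mod_cast h5
  rw [Set.ncard_eq_toFinset_card S hSf]
  exact hfinal

end Pool.Agent.Work.MP_e0c7e8_nt.AW
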