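import Pool.Agent.Work.MP_e0c7e8_nt.AW.Stmts

/-!
# MP_e0c7e8_nt, block AW, item EXB (helper90)
The exceptional tuples on average over the modulus.
-/

set_option autoImplicit false

namespace Pool.Agent.Work.MP_e0c7e8_nt.AW

open Finset Pool.Agent.Work.MP_e0c7e8_nt.SM Pool.Agent.Work.MP_e0c7e8_nt.BG
  Pool.Agent.Work.MP_e0c7e8_nt.AV

theorem EXB_pf (hNZM : S_NZM) : S_EXB := by
  classical
  intro m k Y N1 T W0 W1 N hm hk hN hT
  have hNc : N.card ≤ N1 := by
    have h1 : N ⊆ Finset.Icc 1 N1 := fun n hn =>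
      Finset.mem_Icc.2 ⟨(hN n hn).1, (hN n hn).2.1⟩
    simpa using Finset.card_le_card h1
  set A : Finset (Fin k → ℕ) := Fintype.piFinset fun _ : Fin k => N with hA
  set Bx : Finset (Fin k → ℤ) := Fintype.piFinset fun _ : Fin k => Finset.Icc (-(Y : ℤ)) Y with hBx
  have hAc : A.card ≤ N1 ^ k := by
    rw [hA, Fintype.card_piFinset]
    simpa [Finset.prod_const, Finset.card_univ] using Nat.pow_le_pow_left hNc k
  have hBc : Bx.card = (2 * Y + 1) ^ k := by
    rw [hBx, Fintype.card_piFinset]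
    have h2 : (Finset.Icc (-(Y : ℤ)) Y).card = 2 * Y + 1 := by
      rw [Int.card_Icc]; omega
    simp [Finset.prod_const, Finset.card_univ, h2]
  have key : ∀ w ∈ Finset.Ioc W0 W1, (EX3 m k Y w N).card ≤
      ∑ p ∈ A.filter Function.Injective, ∑ y ∈ Bx.filter (fun y => y ≠ 0),
        (if Rel m k Y w p y then 1 else 0) := by
    intro w hw
    have hsub : EX3 m k Y w N ⊆
        (A.filter Function.Injective).filter (fun p => ∃ y, Rel m k Y w p y) := by
      intro p hp
      unfold EX3 at hp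
      obtain ⟨h1, h2, h3⟩ := Finset.mem_filter.1 hp
      exact Finset.mem_filter.2 ⟨Finset.mem_filter.2 ⟨h1, h2⟩, h3⟩
    refine (Finset.card_le_card hsub).trans ?_
    rw [Finset.card_filter]
    refine Finset.sum_le_sum fun p hp => ?_
    split_ifs with h
    · obtain ⟨y, hy⟩ := h
      have hyB : y ∈ Bx.filter (fun y => y ≠ 0) := by
        refine Finset.mem_filter.2 ⟨Fintype.mem_piFinset.2 fun j => ?_, hy.1⟩
        exact Finset.mem_Icc.2 (abs_le.1 (hy.2.1 j))
      have h5 := Finset.single_le_sum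
        (f := fun y => if Rel m k Y w p y then (1 : ℕ) else 0) (fun _ _ => Nat.zero_le _) hyB
      simp only [if_pos hy] at h5
      exact h5
    · exact Nat.zero_le _
  refine (Finset.sum_le_sum key).trans ?_
  rw [Finset.sum_comm]
  have h6 : ∀ p ∈ A.filter Function.Injective,
      ∑ w ∈ Finset.Ioc W0 W1, ∑ y ∈ Bx.filter (fun y => y ≠ 0),
        (if Rel m k Y w p y then 1 else 0) ≤ (2 * Y + 1) ^ k * T := by
    intro p hp
    obtain ⟨hpA, hpi⟩ := Finset.mem_filter.1 hp
    have hpN := Fintype.mem_piFinset.1 hpA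
    rw [Finset.sum_comm]
    have h7 : ∀ y ∈ Bx.filter (fun y => y ≠ 0),
        ∑ w ∈ Finset.Ioc W0 W1, (if Rel m k Y w p y then 1 else 0) ≤ T := by
      intro y hy
      obtain ⟨hyB, hy0⟩ := Finset.mem_filter.1 hy
      have hyb : ∀ j, |y j| ≤ (Y : ℤ) := fun j =>
        abs_le.2 (Finset.mem_Icc.1 (Fintype.mem_piFinset.1 hyB j))
      obtain ⟨M, hM0, hM1, hM2⟩ := hNZM m k Y N1 p y hm hk hpi
        (fun j => ⟨(hN _ (hpN j)).2.2, (hN _ (hpN j)).2.1⟩) hy0 hyb
      rw [← Finset.card_filter]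
      refine le_trans (Finset.card_le_card ?_) (hT M hM0 hM1)
      intro w hw
      obtain ⟨hw1, hw2⟩ := Finset.mem_filter.1 hw
      have hw3 : 1 ≤ w := by
        have := (Finset.mem_Ioc.1 hw1).1
        omega
      exact Nat.mem_divisors.2 ⟨(dvd_pow_self w two_ne_zero).trans (hM2 w hw3 hw2), hM0⟩
    refine (Finset.sum_le_card_nsmul _ _ _ h7).trans ?_
    rw [smul_eq_mul]
    refine Nat.mul_le_mul_right _ ?_
    rw [← hBc]
    exact Finset.card_filter_le _ _
  refine (Finset.sum_le_card_nsmul _ _ _ h6).trans ?_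
  rw [smul_eq_mul, mul_assoc]
  exact Nat.mul_le_mul_right _ ((Finset.card_filter_le _ _).trans hAc)

end Pool.Agent.Work.MP_e0c7e8_nt.AW
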