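import Pool.Agent.Work.MP_e0c7e8_nt.AW.Stmts
import Pool.Agent.Work.MP_e0c7e8_nt.AV.I_FDM

/-!
# FD2: one dyadic interval
-/

set_option autoImplicit false

namespace Pool.Agent.Work.MP_e0c7e8_nt.AW

open Finset Pool.Agent.Work.MP_e0c7e8_nt.SM Pool.Agent.Work.MP_e0c7e8_nt.BG
  Pool.Agent.Work.MP_e0c7e8_nt.AV

namespace I_FD2

/-- the exponent -/
theorem expo (hPR : S_PR2) (m : ℕ) (hm : 5 ≤ m) :
    (3 : ℝ) / 2 - (J2 m - 1 / 50) / K2 m = (3 : ℝ) / 2 - 3 / (2 * m + 2) - 49 / (50 * K2 m) ∧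
    (9 : ℝ) / 8 ≤ (3 : ℝ) / 2 - 3 / (2 * m + 2) - 49 / (50 * K2 m) ∧ 0 < K2 m ∧ 1 ≤ J2 m := by
  obtain ⟨_, _, h1, _, _, _, _, _⟩ := hPR m hm
  have ht : 100 ≤ t2 m := by
    unfold t2
    have : 4 * m + 100 ≤ 6 * m ^ 2 := by nlinarith
    omega
  have hK : 100 ≤ K2 m := by
    unfold K2
    nlinarith
  have hj : 1 ≤ J2 m := by unfold J2; omega
  have hKr : (100 : ℝ) ≤ (K2 m : ℝ) := by exact_mod_cast hK
  have hmr : (5 : ℝ) ≤ (m : ℝ) := by exact_mod_cast hm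
  have h1r : 2 * (((m : ℝ) + 1) * (J2 m : ℝ)) = 3 * (K2 m : ℝ) + 2 * ((m : ℝ) + 1) := by
    exact_mod_cast h1
  have hK0 : (K2 m : ℝ) ≠ 0 := by positivity
  have hm0 : (2 * (m : ℝ) + 2) ≠ 0 := by positivity
  refine ⟨?_, ?_, by omega, hj⟩
  · have h3 : (3 : ℝ) / (2 * m + 2) = (J2 m - 1) / K2 m := by
      rw [div_eq_div_iff hm0 hK0]
      linarith
    rw [h3]
    field_simp
    ring
  · have h3 : (3 : ℝ) / (2 * m + 2) ≤ 1 / 4 := by
      rw [div_le_div_iff₀ (by positivity) (by norm_num)]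
      linarith
    have h4 : (49 : ℝ) / (50 * K2 m) ≤ 1 / 16 := by
      rw [div_le_div_iff₀ (by positivity) (by norm_num)]
      linarith
    linarith

end I_FD2

open I_FD2 AV.I_FDM in
theorem FD2_pf (hPR : S_PR2) (hBAD : AV.S_BAD) (hGSM : S_GS2) (h1a : ClaimC1a) (h1c : ClaimC1c) :
    S_FD2 := by
  classical
  intro m hm ho
  obtain ⟨hE, hE2, hK, hj⟩ := I_FD2.expo hPR m hm
  set E : ℝ := (3 : ℝ) / 2 - 3 / (2 * m + 2) - 49 / (50 * K2 m) with hEdef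
  obtain ⟨X0, C1, hX0, hC1, hG⟩ := hGSM m hm ho
  have hjr : (1 : ℝ) ≤ (J2 m : ℝ) := by exact_mod_cast hj
  have hc1 : (0 : ℝ) < 1 / (400 * J2 m) := by positivity
  have hc2 : (1 : ℝ) / (400 * J2 m) < 1 / 2 := by
    rw [div_lt_div_iff₀ (by positivity) (by norm_num)]
    linarith
  obtain ⟨C3, hC3, X0', hX0', hB⟩ := hBAD (K2 m) hK (1 / (400 * J2 m)) hc1 hc2
  obtain ⟨C2, hC2, hcl⟩ := h1c (1 / 8) (by norm_num)
  set X1 : ℝ := max X0 X0' with hX1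
  have hX1' : 1 ≤ X1 := le_max_of_le_left hX0
  refine ⟨C1 + C2 * C3 + C2 * X1 ^ 2, by positivity, fun X hX => ?_⟩
  have hX00 : 0 < X := lt_of_lt_of_le one_pos hX
  have hXE1 : 1 ≤ X ^ E := Real.one_le_rpow hX (by linarith)
  have htor := fun d (hd : d ∈ DD X) => tor_le h1a hC2 hcl m hd
  rcases le_or_gt X1 X with hXX | hXX
  · have hb1 : X0 ≤ X := (le_max_left _ _).trans hXX
    have hb2 : X0' ≤ X := (le_max_right _ _).trans hXX
    set gd : ℤ → Prop := fun d => X ^ ((1 - 1 / (400 * J2 m)) / (K2 m : ℝ)) ≤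
      (Pd d ⌊X ^ ((1 : ℝ) / (K2 m : ℕ))⌋₊ : ℝ) with hgd
    rw [← sum_filter_add_sum_filter_not (DD X) gd]
    have h1 : ∑ d ∈ (DD X).filter gd,
        (Nat.card {y : ClassGroup ↥(Od d) // y ^ m = 1} : ℝ) ≤ C1 * X ^ E := by
      have h2 := hG X ((DD X).filter gd) hb1 (fun d hd => by
        rw [mem_filter] at hd
        obtain ⟨h3, h4, h5, h6⟩ := mem_DD hd.1
        exact ⟨h3, h4, h5, h6, hd.2⟩)
      rwa [hE] at h2
    have h2 : ∑ d ∈ (DD X).filter (fun d => ¬ gd d),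
        (Nat.card {y : ClassGroup ↥(Od d) // y ^ m = 1} : ℝ) ≤ C2 * C3 * X ^ E := by
      have h3 : (((DD X).filter (fun d => ¬ gd d)).card : ℝ) ≤ C3 * X ^ ((1 : ℝ) / 2) :=
        hB X _ hb2 (fun d hd => by
          rw [mem_filter] at hd
          obtain ⟨h3, _, _, h6⟩ := mem_DD hd.1
          exact ⟨h3, h6, (not_le.1 hd.2).le⟩)
      calc ∑ d ∈ (DD X).filter (fun d => ¬ gd d),
          (Nat.card {y : ClassGroup ↥(Od d) // y ^ m = 1} : ℝ)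
          ≤ ∑ d ∈ (DD X).filter (fun d => ¬ gd d), C2 * X ^ ((5 : ℝ) / 8) :=
            sum_le_sum fun d hd => htor d (mem_filter.1 hd).1
        _ = (((DD X).filter (fun d => ¬ gd d)).card : ℝ) * (C2 * X ^ ((5 : ℝ) / 8)) := by
            rw [sum_const, nsmul_eq_mul]
        _ ≤ (C3 * X ^ ((1 : ℝ) / 2)) * (C2 * X ^ ((5 : ℝ) / 8)) :=
            mul_le_mul_of_nonneg_right h3 (by positivity)
        _ = C2 * C3 * X ^ ((9 : ℝ) / 8) := by
            have h4 : X ^ ((9 : ℝ) / 8) = X ^ ((1 : ℝ) / 2) * X ^ ((5 : ℝ) / 8) := by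
              rw [← Real.rpow_add hX00]
              norm_num
            rw [h4]
            ring
        _ ≤ C2 * C3 * X ^ E :=
            mul_le_mul_of_nonneg_left (Real.rpow_le_rpow_of_exponent_le hX hE2) (by positivity)
    have h3 : 0 ≤ C2 * X1 ^ 2 * X ^ E := by positivity
    linarith [add_mul (C1 + C2 * C3) (C2 * X1 ^ 2) (X ^ E), add_mul C1 (C2 * C3) (X ^ E)]
  · have h1 : X ^ ((5 : ℝ) / 8) ≤ X1 := by
      calc X ^ ((5 : ℝ) / 8) ≤ X ^ (1 : ℝ) := Real.rpow_le_rpow_of_exponent_le hX (by norm_num)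
        _ = X := Real.rpow_one X
        _ ≤ X1 := hXX.le
    have h2 : ∑ d ∈ DD X, (Nat.card {y : ClassGroup ↥(Od d) // y ^ m = 1} : ℝ) ≤
        C2 * X1 ^ 2 := by
      calc ∑ d ∈ DD X, (Nat.card {y : ClassGroup ↥(Od d) // y ^ m = 1} : ℝ)
          ≤ ∑ d ∈ DD X, C2 * X1 :=
            sum_le_sum fun d hd => (htor d hd).trans (mul_le_mul_of_nonneg_left h1 hC2.le)
        _ = ((DD X).card : ℝ) * (C2 * X1) := by rw [sum_const, nsmul_eq_mul]
        _ ≤ X1 * (C2 * X1) :=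
            mul_le_mul_of_nonneg_right ((card_DD hX00.le).trans hXX.le) (by positivity)
        _ = C2 * X1 ^ 2 := by ring
    calc ∑ d ∈ DD X, (Nat.card {y : ClassGroup ↥(Od d) // y ^ m = 1} : ℝ)
        ≤ C2 * X1 ^ 2 := h2
      _ ≤ (C1 + C2 * C3 + C2 * X1 ^ 2) * 1 := by
          have : 0 ≤ C1 + C2 * C3 := by positivity
          linarith
      _ ≤ _ := mul_le_mul_of_nonneg_left hXE1 (by positivity)

end Pool.Agent.Work.MP_e0c7e8_nt.AW
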