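import Pool.Agent.Work.MP_e0c7e8_nt.AW.Stmts
import Pool.Agent.Work.MP_e0c7e8_nt.AV.I_FIN

/-! Item FN2 of the block AW (helper39): sum over dyadic intervals. -/

set_option autoImplicit false

namespace Pool.Agent.Work.MP_e0c7e8_nt.AW

open Finset Pool.Agent.Work.MP_e0c7e8_nt.SM Pool.Agent.Work.MP_e0c7e8_nt.BG
  Pool.Agent.Work.MP_e0c7e8_nt.AV

namespace I_FN2

lemma K2_lt (m : ℕ) (hm : 5 ≤ m) : 50 * (K2 m : ℝ) < 49 * (13 * (m : ℝ) ^ 3) := by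
  have hm0 : (5 : ℝ) ≤ m := by exact_mod_cast hm
  have h1 : 4 * m ≤ 6 * m ^ 2 := by nlinarith
  have h2 : (K2 m : ℝ) = (2 * m + 2) * (6 * (m : ℝ) ^ 2 - 4 * m) := by
    unfold K2 t2
    push_cast [Nat.cast_sub h1]
    ring
  rw [h2]
  nlinarith [mul_nonneg (mul_nonneg (sub_nonneg.2 hm0) (sub_nonneg.2 hm0)) (sub_nonneg.2 hm0),
    mul_nonneg (sub_nonneg.2 hm0) (sub_nonneg.2 hm0), sq_nonneg ((m : ℝ) - 5)]

lemma K2_pos (m : ℕ) (hm : 5 ≤ m) : 0 < (K2 m : ℝ) := by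
  have h1 : 4 * m < 6 * m ^ 2 := by nlinarith
  have : 0 < K2 m := by
    unfold K2 t2
    exact Nat.mul_pos (by omega) (by omega)
  exact_mod_cast this

end I_FN2

theorem FN2_pf (h1 : S_FD2) (h2 : S_TWO) : S_FN2 := by
  intro a m hm hodd
  obtain ⟨C1, hC1, H1⟩ := h1 m hm hodd
  have hm0 : (5 : ℝ) ≤ m := by exact_mod_cast hm
  have hm3 : (1 : ℝ) ≤ (m : ℝ) ^ 3 := one_le_pow₀ (by linarith)
  have hK := I_FN2.K2_lt m hm
  have hKpos := I_FN2.K2_pos m hm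
  set ε : ℝ := 49 / (50 * (K2 m : ℝ)) - 1 / (13 * (m : ℝ) ^ 3) with hε
  have hε0 : 0 < ε := by
    rw [hε, sub_pos, div_lt_div_iff₀ (by positivity) (by positivity)]
    linarith
  obtain ⟨C2, hC2, H2⟩ := h2 a ε hε0
  set e : ℝ := (3 : ℝ) / 2 - 3 / (2 * m + 2) - 1 / (13 * m ^ 3) with he
  have he1 : (3 : ℝ) / 2 - 3 / (2 * m + 2) - 49 / (50 * K2 m) + ε ≤ e := by
    rw [he, hε]
    linarith
  have he2 : 1 ≤ e := by
    have h4 : 3 / (2 * (m : ℝ) + 2) ≤ 1 / 4 := by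
      rw [div_le_div_iff₀ (by positivity) (by norm_num)]
      linarith
    have h5 : 1 / (13 * (m : ℝ) ^ 3) ≤ 1 / 4 := by
      apply one_div_le_one_div_of_le (by norm_num)
      nlinarith
    rw [he]
    linarith
  have key : ∀ X : ℝ, 1 ≤ X → ∑ d ∈ DD X,
      (Nat.card {x : ClassGroup ↥(Od d) // x ^ (2 ^ a * m) = 1} : ℝ) ≤ C2 * C1 * X ^ e := by
    intro X hX
    have hX0 : 0 < X := by linarith
    have hm0' : 0 < m := by omega
    calc ∑ d ∈ DD X, (Nat.card {x : ClassGroup ↥(Od d) // x ^ (2 ^ a * m) = 1} : ℝ)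
        ≤ ∑ d ∈ DD X, C2 * X ^ ε * (Nat.card {y : ClassGroup ↥(Od d) // y ^ m = 1} : ℝ) := by
          apply sum_le_sum
          intro d hd
          rw [DD, mem_filter, mem_Icc] at hd
          obtain ⟨⟨hd1, hd2⟩, hd3, hd4⟩ := hd
          have hd5 : |(d : ℝ)| ≤ X := AV.I_FIN.abs_of_mem hd1 hd2
          refine (H2 m d hm0' (by omega) hd3).trans ?_
          have h6 : |(d : ℝ)| ^ ε ≤ X ^ ε := Real.rpow_le_rpow (abs_nonneg _) hd5 hε0.le
          have h7 : (0 : ℝ) ≤ (Nat.card {y : ClassGroup ↥(Od d) // y ^ m = 1} : ℝ) :=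
            Nat.cast_nonneg _
          exact mul_le_mul_of_nonneg_right (mul_le_mul_of_nonneg_left h6 hC2.le) h7
      _ = C2 * X ^ ε * ∑ d ∈ DD X, (Nat.card {y : ClassGroup ↥(Od d) // y ^ m = 1} : ℝ) := by
          rw [mul_sum]
      _ ≤ C2 * X ^ ε * (C1 * X ^ ((3 : ℝ) / 2 - 3 / (2 * m + 2) - 49 / (50 * K2 m))) :=
          mul_le_mul_of_nonneg_left (H1 X hX) (by positivity)
      _ = C2 * C1 * X ^ ((3 : ℝ) / 2 - 3 / (2 * m + 2) - 49 / (50 * K2 m) + ε) := by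
          rw [Real.rpow_add hX0]; ring
      _ ≤ C2 * C1 * X ^ e := by
          apply mul_le_mul_of_nonneg_left _ (by positivity)
          exact Real.rpow_le_rpow_of_exponent_le hX he1
  refine ⟨2 * (C2 * C1), by positivity, fun X hX => ?_⟩
  obtain ⟨n, hn⟩ := pow_unbounded_of_one_lt X (one_lt_two)
  exact AV.I_FIN.dyad (fun d => (Nat.card {x : ClassGroup ↥(Od d) // x ^ (2 ^ a * m) = 1} : ℝ))
    (fun d => Nat.cast_nonneg _) (C2 * C1) e (by positivity) he2 key n X (by linarith) hn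

end Pool.Agent.Work.MP_e0c7e8_nt.AW
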