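import Pool.Agent.Work.MP_e0c7e8_nt.AW.Stmts

/-!
# Item [e0c7e8 AW FT2]: roots that are products of two functions, for the set `HT` (helper51)
-/

set_option autoImplicit false

namespace Pool.Agent.Work.MP_e0c7e8_nt.AW

open Finset Pool.Agent.Work.MP_e0c7e8_nt.SM Pool.Agent.Work.MP_e0c7e8_nt.BG
  Pool.Agent.Work.MP_e0c7e8_nt.AV

theorem FT2_pf (hTY : S_TY2) : S_FT2 := by
  intro m l U w L A B C hm hw hl hL
  classical
  have hw2 : NeZero (w ^ 2) := ⟨by positivity⟩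
  have hl2 : l.Coprime (w ^ 2) := hl.pow_right 2
  have hmem : ∀ P ∈ HT m l U w A B C, (P.1.Coprime w ∧ P.2.1.Coprime w ∧ P.2.2.Coprime w) ∧
      ∃ u : ℤ, |u| ≤ (U : ℤ) ∧
        (w : ℤ) ^ 2 ∣ u ^ 2 - (l : ℤ) * ((P.1 : ℤ) * ((P.2.1 : ℤ) * (P.2.2 : ℤ))) ^ m := by
    intro P hP
    unfold HT at hP
    exact (Finset.mem_filter.1 hP).2
  choose! u hu1 hu2 using fun P hP => (hmem P hP).2
  obtain ⟨a, ha⟩ : ∃ a : ℕ → (ZMod (w ^ 2))ˣ, ∀ n : ℕ, n.Coprime w →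
      ((a n : (ZMod (w ^ 2))ˣ) : ZMod (w ^ 2)) = (n : ZMod (w ^ 2)) ^ m := by
    refine ⟨fun n => if h : n.Coprime (w ^ 2) then ZMod.unitOfCoprime n h ^ m else 1,
      fun n hn => ?_⟩
    have h2 : n.Coprime (w ^ 2) := hn.pow_right 2
    show (((if h : n.Coprime (w ^ 2) then ZMod.unitOfCoprime n h ^ m else 1) :
      (ZMod (w ^ 2))ˣ) : ZMod (w ^ 2)) = (n : ZMod (w ^ 2)) ^ m
    rw [dif_pos h2, Units.val_pow_eq_pow_val, ZMod.coe_unitOfCoprime]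
  have heq : ∀ P ∈ HT m l U w A B C, ((u P : ℤ) : ZMod (w ^ 2)) ^ 2
      = ((ZMod.unitOfCoprime l hl2 * (a P.1 * (a P.2.1 * a P.2.2)) : (ZMod (w ^ 2))ˣ) :
        ZMod (w ^ 2)) := by
    intro P hP
    obtain ⟨⟨k1, k2, k3⟩, -⟩ := hmem P hP
    have h1 := hu2 P hP
    have h2 : (((w ^ 2 : ℕ) : ℤ)) ∣
        u P ^ 2 - (l : ℤ) * ((P.1 : ℤ) * ((P.2.1 : ℤ) * (P.2.2 : ℤ))) ^ m := by
      push_cast
      exact h1
    rw [← ZMod.intCast_zmod_eq_zero_iff_dvd] at h2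
    push_cast at h2
    rw [Units.val_mul, ZMod.coe_unitOfCoprime, Units.val_mul, Units.val_mul, ha _ k1, ha _ k2,
      ha _ k3, sub_eq_zero.1 h2, mul_pow, mul_pow]
  have hunit : ∀ P ∈ HT m l U w A B C, ∃ v : (ZMod (w ^ 2))ˣ,
      (v : ZMod (w ^ 2)) = ((u P : ℤ) : ZMod (w ^ 2)) := by
    intro P hP
    have h1 : IsUnit (((u P : ℤ) : ZMod (w ^ 2)) ^ 2) := by
      rw [heq P hP]
      exact Units.isUnit _
    have h2 : IsUnit (((u P : ℤ) : ZMod (w ^ 2))) := (isUnit_pow_iff two_ne_zero).1 h1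
    exact ⟨h2.unit, h2.unit_spec⟩
  choose! v hv using hunit
  obtain ⟨H', hsub, hcard, c, g, h, h1, h2⟩ := hTY (ZMod (w ^ 2))ˣ ℕ (ℕ × ℕ) L hL
    (HT m l U w A B C) a (fun z => a z.1 * a z.2) (ZMod.unitOfCoprime l hl2) v (fun P hP => by
      apply Units.ext
      rw [Units.val_pow_eq_pow_val, hv P hP]
      exact heq P hP)
  refine ⟨H', hsub, hcard, u, c, g, h, fun P hP => ⟨hu1 P (hsub hP), hu2 P (hsub hP), ?_, ?_⟩⟩
  · rw [← hv P (hsub hP), h1 P hP, Units.val_mul]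
  · have h3 := congrArg (fun x : (ZMod (w ^ 2))ˣ => (x : ZMod (w ^ 2))) (h2 P hP)
    simp only [Units.val_pow_eq_pow_val, Units.val_mul] at h3
    rw [h3, ha P.1 (hmem P (hsub hP)).1.1]

end Pool.Agent.Work.MP_e0c7e8_nt.AW
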