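import Pool.Agent.Work.MP_e0c7e8_nt.AW.Stmts
import Pool.Agent.Work.MP_e0c7e8_nt.AV.I_FXW

/-! Item FX2 of block AW: few points for one modulus. -/

set_option autoImplicit false

namespace Pool.Agent.Work.MP_e0c7e8_nt.AW

open Finset Pool.Agent.Work.MP_e0c7e8_nt.SM Pool.Agent.Work.MP_e0c7e8_nt.BG
  Pool.Agent.Work.MP_e0c7e8_nt.AV

namespace I_FX2

/-- Elements of `EX3`. -/
theorem mem_EX3 {m k Y w : ℕ} {A : Finset ℕ} {p : Fin k → ℕ} (hp : ∀ j, p j ∈ A)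
    (hi : Function.Injective p) (h : ∃ y, Rel m k Y w p y) : p ∈ EX3 m k Y w A := by
  classical
  unfold EX3
  rw [Finset.mem_filter, Fintype.mem_piFinset]
  exact ⟨hp, hi, h⟩

/-- Elements of `NC`. -/
theorem mem_NC {m w : ℕ} {B C : Finset ℕ} {c c' : ℕ × ℕ} (hc : c ∈ B ×ˢ C) (hc' : c' ∈ B ×ˢ C)
    (h1 : c.1 * c.2 ≠ c'.1 * c'.2)
    (h2 : (w : ℤ) ^ 2 ∣ ((c.1 : ℤ) * (c.2 : ℤ)) ^ m - ((c'.1 : ℤ) * (c'.2 : ℤ)) ^ m) :
    (c, c') ∈ NC m w B C := by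
  classical
  unfold NC
  rw [Finset.mem_filter, Finset.mem_product]
  exact ⟨⟨hc, hc'⟩, h1, h2⟩

/-- Elements of `HT`. -/
theorem of_HT {m l U w : ℕ} {A B C : Finset ℕ} {x : ℕ × (ℕ × ℕ)} (h : x ∈ HT m l U w A B C) :
    (x.1 ∈ A ∧ x.2.1 ∈ B ∧ x.2.2 ∈ C) ∧ x.1.Coprime w ∧ x.2.1.Coprime w ∧ x.2.2.Coprime w := by
  classical
  unfold HT at h
  rw [Finset.mem_filter, Finset.mem_product, Finset.mem_product] at h
  exact ⟨⟨h.1.1, h.1.2.1, h.1.2.2⟩, h.2.1⟩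

/-- The number of factorizations of a number. -/
theorem fib_le {T N : ℕ} {S : Finset (ℕ × ℕ)} (hS : ∀ c ∈ S, 1 ≤ c.1 ∧ 1 ≤ c.2 ∧ c.1 * c.2 ≤ N)
    (hdiv : ∀ n : ℕ, n ≠ 0 → n ≤ N → n.divisors.card ≤ T)
    (h : ∀ c ∈ S, ∀ c' ∈ S, c.1 * c.2 = c'.1 * c'.2) : S.card ≤ T := by
  classical
  rcases S.eq_empty_or_nonempty with h0 | ⟨c0, hc0⟩
  · rw [h0]; simp
  · obtain ⟨h1, h2, h3⟩ := hS c0 hc0
    have hn : c0.1 * c0.2 ≠ 0 := by positivity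
    refine le_trans ?_ (hdiv _ hn h3)
    refine Finset.card_le_card_of_injOn (fun c => c.1) ?_ ?_
    · intro c hc
      have hc : c ∈ S := hc
      simp only [Finset.mem_coe, Nat.mem_divisors]
      exact ⟨⟨c.2, h c0 hc0 c hc⟩, hn⟩
    · intro c hc c' hc' hcc
      have hc : c ∈ S := hc
      have hc' : c' ∈ S := hc'
      have hcc : c.1 = c'.1 := hcc
      have h4 := h c hc c' hc'
      rw [hcc] at h4
      have h5 : 0 < c'.1 := (hS c' hc').1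
      exact Prod.ext hcc (Nat.eq_of_mul_eq_mul_left h5 h4)

/-- Parallel vectors with integral coordinates. -/
theorem par {k : ℕ} (X X' : Fin k → ℤ) (j0 : Fin k) (h0 : X j0 ≠ 0) (h0' : X' j0 ≠ 0)
    (h : ∀ j, X j0 * X' j = X' j0 * X j) :
    ∃ (a a' : ℤ) (s : Fin k → ℤ), a ≠ 0 ∧ a' ≠ 0 ∧ (∀ j, X j = a * s j) ∧ ∀ j, X' j = a' * s j := by
  obtain ⟨d, a, a', hd, hcop, ha, ha'⟩ : ∃ d a a' : ℤ, d ≠ 0 ∧ IsCoprime a a' ∧ X j0 = a * d ∧
      X' j0 = a' * d := by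
    have hg : (Int.gcd (X j0) (X' j0) : ℤ) ≠ 0 := by
      intro h1
      have h2 : Int.gcd (X j0) (X' j0) = 0 := by exact_mod_cast h1
      exact h0 (Int.gcd_eq_zero_iff.mp h2).1
    have hpos : 0 < Int.gcd (X j0) (X' j0) := by
      have : Int.gcd (X j0) (X' j0) ≠ 0 := by exact_mod_cast hg
      omega
    refine ⟨(Int.gcd (X j0) (X' j0) : ℤ), X j0 / (Int.gcd (X j0) (X' j0) : ℤ),
      X' j0 / (Int.gcd (X j0) (X' j0) : ℤ), hg, ?_, ?_, ?_⟩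
    · rw [Int.isCoprime_iff_gcd_eq_one]
      exact Int.gcd_div_gcd_div_gcd hpos
    · exact (Int.ediv_mul_cancel (Int.gcd_dvd_left ..)).symm
    · exact (Int.ediv_mul_cancel (Int.gcd_dvd_right ..)).symm
  have ha0 : a ≠ 0 := fun h1 => h0 (by rw [ha, h1, zero_mul])
  have ha0' : a' ≠ 0 := fun h1 => h0' (by rw [ha', h1, zero_mul])
  have h1 : ∀ j, a * X' j = a' * X j := by
    intro j
    have h2 := h j
    rw [ha, ha'] at h2
    have h3 : d * (a * X' j) = d * (a' * X j) := by linarith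
    exact mul_left_cancel₀ hd h3
  have h2 : ∀ j, a ∣ X j := fun j => hcop.dvd_of_dvd_mul_left ⟨X' j, (h1 j).symm⟩
  choose s hs using h2
  refine ⟨a, a', s, ha0, ha0', hs, fun j => ?_⟩
  have h3 := h1 j
  rw [hs j] at h3
  have h4 : a * X' j = a * (a' * s j) := by linarith
  exact mul_left_cancel₀ ha0 h4

/-- The arithmetic inequality. -/
theorem sq_le {m l w N2 q q' n b : ℕ} {a a' x x' : ℤ} (hm : Odd m)
    (hl : l.Coprime w) (hn : n.Coprime w) (hq : Squarefree q) (hq' : Squarefree q')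
    (hqN : q ≤ N2) (hqN' : q' ≤ N2) (hne : q ≠ q') (ha : a ≠ 0) (ha' : a' ≠ 0)
    (hab : |a| ≤ (b : ℤ)) (hab' : |a'| ≤ (b : ℤ))
    (hx : (w : ℤ) ^ 2 ∣ x ^ 2 - (l : ℤ) * ((n : ℤ) * q) ^ m)
    (hx' : (w : ℤ) ^ 2 ∣ x' ^ 2 - (l : ℤ) * ((n : ℤ) * q') ^ m)
    (hrel : x' * a = x * a') : w ^ 2 ≤ N2 ^ m * b ^ 2 := by
  have h1 : (w : ℤ) ^ 2 ∣ ((l : ℤ) * (n : ℤ) ^ m) * ((q' : ℤ) ^ m * a ^ 2 - (q : ℤ) ^ m * a' ^ 2) := by
    have h2 : ((l : ℤ) * (n : ℤ) ^ m) * ((q' : ℤ) ^ m * a ^ 2 - (q : ℤ) ^ m * a' ^ 2) =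
        (x ^ 2 - (l : ℤ) * ((n : ℤ) * q) ^ m) * a' ^ 2 -
          (x' ^ 2 - (l : ℤ) * ((n : ℤ) * q') ^ m) * a ^ 2 +
            ((x' * a) ^ 2 - (x * a') ^ 2) := by
      rw [mul_pow, mul_pow]; ring
    rw [h2, hrel, sub_self, add_zero]
    exact dvd_sub (Dvd.dvd.mul_right hx _) (Dvd.dvd.mul_right hx' _)
  have hcop : IsCoprime ((w : ℤ) ^ 2) ((l : ℤ) * (n : ℤ) ^ m) := by
    have hl' : IsCoprime (w : ℤ) (l : ℤ) := (Nat.isCoprime_iff_coprime.mpr hl).symm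
    have hn' : IsCoprime (w : ℤ) (n : ℤ) := (Nat.isCoprime_iff_coprime.mpr hn).symm
    exact (hl'.mul_right hn'.pow_right).pow_left
  have h3 : (w : ℤ) ^ 2 ∣ ((q' : ℤ) ^ m * a ^ 2 - (q : ℤ) ^ m * a' ^ 2) :=
    hcop.dvd_of_dvd_mul_left h1
  have key : ∀ (y : ℕ) (c : ℤ), y ≤ N2 → |c| ≤ (b : ℤ) →
      (y : ℤ) ^ m * c ^ 2 ≤ (N2 : ℤ) ^ m * (b : ℤ) ^ 2 := by
    intro y c hy hc
    have h4 : (y : ℤ) ^ m ≤ (N2 : ℤ) ^ m := pow_le_pow_left₀ (by positivity) (by exact_mod_cast hy) _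
    have h5 : c ^ 2 ≤ (b : ℤ) ^ 2 := by rw [← sq_abs c]; exact pow_le_pow_left₀ (abs_nonneg _) hc 2
    exact mul_le_mul h4 h5 (by positivity) (by positivity)
  have h4 := key q' a hqN' hab
  have h5 := key q a' hqN hab'
  have h6 : 0 ≤ (q' : ℤ) ^ m * a ^ 2 := by positivity
  have h7 : 0 ≤ (q : ℤ) ^ m * a' ^ 2 := by positivity
  have h8 : |(q' : ℤ) ^ m * a ^ 2 - (q : ℤ) ^ m * a' ^ 2| ≤ (N2 : ℤ) ^ m * (b : ℤ) ^ 2 := by
    rw [abs_le]; constructor <;> linarith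
  by_contra hlt
  rw [not_le] at hlt
  have h9 : (N2 : ℤ) ^ m * (b : ℤ) ^ 2 < (w : ℤ) ^ 2 := by exact_mod_cast hlt
  exact AV.I_FXW.diff_ne hm hq hq' hne ha ha' (Int.eq_zero_of_abs_lt_dvd h3 (lt_of_le_of_lt h8 h9))

end I_FX2

open I_FX2 in
theorem FX2_pf (hPIG : S_PIG) (hFT2 : S_FT2) (hSEL : S_SEL) (hR1 : S_R1) : S_FX2 := by
  classical
  intro m k l U w Y N1 N2 N3 L2 T A B C θ e κ ho hk hw hl hY hN1 hN2 hN3 hL2 hT hA hB hC hcard
    hdiv hθ he hκ hHT hEX hNC h4k hbox hYU hineq hN3κ hfinal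
  have hm1 : 1 ≤ m := ho.pos
  obtain ⟨H, hH, hHcard, u, c0, g, h, hTy⟩ := hFT2 m l U w L2 A B C hm1 hw hl hcard
  have hL2r : (0 : ℝ) < (L2 : ℝ) ^ 2 := by
    have : (0 : ℝ) < (L2 : ℝ) := by exact_mod_cast hL2
    positivity
  have hN1r : (0 : ℝ) < (N1 : ℝ) := by exact_mod_cast hN1
  have hN2r : (0 : ℝ) < (N2 : ℝ) := by exact_mod_cast hN2
  have hN3r : (0 : ℝ) < (N3 : ℝ) := by exact_mod_cast hN3
  have hM : (0 : ℝ) < (N2 : ℝ) * (N3 : ℝ) := mul_pos hN2r hN3r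
  have hAc : A.card ≤ N1 := by
    have h1 : A ⊆ Finset.Icc 1 N1 := fun n hn => by
      rw [Finset.mem_Icc]; exact ⟨(hA n hn).1, (hA n hn).2.1⟩
    have h2 := Finset.card_le_card h1
    rw [Nat.card_Icc] at h2
    omega
  have hBc : B.card ≤ N2 := by
    have h1 : B ⊆ Finset.Icc 1 N2 := fun n hn => by
      rw [Finset.mem_Icc]; exact ⟨(hB n hn).1, (hB n hn).2.1⟩
    have h2 := Finset.card_le_card h1
    rw [Nat.card_Icc] at h2
    omega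
  have hCc : C.card ≤ N3 := by
    have h1 : C ⊆ Finset.Icc 1 N3 := fun n hn => by
      rw [Finset.mem_Icc]; exact ⟨(hC n hn).1, (hC n hn).2⟩
    have h2 := Finset.card_le_card h1
    rw [Nat.card_Icc] at h2
    omega
  have hBC : ((B ×ˢ C).card : ℝ) ≤ (N2 : ℝ) * (N3 : ℝ) := by
    rw [Finset.card_product]
    exact_mod_cast Nat.mul_le_mul hBc hCc
  have hHs : H ⊆ A ×ˢ (B ×ˢ C) := by
    intro x hx
    obtain ⟨⟨h1, h2, h3⟩, -⟩ := of_HT (hH hx)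
    rw [Finset.mem_product, Finset.mem_product]
    exact ⟨h1, h2, h3⟩
  have hθ' : θ / (L2 : ℝ) ^ 2 * ((N1 : ℝ) * ((N2 : ℝ) * (N3 : ℝ))) ≤ (H.card : ℝ) := by
    rw [div_mul_eq_mul_div, div_le_iff₀ hL2r]
    refine hHT.trans ?_
    rw [mul_comm (H.card : ℝ)]
    exact_mod_cast hHcard
  obtain ⟨p, hinj, hpA, hpE, hCC⟩ := hSEL k ℕ (ℕ × ℕ) A (B ×ˢ C) H (EX3 m k Y w A) (N1 : ℝ)
    ((N2 : ℝ) * (N3 : ℝ)) (θ / (L2 : ℝ) ^ 2) e κ hk hN1r hM (div_pos hθ hL2r) he hκ.le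
    (by exact_mod_cast hAc) hBC hHs hθ' hEX
    (by rw [div_mul_eq_mul_div, le_div_iff₀ hL2r]; exact h4k)
    (by
      have h1 : θ / (L2 : ℝ) ^ 2 / 4 = θ / (4 * (L2 : ℝ) ^ 2) := by
        rw [div_div, mul_comm]
      rw [h1]; exact hbox)
  set CC := (B ×ˢ C).filter fun b => ∀ j, (p j, b) ∈ H with hCCdef
  have hCCmem : ∀ c ∈ CC, c ∈ B ×ˢ C ∧ ∀ j, (p j, c) ∈ H := by
    intro c hc
    rw [hCCdef, Finset.mem_filter] at hc
    exact hc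
  have hnR : ∀ y, ¬ Rel m k Y w p y := fun y hy => hpE (mem_EX3 hpA hinj ⟨y, hy⟩)
  let j0 : Fin k := ⟨0, hk⟩
  have hCCpos : 0 < (CC.card : ℝ) := lt_of_lt_of_le (mul_pos hκ hM) hCC
  obtain ⟨c1, hc1⟩ : CC.Nonempty := by
    rw [← Finset.card_pos]; exact_mod_cast hCCpos
  have hg : ∀ y : Fin k → ℤ, y ≠ 0 → (∀ j, |y j| ≤ (Y : ℤ)) →
      ∑ j, (y j : ZMod (w ^ 2)) * ((g (p j) : (ZMod (w ^ 2))ˣ) : ZMod (w ^ 2)) ≠ 0 := by
    intro y hy hyY h0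
    refine hnR y ⟨hy, hyY, c0, fun j => (g (p j) : ZMod (w ^ 2)), fun j => ?_, h0⟩
    exact (hTy _ ((hCCmem c1 hc1).2 j)).2.2.2
  have : Fact (1 < w ^ 2) := ⟨by nlinarith⟩
  have hu0 : ∀ x ∈ H, u x ≠ 0 := by
    intro x hx h0
    have h1 := (hTy x hx).2.2.1
    rw [h0, Int.cast_zero] at h1
    have h2 : (g x.1 : ZMod (w ^ 2)) * (h x.2 : ZMod (w ^ 2)) =
        ((g x.1 * h x.2 : (ZMod (w ^ 2))ˣ) : ZMod (w ^ 2)) := by
      push_cast; rfl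
    rw [h2] at h1
    exact Units.ne_zero _ h1.symm
  -- coprimality
  have hpw : ∀ j, (p j).Coprime w := fun j => (of_HT (hH ((hCCmem c1 hc1).2 j))).2.1
  -- the number of vectors
  let f : ℕ × ℕ → (Fin k → ℤ) := fun c j => u (p j, c)
  set V := (CC.image f).card with hV
  set bad := CC.filter fun c => ∃ c', (c, c') ∈ NC m w B C with hbad
  have hbadc : bad.card ≤ (NC m w B C).card := by
    have h1 : bad ⊆ (NC m w B C).image Prod.fst := by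
      intro c hc
      rw [hbad, Finset.mem_filter] at hc
      obtain ⟨c', hc'⟩ := hc.2
      rw [Finset.mem_image]
      exact ⟨_, hc', rfl⟩
    exact (Finset.card_le_card h1).trans Finset.card_image_le
  have hgood : κ / 2 * ((N2 : ℝ) * (N3 : ℝ)) ≤ ((CC \ bad).card : ℝ) := by
    have h1 : bad ⊆ CC := Finset.filter_subset _ _
    have h2 := Finset.card_sdiff_add_card_eq_card h1
    have h3 : ((CC \ bad).card : ℝ) + (bad.card : ℝ) = (CC.card : ℝ) := by exact_mod_cast h2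
    have h4 : (bad.card : ℝ) ≤ κ / 2 * ((N2 : ℝ) * (N3 : ℝ)) :=
      le_trans (by exact_mod_cast hbadc) hNC
    nlinarith
  have hprodeq : ∀ c ∈ CC \ bad, ∀ c' ∈ CC \ bad, f c = f c' → c.1 * c.2 = c'.1 * c'.2 := by
    intro c hc c' hc' hff
    rw [Finset.mem_sdiff] at hc hc'
    by_contra hne
    apply hc.2
    rw [hbad, Finset.mem_filter]
    refine ⟨hc.1, c', mem_NC (hCCmem c hc.1).1 (hCCmem c' hc'.1).1 hne ?_⟩
    have r1 := (hTy _ ((hCCmem c hc.1).2 j0)).2.1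
    have r2 := (hTy _ ((hCCmem c' hc'.1).2 j0)).2.1
    have r0 : u (p j0, c) = u (p j0, c') := congrFun hff j0
    rw [r0] at r1
    have r3 := dvd_sub r2 r1
    have r4 : (w : ℤ) ^ 2 ∣ ((l : ℤ) * (p j0 : ℤ) ^ m) *
        (((c.1 : ℤ) * (c.2 : ℤ)) ^ m - ((c'.1 : ℤ) * (c'.2 : ℤ)) ^ m) := by
      have e1 : ((l : ℤ) * (p j0 : ℤ) ^ m) *
          (((c.1 : ℤ) * (c.2 : ℤ)) ^ m - ((c'.1 : ℤ) * (c'.2 : ℤ)) ^ m) =
          (u (p j0, c') ^ 2 - (l : ℤ) * ((p j0 : ℤ) * ((c'.1 : ℤ) * (c'.2 : ℤ))) ^ m) -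
          (u (p j0, c') ^ 2 - (l : ℤ) * ((p j0 : ℤ) * ((c.1 : ℤ) * (c.2 : ℤ))) ^ m) := by
        rw [mul_pow (p j0 : ℤ), mul_pow (p j0 : ℤ)]; ring
      rw [e1]; exact r3
    have hcop : IsCoprime ((w : ℤ) ^ 2) ((l : ℤ) * (p j0 : ℤ) ^ m) := by
      have h1 : IsCoprime (w : ℤ) (l : ℤ) := (Nat.isCoprime_iff_coprime.mpr hl).symm
      have h2 : IsCoprime (w : ℤ) (p j0 : ℤ) := (Nat.isCoprime_iff_coprime.mpr (hpw j0)).symm
      exact IsCoprime.pow_left (h1.mul_right (h2.pow_right))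
    exact hcop.dvd_of_dvd_mul_left r4
  have hVT : (CC \ bad).card ≤ T * V := by
    have h1 : (CC \ bad).card ≤ T * ((CC \ bad).image f).card := by
      refine Finset.card_le_mul_card_image _ _ fun v _ => ?_
      refine fib_le (N := N2 * N3) (fun c hc => ?_) hdiv (fun c hc c' hc' => ?_)
      · have h2 := (Finset.mem_filter.mp hc).1
        have h3 := (hCCmem c (Finset.mem_sdiff.mp h2).1).1
        rw [Finset.mem_product] at h3
        exact ⟨(hB _ h3.1).1, (hC _ h3.2).1, Nat.mul_le_mul (hB _ h3.1).2.1 (hC _ h3.2).2⟩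
      · rw [Finset.mem_filter] at hc hc'
        exact hprodeq c hc.1 c' hc'.1 (hc.2.trans hc'.2.symm)
    refine h1.trans (Nat.mul_le_mul_left _ ?_)
    exact Finset.card_le_card (Finset.image_subset_image Finset.sdiff_subset)
  have hT0 : (0 : ℝ) < T := by exact_mod_cast hT
  have hκV : κ * ((N2 : ℝ) * (N3 : ℝ)) ≤ 2 * T * V := by
    have h1 : ((CC \ bad).card : ℝ) ≤ T * V := by exact_mod_cast hVT
    linarith
  have hw0 : (0 : ℝ) < (w : ℝ) := by exact_mod_cast (by omega : 0 < w)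
  have hfin : 9 ^ k * k.factorial * (k * Y * U) ^ 2 < (Y + 1) ^ k * V * w ^ 2 := by
    have h4 : ((9 : ℝ) ^ k * (k.factorial : ℝ) * ((k : ℝ) * Y * U) ^ 2) * (2 * T) <
        (((Y : ℝ) + 1) ^ k * V * (w : ℝ) ^ 2) * (2 * T) := by
      calc ((9 : ℝ) ^ k * (k.factorial : ℝ) * ((k : ℝ) * Y * U) ^ 2) * (2 * T)
          < ((Y : ℝ) + 1) ^ k * (κ * ((N2 : ℝ) * (N3 : ℝ))) * (w : ℝ) ^ 2 := hineq
        _ ≤ ((Y : ℝ) + 1) ^ k * (2 * T * V) * (w : ℝ) ^ 2 := by gcongr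
        _ = _ := by ring
    have h5 := lt_of_mul_lt_mul_right h4 (by positivity)
    exact_mod_cast h5
  have hpar := hR1 k w U Y V (ℕ × ℕ) CC (fun j c => u (p j, c))
    (fun j => (g (p j) : ZMod (w ^ 2))) h hY (by omega)
    (fun j c hc => (hTy _ ((hCCmem c hc).2 j)).1)
    (fun j c hc => (hTy _ ((hCCmem c hc).2 j)).2.2.1) hg hYU le_rfl hfin
  -- two columns with the same z
  obtain ⟨c, hc, c', hc', hne, hz⟩ : ∃ c ∈ CC, ∃ c' ∈ CC, c ≠ c' ∧ c.2 = c'.2 := by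
    refine Finset.exists_ne_map_eq_of_card_lt_of_maps_to (t := C) (f := Prod.snd) ?_ ?_
    · have h1 : (C.card : ℝ) < (CC.card : ℝ) := by
        have h2 : (C.card : ℝ) ≤ N3 := by exact_mod_cast hCc
        linarith
      exact_mod_cast h1
    · intro c hc
      exact (Finset.mem_product.mp (hCCmem c hc).1).2
  have hxne : c.1 ≠ c'.1 := fun h1 => hne (Prod.ext h1 hz)
  obtain ⟨a, a', s, ha, ha', hs, hs'⟩ := par (fun j => u (p j, c)) (fun j => u (p j, c')) j0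
    (hu0 _ ((hCCmem c hc).2 j0)) (hu0 _ ((hCCmem c' hc').2 j0))
    (fun j => by
      have h1 := hpar c hc c' hc' j0 j
      simpa using h1)
  set b : ℕ := max a.natAbs a'.natAbs with hb
  have hb0 : 0 < b := lt_of_lt_of_le (Int.natAbs_pos.mpr ha) (le_max_left _ _)
  have hab : |a| ≤ (b : ℤ) := by
    rw [Int.abs_eq_natAbs]; exact_mod_cast le_max_left _ _
  have hab' : |a'| ≤ (b : ℤ) := by
    rw [Int.abs_eq_natAbs]; exact_mod_cast le_max_right _ _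
  have hbs : ∀ j, b * (s j).natAbs ≤ U := by
    intro j
    have h1 : |a * s j| ≤ (U : ℤ) := by
      have := (hTy _ ((hCCmem c hc).2 j)).1
      rwa [show u (p j, c) = a * s j from hs j] at this
    have h2 : |a' * s j| ≤ (U : ℤ) := by
      have := (hTy _ ((hCCmem c' hc').2 j)).1
      rwa [show u (p j, c') = a' * s j from hs' j] at this
    rw [Int.abs_eq_natAbs, Int.natAbs_mul] at h1 h2
    have h3 : a.natAbs * (s j).natAbs ≤ U := by exact_mod_cast h1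
    have h4 : a'.natAbs * (s j).natAbs ≤ U := by exact_mod_cast h2
    rcases max_choice a.natAbs a'.natAbs with h5 | h5
    · rw [hb, h5]; exact h3
    · rw [hb, h5]; exact h4
  have hpig := hPIG k Y (U / b) s
    (fun j => by
      rw [Int.abs_eq_natAbs]
      have : (s j).natAbs ≤ U / b := by
        rw [Nat.le_div_iff_mul_le hb0, mul_comm]; exact hbs j
      exact_mod_cast this)
    (by
      intro y hy hyY h0
      apply hg y hy hyY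
      have h1 : ∑ j, y j * u (p j, c) = 0 := by
        calc ∑ j, y j * u (p j, c) = a * ∑ j, y j * s j := by
              rw [Finset.mul_sum]
              refine Finset.sum_congr rfl fun j _ => ?_
              rw [show u (p j, c) = a * s j from hs j]; ring
          _ = 0 := by rw [h0, mul_zero]
      have h2 : (∑ j, (y j : ZMod (w ^ 2)) * (g (p j) : ZMod (w ^ 2))) * (h c : ZMod (w ^ 2)) = 0 := by
        have h3 : ((∑ j, y j * u (p j, c) : ℤ) : ZMod (w ^ 2)) = 0 := by rw [h1, Int.cast_zero]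
        rw [Int.cast_sum] at h3
        rw [Finset.sum_mul, ← h3]
        refine Finset.sum_congr rfl fun j _ => ?_
        rw [Int.cast_mul, (hTy _ ((hCCmem c hc).2 j)).2.2.1]
        ring
      exact (Units.mul_left_eq_zero (h c)).mp h2)
  have hbE : b * ((Y + 1) ^ k - 1) ≤ 2 * (k * Y * U) := by
    have h1 : (Y + 1) ^ k - 1 ≤ 2 * (k * Y * (U / b)) := by omega
    calc b * ((Y + 1) ^ k - 1) ≤ b * (2 * (k * Y * (U / b))) := Nat.mul_le_mul_left _ h1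
      _ = 2 * (k * Y * (b * (U / b))) := by ring
      _ ≤ 2 * (k * Y * U) := by
          have h2 : b * (U / b) ≤ U := Nat.mul_div_le _ _
          gcongr
  have hcB := Finset.mem_product.mp (hCCmem c hc).1
  have hcB' := Finset.mem_product.mp (hCCmem c' hc').1
  have hncop : (p j0 * c.2).Coprime w :=
    Nat.Coprime.mul_left (hpw j0) (of_HT (hH ((hCCmem c hc).2 j0))).2.2.2
  have hsq : w ^ 2 ≤ N2 ^ m * b ^ 2 := by
    refine sq_le (q := c.1) (q' := c'.1) (n := p j0 * c.2) (x := u (p j0, c)) (x' := u (p j0, c'))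
      ho hl hncop (hB _ hcB.1).2.2 (hB _ hcB'.1).2.2 (hB _ hcB.1).2.1 (hB _ hcB'.1).2.1 hxne ha ha'
      hab hab' ?_ ?_ ?_
    · have h1 := (hTy _ ((hCCmem c hc).2 j0)).2.1
      have e1 : (((p j0 * c.2 : ℕ) : ℤ) * (c.1 : ℤ)) = (p j0 : ℤ) * ((c.1 : ℤ) * (c.2 : ℤ)) := by
        push_cast; ring
      rw [e1]; exact h1
    · have h1 := (hTy _ ((hCCmem c' hc').2 j0)).2.1
      have e1 : (((p j0 * c.2 : ℕ) : ℤ) * (c'.1 : ℤ)) = (p j0 : ℤ) * ((c'.1 : ℤ) * (c'.2 : ℤ)) := by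
        rw [← hz]; push_cast; ring
      rw [e1]; exact h1
    · rw [show u (p j0, c) = a * s j0 from hs j0, show u (p j0, c') = a' * s j0 from hs' j0]
      ring
  -- conclusion
  have hY1 : 1 ≤ (Y + 1) ^ k := Nat.one_le_pow _ _ (by omega)
  have hbEr : (b : ℝ) * (((Y : ℝ) + 1) ^ k - 1) ≤ 2 * ((k : ℝ) * Y * U) := by
    have h1 : ((b * ((Y + 1) ^ k - 1) : ℕ) : ℝ) ≤ ((2 * (k * Y * U) : ℕ) : ℝ) := by
      exact_mod_cast hbE
    rw [Nat.cast_mul, Nat.cast_sub hY1] at h1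
    push_cast at h1
    linarith
  have hE0 : (0 : ℝ) ≤ ((Y : ℝ) + 1) ^ k - 1 := by
    have : (1 : ℝ) ≤ ((Y : ℝ) + 1) ^ k := by exact_mod_cast hY1
    linarith
  have hsqr : (w : ℝ) ^ 2 ≤ (N2 : ℝ) ^ m * (b : ℝ) ^ 2 := by exact_mod_cast hsq
  have hcontr : (((Y : ℝ) + 1) ^ k - 1) ^ 2 * (w : ℝ) ^ 2 ≤
      (N2 : ℝ) ^ m * (2 * ((k : ℝ) * Y * U)) ^ 2 := by
    calc (((Y : ℝ) + 1) ^ k - 1) ^ 2 * (w : ℝ) ^ 2
        ≤ (((Y : ℝ) + 1) ^ k - 1) ^ 2 * ((N2 : ℝ) ^ m * (b : ℝ) ^ 2) := by gcongr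
      _ = (N2 : ℝ) ^ m * ((b : ℝ) * (((Y : ℝ) + 1) ^ k - 1)) ^ 2 := by ring
      _ ≤ (N2 : ℝ) ^ m * (2 * ((k : ℝ) * Y * U)) ^ 2 := by
          have : 0 ≤ (b : ℝ) * (((Y : ℝ) + 1) ^ k - 1) := by positivity
          gcongr
  exact absurd hfinal (not_lt.mpr hcontr)

end Pool.Agent.Work.MP_e0c7e8_nt.AW
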