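import Pool.Agent.Work.MP_e0c7e8_nt.AW.Stmts
import Pool.Agent.Work.MP_e0c7e8_nt.AV.I_GSM

set_option autoImplicit false

namespace Pool.Agent.Work.MP_e0c7e8_nt.AW

open Finset Pool.Agent.Work.MP_e0c7e8_nt.SM Pool.Agent.Work.MP_e0c7e8_nt.BG
  Pool.Agent.Work.MP_e0c7e8_nt.AV

namespace I_GS2

/-- The final computation with the real number `x = X^(1/K)`. -/
theorem fin (x KR JR c A Hc G S C1 C5 F : ℝ) (J : ℕ) (hx : 1 ≤ x) (hJR : JR = (J : ℝ))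
    (hc : c * (2 * JR) = 1 / 200) (hC1 : 0 < C1) (hC5 : 0 < C5) (hF : 0 < F)
    (hHc : Hc = C1 * x ^ (KR / 2 + 1 / 200)) (hG : G = (x ^ (1 - c) / 2) ^ J / F)
    (hA : A ≤ C5 * (x ^ ((1 : ℝ) / 200) * x ^ (JR + KR))) (h : S * G ^ 2 ≤ Hc * A) :
    S ≤ C1 * C5 * (4 ^ J * F ^ 2) * x ^ (3 * KR / 2 - JR + 1 / 50) := by
  have hx0 : 0 < x := by linarith
  have hG2 : G ^ 2 = x ^ (2 * JR - 1 / 200) / (4 ^ J * F ^ 2) := by
    rw [hG, div_pow, div_pow, div_pow, ← pow_mul, ← pow_mul, mul_comm J 2, pow_mul (2 : ℝ) 2 J,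
      ← Real.rpow_natCast, ← Real.rpow_mul hx0.le, div_div]
    have e1 : (1 - c) * ((2 * J : ℕ) : ℝ) = 2 * JR - 1 / 200 := by
      push_cast
      rw [← hJR]
      linarith
    rw [e1]
    norm_num
  have hGp : 0 < G ^ 2 := by
    rw [hG2]
    positivity
  have h1 : S * G ^ 2 ≤ C1 * x ^ (KR / 2 + 1 / 200) * (C5 * (x ^ ((1 : ℝ) / 200) * x ^ (JR + KR))) := by
    refine le_trans h ?_
    rw [hHc]
    exact mul_le_mul_of_nonneg_left hA (by positivity)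
  have h2 : C1 * x ^ (KR / 2 + 1 / 200) * (C5 * (x ^ ((1 : ℝ) / 200) * x ^ (JR + KR))) =
      (C1 * C5 * (4 ^ J * F ^ 2) * x ^ (3 * KR / 2 - JR + 3 / 200)) * G ^ 2 := by
    rw [hG2]
    have e2 : x ^ (KR / 2 + 1 / 200) * (x ^ ((1 : ℝ) / 200) * x ^ (JR + KR)) =
        x ^ (3 * KR / 2 - JR + 3 / 200) * x ^ (2 * JR - 1 / 200) := by
      rw [← Real.rpow_add hx0, ← Real.rpow_add hx0, ← Real.rpow_add hx0]
      congr 1
      ring
    calc C1 * x ^ (KR / 2 + 1 / 200) * (C5 * (x ^ ((1 : ℝ) / 200) * x ^ (JR + KR)))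
        = C1 * C5 * (x ^ (KR / 2 + 1 / 200) * (x ^ ((1 : ℝ) / 200) * x ^ (JR + KR))) := by ring
      _ = C1 * C5 * (x ^ (3 * KR / 2 - JR + 3 / 200) * x ^ (2 * JR - 1 / 200)) := by rw [e2]
      _ = C1 * C5 * (4 ^ J * F ^ 2) * x ^ (3 * KR / 2 - JR + 3 / 200) *
          (x ^ (2 * JR - 1 / 200) / (4 ^ J * F ^ 2)) := by
        field_simp
  rw [h2] at h1
  have h3 := le_of_mul_le_mul_right h1 hGp
  refine le_trans h3 ?_
  apply mul_le_mul_of_nonneg_left _ (by positivity)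
  exact Real.rpow_le_rpow_of_exponent_le hx (by linarith)

end I_GS2

theorem GS2_pf (hGDS : S_GDS) (hQI : S_QI2) (hQJ : S_QJ2) (hPAR : S_PR2) (h1a : ClaimC1a)
    (h1c : ClaimC1c) : S_GS2 := by
  intro m hm ho
  obtain ⟨P1, C2, hC2, hQI⟩ := hQI m hm
  obtain ⟨P2, C3, hC3, hQJ⟩ := hQJ m hm ho
  obtain ⟨⟨-, hKe, -⟩, -, hmJ, hmJ', hJK, -, -, hK1⟩ := hPAR m hm
  obtain ⟨K, hK⟩ : ∃ K, K2 m = K := ⟨_, rfl⟩
  obtain ⟨J, hJ⟩ : ∃ J, J2 m = J := ⟨_, rfl⟩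
  have hJ1 : 1 ≤ J := by
    rw [← hJ]
    unfold J2
    omega
  rw [hK] at hQI hQJ hKe hmJ hmJ' hJK hK1
  rw [hJ] at hQI hQJ hmJ hmJ' hJK
  have hKR : (0 : ℝ) < (K : ℝ) := by exact_mod_cast hK1
  obtain ⟨C1, hC1, h1c⟩ := h1c (1 / (200 * K)) (by positivity)
  -- thresholds
  obtain ⟨N0, hN0⟩ : ∃ N0 : ℕ, N0 = P1 + P2 + (2 * J) ^ 2 + 2 := ⟨_, rfl⟩
  obtain ⟨c, hc⟩ : ∃ c : ℝ, c = 1 / (400 * J) := ⟨_, rfl⟩
  have hjR : (1 : ℝ) ≤ (J : ℝ) := by exact_mod_cast hJ1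
  have hc0 : 0 < c := by
    rw [hc]
    positivity
  have hc1 : c ≤ 1 / 2 := by
    rw [hc]
    rw [div_le_div_iff₀ (by positivity) (by norm_num)]
    linarith
  have hcJ : c * (2 * (J : ℝ)) = 1 / 200 := by
    rw [hc]
    field_simp
    norm_num
  refine ⟨(N0 : ℝ) ^ K, C1 * (1 + 2 * J * (C2 + C3)) * (4 ^ J * (J.factorial : ℝ) ^ 2), ?_, ?_, ?_⟩
  · have : (1 : ℝ) ≤ (N0 : ℝ) := by
      have : 1 ≤ N0 := by omega
      exact_mod_cast this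
    exact one_le_pow₀ this
  · positivity
  intro X Ds hX hDs
  rw [hK, hJ] at hDs ⊢
  have hN0R : (2 : ℝ) ≤ (N0 : ℝ) := by
    have : 2 ≤ N0 := by omega
    exact_mod_cast this
  have hXpos : 0 < X := lt_of_lt_of_le (by positivity) hX
  obtain ⟨x, hxdef⟩ : ∃ x : ℝ, x = X ^ ((1 : ℝ) / (K : ℕ)) := ⟨_, rfl⟩
  have hxK : x ^ K = X := by
    rw [hxdef, one_div]
    exact Real.rpow_inv_natCast_pow hXpos.le (by omega)
  have hxN : (N0 : ℝ) ≤ x := by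
    rw [hxdef]
    have h1 : ((N0 : ℝ) ^ K) ^ ((1 : ℝ) / (K : ℕ)) = N0 := by
      rw [one_div]
      exact Real.pow_rpow_inv_natCast (by positivity) (by omega)
    rw [← h1]
    exact Real.rpow_le_rpow (by positivity) hX (by positivity)
  have hx1 : 1 ≤ x := by linarith
  have hx0 : 0 < x := by linarith
  rw [← hxdef] at hDs
  obtain ⟨P, hPdef⟩ : ∃ P : ℕ, P = ⌊x⌋₊ := ⟨_, rfl⟩
  rw [← hPdef] at hDs
  have hPx : (P : ℝ) ≤ x := by
    rw [hPdef]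
    exact Nat.floor_le hx0.le
  have hxP : x < (P : ℝ) + 1 := by
    rw [hPdef]
    exact Nat.lt_floor_add_one x
  have hPN : N0 ≤ P := by
    rw [hPdef]
    exact Nat.le_floor hxN
  have hP1 : 1 ≤ P := by omega
  have hP1R : (1 : ℝ) ≤ (P : ℝ) := by exact_mod_cast hP1
  have hx2P : x ≤ 2 * (P : ℝ) := by linarith
  have hXlo : (P : ℝ) ^ K ≤ X := by
    rw [← hxK]
    exact pow_le_pow_left₀ (by positivity) hPx K
  have hXhi : X ≤ (2 * P : ℝ) ^ K := by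
    rw [← hxK]
    exact pow_le_pow_left₀ hx0.le hx2P K
  have hXrpow : ∀ a : ℝ, X ^ a = x ^ ((K : ℝ) * a) := by
    intro a
    rw [← hxK, ← Real.rpow_natCast, ← Real.rpow_mul hx0.le]
  -- the terms
  have hr0 : (0 : ℝ) ≤ (P : ℝ) ^ ((1 : ℝ) / 200) := by positivity
  have hterm : ∀ i ∈ Icc 1 J, (P : ℝ) ^ (J - i) * ((QS m X P i).ncard : ℝ) ≤
      2 * (C2 + C3) * (P : ℝ) ^ ((1 : ℝ) / 200) * (P : ℝ) ^ (J + K) := by
    intro i hi
    rw [mem_Icc] at hi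
    rcases Nat.lt_or_ge i J with hlt | hge
    · have h1 := hQI P X (by omega) hXlo hXhi i hi.1 hlt
      have h2 := AV.I_GSM.term1 P (QS m X P i).ncard J K i m C2 _ hP1 hC2 hr0 hKe hJK hmJ' hlt h1
      refine le_trans h2 ?_
      have : 2 * C2 ≤ 2 * (C2 + C3) := by linarith
      gcongr
    · have hiJ : i = J := le_antisymm hi.2 hge
      subst hiJ
      have h1 := hQJ P X (by omega) hXlo hXhi
      have h2 := AV.I_GSM.term2 P (QS m X P i).ncard i K m (b2 m) C3 _ hP1 hC3 hr0 hKe hJK hmJ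
        (by unfold b2; omega) h1
      rw [Nat.sub_self, pow_zero, one_mul]
      refine le_trans h2 ?_
      have : 2 * C3 ≤ 2 * (C2 + C3) := by linarith
      gcongr
  have hsum : ∑ i ∈ Icc 1 J, (P : ℝ) ^ (J - i) * ((QS m X P i).ncard : ℝ) ≤
      2 * J * (C2 + C3) * (x ^ ((1 : ℝ) / 200) * x ^ ((J : ℝ) + (K : ℝ))) := by
    refine le_trans (Finset.sum_le_sum hterm) ?_
    rw [Finset.sum_const, Nat.card_Icc, nsmul_eq_mul]
    have e1 : (P : ℝ) ^ ((1 : ℝ) / 200) ≤ x ^ ((1 : ℝ) / 200) :=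
      Real.rpow_le_rpow (by positivity) hPx (by norm_num)
    have e2 : (P : ℝ) ^ (J + K) ≤ x ^ ((J : ℝ) + (K : ℝ)) := by
      have : x ^ ((J : ℝ) + (K : ℝ)) = x ^ (J + K) := by
        rw [← Nat.cast_add, Real.rpow_natCast]
      rw [this]
      exact pow_le_pow_left₀ (by positivity) hPx _
    have e3 : ((J + 1 - 1 : ℕ) : ℝ) = J := by norm_num
    rw [e3]
    calc (J : ℝ) * (2 * (C2 + C3) * (P : ℝ) ^ ((1 : ℝ) / 200) * (P : ℝ) ^ (J + K))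
        = 2 * J * (C2 + C3) * ((P : ℝ) ^ ((1 : ℝ) / 200) * (P : ℝ) ^ (J + K)) := by ring
      _ ≤ 2 * J * (C2 + C3) * (x ^ ((1 : ℝ) / 200) * x ^ ((J : ℝ) + (K : ℝ))) := by
        gcongr
  -- the number of discriminants
  have hcard : (Ds.card : ℝ) ≤ x ^ K := by
    rw [hxK]
    have h1 : Ds ⊆ Icc (-⌊X⌋) (-1) := by
      intro d hd
      obtain ⟨h1, -, -, h2, -⟩ := hDs d hd
      rw [mem_Icc]
      constructor
      · have h3 : ((-d : ℤ) : ℝ) ≤ X := by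
          rw [abs_of_neg (by exact_mod_cast h1)] at h2
          push_cast
          exact h2
        have := Int.le_floor.2 h3
        omega
      · omega
    have h2 := Finset.card_le_card h1
    rw [Int.card_Icc] at h2
    have h3 : ((⌊X⌋ : ℤ) : ℝ) ≤ X := Int.floor_le X
    have h4 : (0 : ℤ) ≤ ⌊X⌋ := Int.floor_nonneg.2 hXpos.le
    have h5 : (Ds.card : ℤ) ≤ ⌊X⌋ := by
      have : ((-1 : ℤ) + 1 - -⌊X⌋).toNat = ⌊X⌋.toNat := by
        congr 1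
        ring
      rw [this] at h2
      omega
    calc (Ds.card : ℝ) = ((Ds.card : ℤ) : ℝ) := by norm_cast
      _ ≤ ((⌊X⌋ : ℤ) : ℝ) := by exact_mod_cast h5
      _ ≤ X := h3
  obtain ⟨Hc, hHc⟩ : ∃ Hc : ℝ, Hc = C1 * x ^ ((K : ℝ) / 2 + 1 / 200) := ⟨_, rfl⟩
  obtain ⟨G, hG⟩ : ∃ G : ℝ, G = (x ^ (1 - c) / 2) ^ J / (J.factorial : ℝ) := ⟨_, rfl⟩
  have hG0 : 0 ≤ G := by
    rw [hG]
    positivity
  have hHc0 : 0 ≤ Hc := by
    rw [hHc]
    positivity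
  have key := hGDS m J P X Hc G Ds (by omega) hJ1 hXpos hG0 hHc0 (by
    intro d hd
    obtain ⟨h1, h2, h3, h4, h5⟩ := hDs d hd
    refine ⟨h1, h2, h3, h4, ?_, ?_⟩
    · have a1 := (h1a d h1 h2).2
      have a2 := h1c d h1 h2
      have a3 : (Nat.card (ClassGroup ↥(Od d)) : ℝ) ≤
          (∑ a ∈ Icc 1 (Nat.sqrt (d.natAbs / 3)), wt d a : ℝ) := by
        exact_mod_cast a1
      refine le_trans (le_trans a3 a2) ?_
      rw [hHc]
      apply mul_le_mul_of_nonneg_left _ hC1.le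
      have a4 : |(d : ℝ)| ^ ((1 : ℝ) / 2 + 1 / (200 * K)) ≤ X ^ ((1 : ℝ) / 2 + 1 / (200 * K)) :=
        Real.rpow_le_rpow (abs_nonneg _) h4 (by positivity)
      refine le_trans a4 (le_of_eq ?_)
      rw [hXrpow]
      congr 1
      field_simp
    · rw [card_powersetCard, hG]
      have b1 : (Sp d P).card = Pd d P := rfl
      rw [b1]
      have b2 : x ^ (1 - c) ≤ (Pd d P : ℝ) := by
        refine le_trans (le_of_eq ?_) h5
        rw [hXrpow, hc]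
        congr 1
        field_simp
      apply AV.I_GSM.choose_lb _ _ _ (by positivity) b2
      have b3 : ((2 * J : ℕ) : ℝ) ≤ x ^ (1 - c) := by
        have b4 : x ^ ((1 : ℝ) / 2) ≤ x ^ (1 - c) :=
          Real.rpow_le_rpow_of_exponent_le hx1 (by linarith)
        refine le_trans ?_ b4
        rw [← Real.sqrt_eq_rpow]
        apply Real.le_sqrt_of_sq_le
        refine le_trans ?_ hxN
        have : (2 * J) ^ 2 ≤ N0 := by omega
        exact_mod_cast this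
      have b5 : ((2 * J : ℕ) : ℝ) ≤ (Pd d P : ℝ) := le_trans b3 b2
      exact_mod_cast b5)
  have hA : (Ds.card : ℝ) * (P : ℝ) ^ J +
      ∑ i ∈ Icc 1 J, (P : ℝ) ^ (J - i) * ((QS m X P i).ncard : ℝ) ≤
      (1 + 2 * J * (C2 + C3)) * (x ^ ((1 : ℝ) / 200) * x ^ ((J : ℝ) + (K : ℝ))) := by
    have e1 : (Ds.card : ℝ) * (P : ℝ) ^ J ≤ 1 * (x ^ ((1 : ℝ) / 200) * x ^ ((J : ℝ) + (K : ℝ))) := by
      have f1 : (1 : ℝ) ≤ x ^ ((1 : ℝ) / 200) := Real.one_le_rpow hx1 (by norm_num)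
      have f2 : x ^ ((J : ℝ) + (K : ℝ)) = x ^ K * x ^ J := by
        rw [← Nat.cast_add, Real.rpow_natCast, ← pow_add, add_comm]
      rw [f2, one_mul]
      have f3 : (Ds.card : ℝ) * (P : ℝ) ^ J ≤ x ^ K * x ^ J := by
        gcongr
      refine le_trans f3 ?_
      exact le_mul_of_one_le_left (by positivity) f1
    calc _ ≤ 1 * (x ^ ((1 : ℝ) / 200) * x ^ ((J : ℝ) + (K : ℝ))) +
          2 * J * (C2 + C3) * (x ^ ((1 : ℝ) / 200) * x ^ ((J : ℝ) + (K : ℝ))) := add_le_add e1 hsum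
      _ = _ := by ring
  have hfin := I_GS2.fin x K J c _ Hc G _ C1 (1 + 2 * J * (C2 + C3)) (J.factorial : ℝ) J hx1 rfl
    hcJ hC1 (by positivity) (by positivity) hHc hG hA key
  refine le_trans hfin (le_of_eq ?_)
  rw [hXrpow]
  congr 2
  field_simp
  ring

end Pool.Agent.Work.MP_e0c7e8_nt.AW
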