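import Pool.Agent.Work.MP_e0c7e8_nt.AW.Stmts

set_option autoImplicit false

namespace Pool.Agent.Work.MP_e0c7e8_nt.AW

open Finset Pool.Agent.Work.MP_e0c7e8_nt.SM Pool.Agent.Work.MP_e0c7e8_nt.BG
  Pool.Agent.Work.MP_e0c7e8_nt.AV

namespace I_MA2

theorem card_le_of (N0 : ℕ) (N : Finset ℕ) (hN : ∀ n ∈ N, 1 ≤ n ∧ n ≤ N0) : N.card ≤ N0 := by
  have h : N ⊆ Icc 1 N0 := fun n hn => Finset.mem_Icc.2 (hN n hn)
  have := Finset.card_le_card h
  rwa [Nat.card_Icc, Nat.add_sub_cancel] at this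

theorem ht_le (m l U w : ℕ) (A B C : Finset ℕ) :
    (HT m l U w A B C).card ≤ A.card * (B.card * C.card) := by
  classical
  unfold HT
  refine (Finset.card_filter_le _ _).trans ?_
  rw [Finset.card_product, Finset.card_product]

/-- the numerical inequality for the exceptional tuples -/
theorem num_e (P a b q y j k s : ℕ) (hP : 1 ≤ P)
    (hP2 : 16 * 3 ^ k ≤ P) (h1 : k * y + q + b + 2 ≤ a)
    (hs : s ≤ (P ^ j) ^ k * (2 * P ^ y + 1) ^ k * P) :
    8 * (P ^ b * P ^ q) * s ≤ 3 * P ^ a * P ^ (k * j) := by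
  have hB : 8 * (P ^ b * P ^ q) * ((P ^ j) ^ k * (2 * P ^ y + 1) ^ k * P) ≤
      3 * P ^ a * P ^ (k * j) := by
    have e3 : 2 * P ^ y + 1 ≤ 3 * P ^ y := by
      have : 1 ≤ P ^ y := Nat.one_le_pow _ _ hP
      omega
    calc 8 * (P ^ b * P ^ q) * ((P ^ j) ^ k * (2 * P ^ y + 1) ^ k * P)
        ≤ 16 * (P ^ b * P ^ q) * ((P ^ j) ^ k * (3 * P ^ y) ^ k * P) := by gcongr; norm_num
      _ = (16 * 3 ^ k) * (P ^ b * P ^ q * P ^ (k * y) * P) * P ^ (k * j) := by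
          rw [mul_pow, ← pow_mul P y k, ← pow_mul P j k, mul_comm y k, mul_comm j k]; ring
      _ ≤ P * (P ^ b * P ^ q * P ^ (k * y) * P) * P ^ (k * j) := by gcongr
      _ = P ^ (k * y + q + b + 2) * P ^ (k * j) := by ring
      _ ≤ P ^ a * P ^ (k * j) := by
          have := Nat.pow_le_pow_right hP h1
          gcongr
      _ ≤ 3 * P ^ a * P ^ (k * j) := by
          have : P ^ a ≤ 3 * P ^ a := by omega
          gcongr
  exact (Nat.mul_le_mul_left _ hs).trans hB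

/-- the numerical inequality for the collisions -/
theorem num_c (P a b q j s : ℕ) (hP : 16 ≤ P) (h3 : j + b + q + 2 ≤ a)
    (hs : s ≤ (P ^ j) ^ 2 * P) :
    8 * (P ^ b * (2 * P ^ q)) * s ≤ 3 * P ^ a * P ^ j := by
  have hP1 : 1 ≤ P := by omega
  refine (Nat.mul_le_mul_left _ hs).trans ?_
  calc 8 * (P ^ b * (2 * P ^ q)) * ((P ^ j) ^ 2 * P)
      = 16 * (P ^ b * P ^ q * P ^ j * P) * P ^ j := by ring
    _ ≤ P * (P ^ b * P ^ q * P ^ j * P) * P ^ j := by gcongr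
    _ = P ^ (j + b + q + 2) * P ^ j := by ring
    _ ≤ P ^ a * P ^ j := by
        have := Nat.pow_le_pow_right hP1 h3
        gcongr
    _ ≤ 3 * P ^ a * P ^ j := by
        have : P ^ a ≤ 3 * P ^ a := by omega
        gcongr

end I_MA2

theorem MA2_pf (hAVG : Pool.Agent.Work.MP_e0c7e8_nt.AV.S_AVG)
    (hDVB : Pool.Agent.Work.MP_e0c7e8_nt.AV.S_DVB) (hEXB : S_EXB) (hNCA : S_NCA)
    (hPR : S_PR2) : S_MA2 := by
  intro m hm ho
  obtain ⟨⟨-, -, -, hk, hp1, -, hsum, -⟩, ⟨hp2, -, -, -⟩, -⟩ := hPR m hm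
  generalize k2 m = k at *
  generalize a2 m = a at *
  generalize b2 m = b at *
  generalize q2 m = q at *
  generalize J2 m = J at *
  generalize y2 m = y at *
  generalize n1 m = n1' at *
  generalize n2 m = n2' at *
  generalize n3 m = n3' at *
  obtain ⟨P1, h1⟩ := hDVB ((1 + y + n1' * m) * 2 ^ k) 1
  obtain ⟨P2, h2⟩ := hDVB ((n2' + n3') * m) 1
  refine ⟨max (max P1 P2) (max 16 (max k (16 * 3 ^ k))), fun P hP A B C hA hB hC l hlt => ?_⟩
  simp only [max_le_iff] at hP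
  obtain ⟨⟨hPP1, hPP2⟩, hP16, hkP, hP3⟩ := hP
  have hPone : 1 ≤ P := by omega
  -- the exceptional tuples
  have hE := hEXB m k (P ^ y) (P ^ n1') P (P ^ (a - b)) (3 * P ^ a) A ho hk hA (by
    intro M hM0 hM
    have := h1 P hPP1 M hM0 (hM.trans (by
      rw [pow_mul P (1 + y + n1' * m)]
      apply Nat.pow_le_pow_left
      calc k * P ^ y * (P ^ n1') ^ m ≤ P * P ^ y * (P ^ n1') ^ m := by gcongr
        _ = P ^ (1 + y + n1' * m) := by rw [← pow_mul]; ring))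
    simpa using this)
  have hE' := I_MA2.num_e P a b q y n1' k _ hPone hP3 hp1 hE
  -- the collisions
  have hCC := hNCA m (P ^ n2') (P ^ n3') P (P ^ (a - b)) (3 * P ^ a) B C (by omega)
    (fun n hn => ⟨(hB n hn).1, (hB n hn).2.1⟩) hC (by
    intro M hM0 hM
    have := h2 P hPP2 M hM0 (hM.trans (by rw [← pow_add, ← pow_mul]))
    simpa using this)
  rw [← pow_add] at hCC
  have hCC' := I_MA2.num_c P a b q (n2' + n3') _ hP16 hp2 hCC
  -- the choice of the modulus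
  have hPr : (0 : ℝ) < (P : ℝ) := by exact_mod_cast hPone
  have hAc : A.card ≤ P ^ n1' := I_MA2.card_le_of _ A fun n hn => ⟨(hA n hn).1, (hA n hn).2.1⟩
  have hBc : B.card ≤ P ^ n2' := I_MA2.card_le_of _ B fun n hn => ⟨(hB n hn).1, (hB n hn).2.1⟩
  have hCc : C.card ≤ P ^ n3' := I_MA2.card_le_of _ C hC
  have hHT : ∀ w, (HT m l (2 * P ^ (m * J)) w A B C).card ≤ P ^ (2 * J) := fun w =>
    (I_MA2.ht_le m l _ w A B C).trans (by
      calc A.card * (B.card * C.card) ≤ P ^ n1' * (P ^ n2' * P ^ n3') := by gcongr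
        _ = P ^ (2 * J) := by rw [← hsum]; ring)
  have key := hAVG ((Ioc (P ^ (a - b)) (3 * P ^ a)).filter (fun w => l.Coprime w))
    (fun w => ((HT m l (2 * P ^ (m * J)) w A B C).card : ℝ))
    (fun w => ((EX3 m k (P ^ y) w A).card : ℝ)) (fun w => ((NC m w B C).card : ℝ))
    (1 / (P : ℝ) ^ b) ((P : ℝ) ^ (2 * J)) ((P : ℝ) ^ (k * n1') / (P : ℝ) ^ q)
    ((P : ℝ) ^ (n2' + n3') / (2 * (P : ℝ) ^ q)) (3 * (P : ℝ) ^ a) (by positivity)
    (by positivity) (by positivity) (by positivity) ?_ ?_ ?_ ?_ ?_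
  · obtain ⟨w, hw, hw1, hw2, hw3⟩ := key
    rw [Finset.mem_filter] at hw
    refine ⟨w, hw.1, hw.2, ?_, ?_, ?_⟩
    · have : (P : ℝ) ^ (2 * J) ≤ 2 * (P : ℝ) ^ b *
          ((HT m l (2 * P ^ (m * J)) w A B C).card : ℝ) := by
        have h := mul_le_mul_of_nonneg_left hw1 (by positivity : (0 : ℝ) ≤ 2 * (P : ℝ) ^ b)
        have e : 2 * (P : ℝ) ^ b * (1 / (P : ℝ) ^ b * (P : ℝ) ^ (2 * J) / 2) =
            (P : ℝ) ^ (2 * J) := by
          field_simp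
        linarith [h, e]
      exact_mod_cast this
    · have : (P : ℝ) ^ q * ((EX3 m k (P ^ y) w A).card : ℝ) ≤ (P : ℝ) ^ (k * n1') := by
        rw [le_div_iff₀ (by positivity)] at hw2
        linarith [hw2]
      exact_mod_cast this
    · have : 2 * (P : ℝ) ^ q * ((NC m w B C).card : ℝ) ≤ (P : ℝ) ^ (n2' + n3') := by
        rw [le_div_iff₀ (by positivity)] at hw3
        linarith [hw3]
      exact_mod_cast this
  · have h : ((Ioc (P ^ (a - b)) (3 * P ^ a)).filter (fun w => l.Coprime w)).card ≤ 3 * P ^ a := by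
      refine (Finset.card_filter_le _ _).trans ?_
      rw [Nat.card_Ioc]
      exact Nat.sub_le _ _
    exact_mod_cast h
  · intro w _
    refine ⟨by positivity, by positivity, ?_⟩
    exact_mod_cast hHT w
  · have h : (3 * (P : ℝ) ^ a * (P : ℝ) ^ (2 * J)) < (P : ℝ) ^ b *
        ∑ w ∈ (Ioc (P ^ (a - b)) (3 * P ^ a)).filter (fun w => l.Coprime w),
          ((HT m l (2 * P ^ (m * J)) w A B C).card : ℝ) := by
      exact_mod_cast hlt
    have e : 1 / (P : ℝ) ^ b * (3 * (P : ℝ) ^ a) * (P : ℝ) ^ (2 * J) =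
        (3 * (P : ℝ) ^ a * (P : ℝ) ^ (2 * J)) / (P : ℝ) ^ b := by ring
    rw [e, div_lt_iff₀ (by positivity)]
    linarith [h]
  · have h0 : ∑ w ∈ (Ioc (P ^ (a - b)) (3 * P ^ a)).filter (fun w => l.Coprime w),
        (EX3 m k (P ^ y) w A).card ≤ ∑ w ∈ Ioc (P ^ (a - b)) (3 * P ^ a),
        (EX3 m k (P ^ y) w A).card := Finset.sum_le_sum_of_subset (Finset.filter_subset _ _)
    have h1 := (Nat.mul_le_mul_left (8 * (P ^ b * P ^ q)) h0).trans hE'
    have h2 : 8 * ((P : ℝ) ^ b * (P : ℝ) ^ q) *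
        ∑ w ∈ (Ioc (P ^ (a - b)) (3 * P ^ a)).filter (fun w => l.Coprime w),
          ((EX3 m k (P ^ y) w A).card : ℝ) ≤ 3 * (P : ℝ) ^ a * (P : ℝ) ^ (k * n1') := by
      exact_mod_cast h1
    have e : 1 / (P : ℝ) ^ b * (3 * (P : ℝ) ^ a) * ((P : ℝ) ^ (k * n1') / (P : ℝ) ^ q) / 8 =
        (3 * (P : ℝ) ^ a * (P : ℝ) ^ (k * n1')) / (8 * ((P : ℝ) ^ b * (P : ℝ) ^ q)) := by
      field_simp
    rw [e, le_div_iff₀ (by positivity)]
    linarith [h2]
  · have h0 : ∑ w ∈ (Ioc (P ^ (a - b)) (3 * P ^ a)).filter (fun w => l.Coprime w),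
        (NC m w B C).card ≤ ∑ w ∈ Ioc (P ^ (a - b)) (3 * P ^ a),
        (NC m w B C).card := Finset.sum_le_sum_of_subset (Finset.filter_subset _ _)
    have h1 := (Nat.mul_le_mul_left (8 * (P ^ b * (2 * P ^ q))) h0).trans hCC'
    have h2 : 8 * ((P : ℝ) ^ b * (2 * (P : ℝ) ^ q)) *
        ∑ w ∈ (Ioc (P ^ (a - b)) (3 * P ^ a)).filter (fun w => l.Coprime w),
          ((NC m w B C).card : ℝ) ≤ 3 * (P : ℝ) ^ a * (P : ℝ) ^ (n2' + n3') := by
      exact_mod_cast h1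
    have e : 1 / (P : ℝ) ^ b * (3 * (P : ℝ) ^ a) * ((P : ℝ) ^ (n2' + n3') / (2 * (P : ℝ) ^ q)) / 8 =
        (3 * (P : ℝ) ^ a * (P : ℝ) ^ (n2' + n3')) / (8 * ((P : ℝ) ^ b * (2 * (P : ℝ) ^ q))) := by
      field_simp
    rw [e, le_div_iff₀ (by positivity)]
    linarith [h2]

end Pool.Agent.Work.MP_e0c7e8_nt.AW
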