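import Pool.Agent.Work.MP_e0c7e8_nt.AW.Stmts
import Pool.Agent.Work.MP_e0c7e8_nt.AV.I_MTB

/-!
# [MB2] no modulus with many points and few exceptional tuples and collisions

Second version, see the docstring of `S_MB2` in `AW/Stmts.lean`.
-/

set_option autoImplicit false

namespace Pool.Agent.Work.MP_e0c7e8_nt.AW

open Finset Pool.Agent.Work.MP_e0c7e8_nt.SM Pool.Agent.Work.MP_e0c7e8_nt.BG
  Pool.Agent.Work.MP_e0c7e8_nt.AV

namespace I_MB2

/-- the loss `8 k L2 ^ 2` is at most `P`. -/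
theorem loss (P d w k : ℕ) (hw : w ≠ 0) (hd : w.divisors.card = d) (hP : d ^ 10 ≤ P)
    (h28 : (8 * k * 28 ^ 2) ^ 2 ≤ P) : 8 * k * (28 * 2 ^ w.primeFactors.card) ^ 2 ≤ P := by
  have h1 : 2 ^ w.primeFactors.card ≤ d := hd ▸ AV.I_MTB.two_pow_le w hw
  have hd1 : 1 ≤ d := (Nat.one_le_pow _ 2 (by norm_num)).trans h1
  have h2 : (2 ^ w.primeFactors.card) ^ 4 ≤ P :=
    ((Nat.pow_le_pow_left h1 4).trans (Nat.pow_le_pow_right hd1 (by norm_num))).trans hP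
  refine (Nat.pow_le_pow_iff_left (two_ne_zero)).1 ?_
  calc (8 * k * (28 * 2 ^ w.primeFactors.card) ^ 2) ^ 2
      = (8 * k * 28 ^ 2) ^ 2 * (2 ^ w.primeFactors.card) ^ 4 := by ring
    _ ≤ P * P := Nat.mul_le_mul h28 h2
    _ = P ^ 2 := by ring

/-- the density inequality -/
theorem dens (x : ℝ) (L2 : ℝ) (b q K : ℕ) (hx : 8 < x) (hL : 1 ≤ L2) (hL2 : 8 * L2 ^ 2 ≤ x)
    (hq : q = (b + 1) * K + 1) :
    1 / x ^ q + 1 / x ^ q < (1 / (2 * x ^ b) / (4 * L2 ^ 2)) ^ K := by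
  have hx0 : 0 < x := by linarith
  have hL0 : 0 < L2 := by linarith
  have h1 : 1 / x ^ (b + 1) ≤ 1 / (2 * x ^ b) / (4 * L2 ^ 2) := by
    rw [div_div]
    apply one_div_le_one_div_of_le (by positivity)
    calc 2 * x ^ b * (4 * L2 ^ 2) = x ^ b * (8 * L2 ^ 2) := by ring
      _ ≤ x ^ b * x := by gcongr
      _ = x ^ (b + 1) := by ring
  have h2 : (1 / x ^ (b + 1)) ^ K ≤ (1 / (2 * x ^ b) / (4 * L2 ^ 2)) ^ K :=
    pow_le_pow_left₀ (by positivity) h1 K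
  refine lt_of_lt_of_le ?_ h2
  have h3 : 1 / x ^ q + 1 / x ^ q = 2 / x ^ q := by ring
  rw [h3, hq, one_div, inv_pow, ← pow_mul, pow_succ, div_lt_iff₀ (by positivity)]
  have h4 : (x ^ ((b + 1) * K))⁻¹ * (x ^ ((b + 1) * K) * x) = x := by
    field_simp
  rw [h4]
  linarith

/-- `Y ^ k ≤ (Y + 1) ^ k - 1`. -/
theorem pow_le_sub (Y : ℝ) (k : ℕ) (hY : 0 ≤ Y) (hk : 1 ≤ k) : Y ^ k ≤ (Y + 1) ^ k - 1 := by
  obtain ⟨j, rfl⟩ : ∃ j, k = j + 1 := ⟨k - 1, by omega⟩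
  have h1 : Y ^ j ≤ (Y + 1) ^ j := pow_le_pow_left₀ hY (by linarith) j
  have h2 : 1 ≤ (Y + 1) ^ j := one_le_pow₀ (by linarith)
  have h3 : Y ^ (j + 1) = Y ^ j * Y := pow_succ _ _
  have h4 : (Y + 1) ^ (j + 1) = (Y + 1) ^ j * Y + (Y + 1) ^ j := by ring
  rw [h3, h4]
  have h5 : Y ^ j * Y ≤ (Y + 1) ^ j * Y := mul_le_mul_of_nonneg_right h1 hY
  linarith

end I_MB2

open I_MB2 in
theorem MB2_pf (hF : S_FX2) (hR : AV.S_RT1) (hD : AV.S_DVB) (hP : S_PR2) : S_MB2 := by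
  intro m hm ho
  obtain ⟨⟨_, _, hy1, hk1, _, _, hsum, _⟩, ⟨_, hq1, hq2, hq3⟩, _, _, _, _, hab, _⟩ := hP m hm
  obtain ⟨PD, hD⟩ := hD (a2 m + 1 + (n2 m + n3 m)) 10
  have hqq : q2 m = (b2 m + 1) * k2 m + 1 := rfl
  have hn1 : n1 m = b2 m + 2 := rfl
  have hn2 : n2 m = q2 m + 2 := rfl
  set k := k2 m with hkdef
  refine ⟨PD + 9 ^ k * k.factorial * (2 * k) ^ 2 * 2 + 16 * k ^ 2 +
    (8 * k * 28 ^ 2) ^ 2 + 9, ?_⟩
  intro P hPP A B C hA hB hC l w hw hl hHT hEX hNC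
  have hPD : PD ≤ P := by omega
  have hC1 : 9 ^ k * k.factorial * (2 * k) ^ 2 * 2 < P := by omega
  have hC2 : 16 * k ^ 2 < P := by omega
  have hkP : 2 * k ≤ P := by
    have h1 : k ≤ k ^ 2 := Nat.le_self_pow (by norm_num) k
    omega
  have h28 : (8 * k * 28 ^ 2) ^ 2 ≤ P := by omega
  have h9 : 9 ≤ P := by omega
  obtain ⟨hw1, hw2⟩ := Finset.mem_Ioc.1 hw
  have hP0 : 0 < P := by omega
  have hPpow : ∀ n : ℕ, 1 ≤ P ^ n := fun n => Nat.one_le_pow _ _ hP0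
  have h2w : 2 ≤ w := by
    have := hPpow (a2 m - b2 m)
    omega
  have hw0 : w ≠ 0 := by omega
  have hwle : w ≤ P ^ (a2 m + 1 + (n2 m + n3 m)) := by
    have h3 : 3 * P ^ a2 m ≤ P ^ a2 m * P := by
      rw [mul_comm]; exact Nat.mul_le_mul_left _ (by omega)
    calc w ≤ 3 * P ^ a2 m := hw2
      _ ≤ P ^ a2 m * P := h3
      _ = P ^ (a2 m + 1) := by rw [pow_succ]
      _ ≤ _ := Nat.pow_le_pow_right hP0 (by omega)
  have hd := hD P hPD w hw0 hwle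
  have hLk := loss P _ w k hw0 rfl hd h28
  set L2 := 28 * 2 ^ w.primeFactors.card with hL2
  have hL21 : 1 ≤ L2 := by
    have := Nat.one_le_pow w.primeFactors.card 2 (by norm_num)
    omega
  have hL8 : 8 * L2 ^ 2 ≤ P := by
    refine le_trans ?_ hLk
    exact Nat.mul_le_mul_right _ (by omega)
  set x : ℝ := (P : ℝ) with hx
  have hx8 : 8 < x := by rw [hx]; exact_mod_cast (by omega : 8 < P)
  have hx0 : 0 < x := by linarith
  have hx1 : 1 ≤ x := by linarith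
  have hL21' : (1 : ℝ) ≤ (L2 : ℝ) := by exact_mod_cast hL21
  have hL8' : 8 * (L2 : ℝ) ^ 2 ≤ x := by rw [hx]; exact_mod_cast hL8
  have hLk' : 8 * (k : ℝ) * (L2 : ℝ) ^ 2 ≤ x := by rw [hx]; exact_mod_cast hLk
  have hbb : 2 * b2 m ≤ 2 * a2 m := by omega
  -- `P^(2 aa - 2 bb) ≤ w^2`
  have hww : P ^ (2 * a2 m - 2 * b2 m) ≤ w ^ 2 := by
    have h := Nat.pow_le_pow_left hw1.le 2
    rw [← pow_mul] at h
    have he : (a2 m - b2 m) * 2 = 2 * a2 m - 2 * b2 m := by omega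
    rwa [he] at h
  have hww' : x ^ (2 * a2 m - 2 * b2 m) ≤ (w : ℝ) ^ 2 := by rw [hx]; exact_mod_cast hww
  have hYk : x ^ (k * y2 m) ≤ (x ^ y2 m + 1) ^ k := by
    rw [mul_comm, pow_mul]
    exact pow_le_pow_left₀ (by positivity) (by linarith) _
  refine hF m k l (2 * P ^ (m * J2 m)) w (P ^ y2 m) (P ^ n1 m) (P ^ n2 m) (P ^ n3 m) L2 P A B C
    (1 / (2 * x ^ b2 m)) (1 / x ^ q2 m) (1 / x ^ q2 m) ho hk1 h2w hl
    (hPpow _) (hPpow _) (hPpow _) (hPpow _) hL21 hP0 hA hB hC (hR w (by omega)) ?_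
    (by positivity) (by positivity) (by positivity) ?_ ?_ ?_ ?_ ?_ ?_ ?_ ?_ ?_
  · -- divisors
    intro n hn0 hn
    have h1 : n ≤ P ^ (a2 m + 1 + (n2 m + n3 m)) := by
      rw [← pow_add] at hn
      exact hn.trans (Nat.pow_le_pow_right hP0 (by omega))
    have h2 := hD P hPD n hn0 h1
    exact (Nat.le_self_pow (by norm_num) _).trans h2
  · -- many points
    rw [div_mul_eq_mul_div, div_le_iff₀ (by positivity)]
    have h : ((P ^ (2 * J2 m) : ℕ) : ℝ) ≤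
        ((2 * P ^ b2 m * (HT m l (2 * P ^ (m * J2 m)) w A B C).card : ℕ) : ℝ) := by
      exact_mod_cast hHT
    push_cast at h
    rw [← hx] at h
    push_cast
    rw [← hx]
    calc 1 * (x ^ n1 m * (x ^ n2 m * x ^ n3 m)) = x ^ (2 * J2 m) := by
          rw [one_mul, ← pow_add, ← pow_add, ← add_assoc, hsum]
      _ ≤ _ := h
      _ = _ := by ring
  · -- few exceptional tuples
    rw [div_mul_eq_mul_div, le_div_iff₀ (by positivity)]
    have h : ((P ^ q2 m * (EX3 m k (P ^ y2 m) w A).card : ℕ) : ℝ) ≤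
        ((P ^ (k * n1 m) : ℕ) : ℝ) := by
      exact_mod_cast hEX
    push_cast at h
    rw [← hx] at h
    push_cast
    rw [← hx]
    calc _ = x ^ q2 m * ((EX3 m k (P ^ y2 m) w A).card : ℝ) := by ring
      _ ≤ x ^ (k * n1 m) := h
      _ = 1 * (x ^ n1 m) ^ k := by rw [one_mul, ← pow_mul, mul_comm]
  · -- few collisions
    have h : ((2 * P ^ q2 m * (NC m w B C).card : ℕ) : ℝ) ≤ ((P ^ (n2 m + n3 m) : ℕ) : ℝ) := by
      exact_mod_cast hNC
    push_cast at h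
    rw [← hx] at h
    push_cast
    rw [← hx, div_div, div_mul_eq_mul_div, le_div_iff₀ (by positivity)]
    calc _ = 2 * x ^ q2 m * ((NC m w B C).card : ℝ) := by ring
      _ ≤ _ := h
      _ = _ := by rw [one_mul, ← pow_add]
  · -- many rows
    push_cast
    rw [← hx, div_mul_eq_mul_div, le_div_iff₀ (by positivity), one_mul, hn1]
    calc 4 * (k : ℝ) * (L2 : ℝ) ^ 2 * (2 * x ^ b2 m)
        = x ^ b2 m * (8 * (k : ℝ) * (L2 : ℝ) ^ 2) := by ring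
      _ ≤ x ^ b2 m * x := by gcongr
      _ ≤ x ^ b2 m * x ^ 2 := by
          gcongr
          nlinarith
      _ = x ^ (b2 m + 2) := by rw [pow_add]
  · exact dens x L2 (b2 m) (q2 m) k hx8 hL21' hL8' hqq
  · -- `k Y U ≤ w^2`
    calc k * P ^ y2 m * (2 * P ^ (m * J2 m))
        = (2 * k) * (P ^ y2 m * P ^ (m * J2 m)) := by ring
      _ ≤ P * (P ^ y2 m * P ^ (m * J2 m)) := Nat.mul_le_mul_right _ hkP
      _ = P ^ (y2 m + m * J2 m + 1) := by rw [← pow_add, ← pow_succ']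
      _ ≤ P ^ (2 * a2 m - 2 * b2 m) := Nat.pow_le_pow_right hP0 (by omega)
      _ ≤ w ^ 2 := hww
  · -- the rank inequality
    have hC1' : (9 : ℝ) ^ k * (k.factorial : ℝ) * (2 * (k : ℝ)) ^ 2 * 2 < x := by
      rw [hx]; exact_mod_cast hC1
    have hL : (9 : ℝ) ^ k * (k.factorial : ℝ) *
        ((k : ℝ) * ((P ^ y2 m : ℕ) : ℝ) * ((2 * P ^ (m * J2 m) : ℕ) : ℝ)) ^ 2 *
          (2 * ((P : ℕ) : ℝ)) =
        ((9 : ℝ) ^ k * (k.factorial : ℝ) * (2 * (k : ℝ)) ^ 2 * 2) *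
          x ^ (2 * y2 m + 2 * (m * J2 m) + 1) := by
      push_cast
      rw [← hx]
      have he : 2 * y2 m + 2 * (m * J2 m) + 1 = y2 m + y2 m + (m * J2 m + m * J2 m) + 1 := by
        ring
      rw [he, pow_succ x, pow_add x (y2 m + y2 m), pow_add x (y2 m), pow_add x (m * J2 m)]
      ring
    have hRR : x ^ (2 * y2 m + 2 * (m * J2 m) + 2) ≤
        ((((P ^ y2 m : ℕ) : ℝ) + 1) ^ k *
          (1 / x ^ q2 m * (((P ^ n2 m : ℕ) : ℝ) * ((P ^ n3 m : ℕ) : ℝ))) * (w : ℝ) ^ 2) := by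
      push_cast
      rw [← hx]
      have h2 : x ^ (2 * y2 m + 2 * (m * J2 m) + 2) * x ^ q2 m ≤
          x ^ (k * y2 m) * (x ^ n2 m * x ^ n3 m) * x ^ (2 * a2 m - 2 * b2 m) := by
        rw [← pow_add, ← pow_add, ← pow_add, ← pow_add]
        apply pow_le_pow_right₀ hx1
        omega
      have h3 : (x ^ y2 m + 1) ^ k * (1 / x ^ q2 m * (x ^ n2 m * x ^ n3 m)) * (w : ℝ) ^ 2 =
          ((x ^ y2 m + 1) ^ k * (x ^ n2 m * x ^ n3 m) * (w : ℝ) ^ 2) / x ^ q2 m := by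
        field_simp
      rw [h3, le_div_iff₀ (by positivity)]
      refine h2.trans ?_
      gcongr
    rw [hL]
    refine lt_of_lt_of_le ?_ hRR
    have he : x ^ (2 * y2 m + 2 * (m * J2 m) + 2) =
        x * x ^ (2 * y2 m + 2 * (m * J2 m) + 1) := by rw [← pow_succ']
    rw [he]
    exact mul_lt_mul_of_pos_right hC1' (by positivity)
  · -- `N3 < κ N2 N3`
    push_cast
    rw [← hx, div_mul_eq_mul_div, lt_div_iff₀ (by positivity), one_mul, hn2, pow_add]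
    have h1 : 0 < x ^ n3 m * x ^ q2 m := by positivity
    calc x ^ n3 m * x ^ q2 m = (x ^ n3 m * x ^ q2 m) * 1 := by ring
      _ < (x ^ n3 m * x ^ q2 m) * x ^ 2 := by
          apply mul_lt_mul_of_pos_left _ h1
          nlinarith
      _ = _ := by ring
  · -- the last inequality
    have hC2' : 16 * (k : ℝ) ^ 2 < x := by rw [hx]; exact_mod_cast hC2
    have hL : ((P ^ n2 m : ℕ) : ℝ) ^ m *
        (2 * ((k : ℝ) * ((P ^ y2 m : ℕ) : ℝ) * ((2 * P ^ (m * J2 m) : ℕ) : ℝ))) ^ 2 =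
        (16 * (k : ℝ) ^ 2) * x ^ (m * n2 m + 2 * y2 m + 2 * (m * J2 m)) := by
      push_cast
      rw [← hx]
      have he : m * n2 m + 2 * y2 m + 2 * (m * J2 m) =
          n2 m * m + (y2 m + y2 m) + (m * J2 m + m * J2 m) := by ring
      rw [he, pow_add x (n2 m * m + _), pow_add x (n2 m * m), pow_add x (y2 m),
        pow_add x (m * J2 m), pow_mul x (n2 m)]
      ring
    have hRR : x ^ (m * n2 m + 2 * y2 m + 2 * (m * J2 m) + 1) ≤
        ((((P ^ y2 m : ℕ) : ℝ) + 1) ^ k - 1) ^ 2 * (w : ℝ) ^ 2 := by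
      push_cast
      rw [← hx]
      have h0 : x ^ (k * y2 m) ≤ (x ^ y2 m + 1) ^ k - 1 := by
        rw [mul_comm, pow_mul]
        exact pow_le_sub _ _ (by positivity) hk1
      have h2 : x ^ (m * n2 m + 2 * y2 m + 2 * (m * J2 m) + 1) ≤
          (x ^ (k * y2 m)) ^ 2 * x ^ (2 * a2 m - 2 * b2 m) := by
        rw [← pow_mul, ← pow_add]
        apply pow_le_pow_right₀ hx1
        omega
      refine h2.trans ?_
      gcongr
    rw [hL]
    refine lt_of_lt_of_le ?_ hRR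
    have he : x ^ (m * n2 m + 2 * y2 m + 2 * (m * J2 m) + 1) =
        x * x ^ (m * n2 m + 2 * y2 m + 2 * (m * J2 m)) := by rw [← pow_succ']
    rw [he]
    exact mul_lt_mul_of_pos_right hC2' (by positivity)

end Pool.Agent.Work.MP_e0c7e8_nt.AW
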