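import Pool.Agent.Work.MP_e0c7e8_nt.AW.Stmts

/-! Item NCA of block AW: the nontrivial collisions on average (adapted from `AV/I_COA.lean`). -/

set_option autoImplicit false

namespace Pool.Agent.Work.MP_e0c7e8_nt.AW

open Finset Pool.Agent.Work.MP_e0c7e8_nt.SM Pool.Agent.Work.MP_e0c7e8_nt.BG
  Pool.Agent.Work.MP_e0c7e8_nt.AV

namespace I_NCA

theorem card_le {n : ℕ} {N : Finset ℕ} (hN : ∀ a ∈ N, 1 ≤ a ∧ a ≤ n) : N.card ≤ n := by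
  have h1 : N ⊆ Finset.Icc 1 n := fun a ha => Finset.mem_Icc.2 (hN a ha)
  have h2 := Finset.card_le_card h1
  rwa [Nat.card_Icc, Nat.add_sub_cancel] at h2

theorem off {m M0 T W0 W1 A B : ℕ} (hm : 1 ≤ m) (p1 : 1 ≤ A) (p2 : 1 ≤ B) (q1 : A ≤ M0)
    (q2 : B ≤ M0) (hT : ∀ M : ℕ, M ≠ 0 → M ≤ M0 ^ m → M.divisors.card ≤ T) (hne : A ≠ B) :
    ((Finset.Ioc W0 W1).filter fun w : ℕ => (w : ℤ) ^ 2 ∣ (A : ℤ) ^ m - (B : ℤ) ^ m).card ≤ T := by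
  have r1 : A ^ m ≤ M0 ^ m := Nat.pow_le_pow_left q1 m
  have r2 : B ^ m ≤ M0 ^ m := Nat.pow_le_pow_left q2 m
  have s1 : 1 ≤ A ^ m := Nat.one_le_pow _ _ p1
  have s2 : 1 ≤ B ^ m := Nat.one_le_pow _ _ p2
  have hpne : A ^ m ≠ B ^ m := by
    intro h
    exact hne (Nat.pow_left_injective (by omega) h)
  set M := ((A : ℤ) ^ m - (B : ℤ) ^ m).natAbs with hM
  have hM1 : ((A : ℤ) ^ m - (B : ℤ) ^ m) = ((A ^ m : ℕ) : ℤ) - ((B ^ m : ℕ) : ℤ) := by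
    push_cast
    ring
  have hM0 : M ≠ 0 := by
    rw [hM, hM1]
    omega
  have hM2 : M ≤ M0 ^ m := by
    rw [hM, hM1]
    omega
  refine le_trans (Finset.card_le_card ?_) (hT M hM0 hM2)
  intro w hw
  rw [Finset.mem_filter] at hw
  rw [Nat.mem_divisors]
  refine ⟨?_, hM0⟩
  have h1 : (w : ℤ) ∣ (A : ℤ) ^ m - (B : ℤ) ^ m := dvd_trans (dvd_pow_self _ two_ne_zero) hw.2
  rw [hM]
  exact Int.natCast_dvd.1 h1

end I_NCA

open I_NCA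

theorem NCA_pf : S_NCA := by
  intro m N2 N3 T W0 W1 B C hm hB hC hT
  classical
  set Q := (B ×ˢ C) ×ˢ (B ×ˢ C) with hQ
  have h1 : ∀ w : ℕ, (NC m w B C).card = ∑ z ∈ Q, (if z.1.1 * z.1.2 ≠ z.2.1 * z.2.2 ∧
      (w : ℤ) ^ 2 ∣ ((z.1.1 : ℤ) * (z.1.2 : ℤ)) ^ m - ((z.2.1 : ℤ) * (z.2.2 : ℤ)) ^ m then 1
      else 0) := by
    intro w
    unfold NC
    rw [Finset.card_filter]
  have h2 : ∑ w ∈ Ioc W0 W1, (NC m w B C).card = ∑ z ∈ Q, ∑ w ∈ Ioc W0 W1,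
      (if z.1.1 * z.1.2 ≠ z.2.1 * z.2.2 ∧
      (w : ℤ) ^ 2 ∣ ((z.1.1 : ℤ) * (z.1.2 : ℤ)) ^ m - ((z.2.1 : ℤ) * (z.2.2 : ℤ)) ^ m then 1
      else 0) := by
    rw [Finset.sum_congr rfl fun w _ => h1 w]
    exact Finset.sum_comm
  rw [h2]
  have h3 : ∀ z ∈ Q, ∑ w ∈ Ioc W0 W1, (if z.1.1 * z.1.2 ≠ z.2.1 * z.2.2 ∧
      (w : ℤ) ^ 2 ∣ ((z.1.1 : ℤ) * (z.1.2 : ℤ)) ^ m - ((z.2.1 : ℤ) * (z.2.2 : ℤ)) ^ m then 1
      else 0) ≤ T := by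
    intro z hz
    rw [hQ, Finset.mem_product, Finset.mem_product, Finset.mem_product] at hz
    obtain ⟨⟨b1, c1⟩, ⟨b2, c2⟩⟩ := hz
    by_cases hne : z.1.1 * z.1.2 = z.2.1 * z.2.2
    · rw [Finset.sum_eq_zero]
      · exact Nat.zero_le _
      · intro w _
        rw [if_neg]
        intro h
        exact h.1 hne
    · have k1 := hB _ b1
      have k2 := hC _ c1
      have k3 := hB _ b2
      have k4 := hC _ c2
      have hoff := off (m := m) (M0 := N2 * N3) (T := T) (W0 := W0) (W1 := W1)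
        (A := z.1.1 * z.1.2) (B := z.2.1 * z.2.2) hm
        (Nat.mul_pos k1.1 k2.1) (Nat.mul_pos k3.1 k4.1) (Nat.mul_le_mul k1.2 k2.2)
        (Nat.mul_le_mul k3.2 k4.2) hT hne
      refine le_trans (le_of_eq ?_) hoff
      rw [Finset.card_filter]
      apply Finset.sum_congr rfl
      intro w _
      have e1 : ((z.1.1 * z.1.2 : ℕ) : ℤ) = (z.1.1 : ℤ) * (z.1.2 : ℤ) := by push_cast; rfl
      have e2 : ((z.2.1 * z.2.2 : ℕ) : ℤ) = (z.2.1 : ℤ) * (z.2.2 : ℤ) := by push_cast; rfl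
      rw [e1, e2]
      by_cases hd : (w : ℤ) ^ 2 ∣ ((z.1.1 : ℤ) * (z.1.2 : ℤ)) ^ m -
          ((z.2.1 : ℤ) * (z.2.2 : ℤ)) ^ m
      · rw [if_pos ⟨hne, hd⟩, if_pos hd]
      · rw [if_neg (fun h => hd h.2), if_neg hd]
  refine le_trans (Finset.sum_le_card_nsmul _ _ _ h3) ?_
  rw [smul_eq_mul, hQ, Finset.card_product, Finset.card_product]
  have g1 := card_le hB
  have g2 := card_le hC
  have g3 : B.card * C.card ≤ N2 * N3 := Nat.mul_le_mul g1 g2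
  calc B.card * C.card * (B.card * C.card) * T ≤ N2 * N3 * (N2 * N3) * T :=
        Nat.mul_le_mul_right _ (Nat.mul_le_mul g3 g3)
    _ = (N2 * N3) ^ 2 * T := by ring

end Pool.Agent.Work.MP_e0c7e8_nt.AW
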