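import Pool.Agent.Work.MP_e0c7e8_nt.AW.Stmts

/-!
# Block AW, item PIG: vectors without small relations are not small
-/

set_option autoImplicit false

namespace Pool.Agent.Work.MP_e0c7e8_nt.AW

open Finset

theorem PIG_pf : S_PIG := by
  intro k Y S s hs hrel
  classical
  have hcard : (Fintype.piFinset fun _ : Fin k => Finset.range (Y + 1)).card = (Y + 1) ^ k := by
    rw [Fintype.card_piFinset]; simp
  have hI : (Finset.Icc (-((k * Y * S : ℕ) : ℤ)) ((k * Y * S : ℕ) : ℤ)).card
      = 2 * (k * Y * S) + 1 := by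
    rw [Int.card_Icc]
    have : ((k * Y * S : ℕ) : ℤ) + 1 - -((k * Y * S : ℕ) : ℤ)
        = ((2 * (k * Y * S) + 1 : ℕ) : ℤ) := by push_cast; ring
    rw [this, Int.toNat_natCast]
  rw [← hcard, ← hI]
  refine Finset.card_le_card_of_injOn
    (fun y : Fin k → ℕ => ∑ j, (y j : ℤ) * s j) ?_ ?_
  · intro y hy
    have hy' : ∀ j, y j < Y + 1 := by
      intro j
      have := (Fintype.mem_piFinset.1 (Finset.mem_coe.1 hy)) j
      exact Finset.mem_range.1 this
    have hb : |∑ j, (y j : ℤ) * s j| ≤ ((k * Y * S : ℕ) : ℤ) := by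
      calc |∑ j, (y j : ℤ) * s j| ≤ ∑ j, |(y j : ℤ) * s j| := Finset.abs_sum_le_sum_abs _ _
        _ ≤ ∑ _j : Fin k, (Y : ℤ) * (S : ℤ) := by
            refine Finset.sum_le_sum fun j _ => ?_
            rw [abs_mul]
            refine mul_le_mul ?_ (hs j) (abs_nonneg _) (by positivity)
            rw [abs_of_nonneg (by positivity)]
            exact_mod_cast Nat.lt_succ_iff.1 (hy' j)
        _ = ((k * Y * S : ℕ) : ℤ) := by
            rw [Finset.sum_const, Finset.card_univ, Fintype.card_fin, nsmul_eq_mul]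
            push_cast; ring
    rw [abs_le] at hb
    simpa [Finset.mem_coe, Finset.mem_Icc] using hb
  · intro y hy z hz hyz
    by_contra hne
    have hy' : ∀ j, y j < Y + 1 := fun j =>
      Finset.mem_range.1 ((Fintype.mem_piFinset.1 (Finset.mem_coe.1 hy)) j)
    have hz' : ∀ j, z j < Y + 1 := fun j =>
      Finset.mem_range.1 ((Fintype.mem_piFinset.1 (Finset.mem_coe.1 hz)) j)
    refine hrel (fun j => (y j : ℤ) - (z j : ℤ)) ?_ ?_ ?_
    · intro h0
      apply hne
      funext j
      have := congrFun h0 j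
      simp only [Pi.zero_apply] at this
      omega
    · intro j
      have h1 := hy' j
      have h2 := hz' j
      rw [abs_le]
      constructor <;> omega
    · have : ∑ j, ((y j : ℤ) - (z j : ℤ)) * s j
          = ∑ j, (y j : ℤ) * s j - ∑ j, (z j : ℤ) * s j := by
        rw [← Finset.sum_sub_distrib]
        exact Finset.sum_congr rfl fun j _ => by ring
      rw [this]
      exact sub_eq_zero.2 hyz

end Pool.Agent.Work.MP_e0c7e8_nt.AW
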