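import Pool.Agent.Work.MP_e0c7e8_nt.AW.Stmts

/-!
# Item PR2: the inequalities between the parameters
-/

set_option autoImplicit false

namespace Pool.Agent.Work.MP_e0c7e8_nt.AW

open Finset Pool.Agent.Work.MP_e0c7e8_nt.SM Pool.Agent.Work.MP_e0c7e8_nt.BG
  Pool.Agent.Work.MP_e0c7e8_nt.AV

namespace I_PR2

lemma ht (n : ℕ) : t2 (n + 5) = 6 * n ^ 2 + 56 * n + 130 := by
  unfold t2
  refine Nat.sub_eq_of_eq_add ?_
  ring

lemma ha (n : ℕ) : a2 (n + 5) = 12 * n ^ 3 + 166 * n ^ 2 + 765 * n + 1175 := by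
  unfold a2
  rw [ht, show 2 * (n + 5) - 1 = 2 * n + 9 by omega]
  ring

lemma hJ (n : ℕ) : J2 (n + 5) = 18 * n ^ 2 + 168 * n + 391 := by
  unfold J2
  rw [ht]
  ring

lemma hK (n : ℕ) : K2 (n + 5) = 12 * n ^ 3 + 184 * n ^ 2 + 932 * n + 1560 := by
  unfold K2
  rw [ht]
  ring

lemma hq (n : ℕ) : q2 (n + 5) = 2 * n ^ 2 + 24 * n + 71 := by
  unfold q2 k2
  ring

lemma hb (n : ℕ) : b2 (n + 5) = n + 6 := by
  unfold b2
  ring

lemma hk (n : ℕ) : k2 (n + 5) = 2 * n + 10 := by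
  unfold k2
  ring

lemma hy (n : ℕ) : y2 (n + 5) = 6 * n ^ 2 + 52 * n + 109 := by
  unfold y2
  have h : a2 (n + 5) - b2 (n + 5) - q2 (n + 5) - 2 =
      12 * n ^ 3 + 164 * n ^ 2 + 740 * n + 1096 := by
    rw [ha, hb, hq]
    omega
  rw [h, hk]
  refine Nat.div_eq_of_lt_le ?_ ?_
  · have : 12 * n ^ 3 + 164 * n ^ 2 + 740 * n + 1096 =
        (6 * n ^ 2 + 52 * n + 109) * (2 * n + 10) + (2 * n + 6) := by ring
    omega
  · have : (6 * n ^ 2 + 52 * n + 109 + 1) * (2 * n + 10) =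
        12 * n ^ 3 + 164 * n ^ 2 + 740 * n + 1096 + 4 := by ring
    omega

lemma hn1 (n : ℕ) : n1 (n + 5) = n + 8 := rfl

lemma hn2 (n : ℕ) : n2 (n + 5) = 2 * n ^ 2 + 24 * n + 73 := by
  unfold n2
  rw [hq]

lemma hn3 (n : ℕ) : n3 (n + 5) = 34 * n ^ 2 + 311 * n + 701 := by
  unfold n3
  rw [hJ, hn1, hn2]
  omega

end I_PR2

open I_PR2 in
theorem PR2_pf : S_PR2 := by
  intro m hm
  obtain ⟨n, rfl⟩ := Nat.exists_eq_add_of_le' hm
  have hK2 : K2 (n + 5) / 2 = 6 * n ^ 3 + 92 * n ^ 2 + 466 * n + 780 := by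
    rw [hK]
    omega
  have hJ1 : J2 (n + 5) - 1 = 18 * n ^ 2 + 168 * n + 390 := by
    rw [hJ]
    omega
  rw [hK2, hJ1, hK, hJ, ha, hb, hq, hk, hy, hn1, hn2, hn3]
  have c3 := Nat.zero_le (n ^ 3)
  have c2 := Nat.zero_le (n ^ 2)
  have c1 := Nat.zero_le n
  refine ⟨⟨by ring, ⟨6 * n ^ 3 + 92 * n ^ 2 + 466 * n + 780, by ring⟩, by omega, by omega,
    by nlinarith, by omega, by omega, by omega⟩, ⟨by omega, by nlinarith, by nlinarith,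
    by nlinarith⟩, ⟨by ring, by ring, by omega, by nlinarith, by omega, by omega⟩⟩

end Pool.Agent.Work.MP_e0c7e8_nt.AW
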