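import Pool.Agent.Work.MP_e0c7e8_nt.AW.Stmts

/-!
# [QJ2] the solutions with `J2` primes in `A` and `B` (as `AV/I_QJB.lean`)
-/

set_option autoImplicit false

namespace Pool.Agent.Work.MP_e0c7e8_nt.AW

open Finset Pool.Agent.Work.MP_e0c7e8_nt.SM Pool.Agent.Work.MP_e0c7e8_nt.BG
  Pool.Agent.Work.MP_e0c7e8_nt.AV

namespace I_QJ2

/-- `2 ^ ω(n)` is at most the number of divisors. -/
theorem two_pow_le (n : ℕ) (hn : n ≠ 0) : 2 ^ n.primeFactors.card ≤ n.divisors.card := by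
  rw [Nat.card_divisors hn, ← Finset.prod_const]
  refine Finset.prod_le_prod' fun p hp => ?_
  have h1 : 1 ≤ n.factorization p := by
    have h := (Nat.prime_of_mem_primeFactors hp).factorization_pos_of_dvd hn
      (Nat.dvd_of_mem_primeFactors hp)
    exact h
  omega

/-- the elements of `NN P j` -/
theorem NN_prop (P j n : ℕ) (hn : n ∈ NN P j) : 1 ≤ n ∧ n ≤ P ^ j ∧ Squarefree n := by
  unfold NN at hn
  obtain ⟨A, hA, rfl⟩ := Finset.mem_image.1 hn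
  obtain ⟨hA1, hA2⟩ := Finset.mem_powersetCard.1 hA
  have hp : ∀ p ∈ A, p.Prime ∧ p ≤ P := by
    intro p hp
    have h := hA1 hp
    unfold Pr at h
    rw [Finset.mem_filter, Finset.mem_Icc] at h
    exact ⟨h.2.1, h.1.2⟩
  refine ⟨Finset.prod_pos fun p h => (hp p h).1.pos, ?_, ?_⟩
  · calc ∏ p ∈ A, p ≤ ∏ _p ∈ A, P := Finset.prod_le_prod' fun p h => (hp p h).2
      _ = P ^ j := by rw [Finset.prod_const, hA2]
  · refine Finset.squarefree_prod_of_pairwise_isCoprime (fun p h q h' hpq => ?_)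
      fun p h => (hp p h).1.squarefree
    exact Nat.coprime_iff_isRelPrime.1 ((Nat.coprime_primes (hp p h).1 (hp q h').1).2 hpq)

/-- the number `T` -/
theorem exT (P a : ℕ)
    (hD : ∀ M : ℕ, M ≠ 0 → M ≤ P ^ (a + 1) → M.divisors.card ^ 400 ≤ P) :
    ∃ T : ℕ, (T : ℝ) ≤ (P : ℝ) ^ ((1 : ℝ) / 400) ∧
      ∀ v : ℕ, 1 ≤ v → v ≤ P ^ (a + 1) → 2 ^ v.primeFactors.card ≤ T := by
  refine ⟨⌊(P : ℝ) ^ ((1 : ℝ) / 400)⌋₊, Nat.floor_le (by positivity), fun v hv hv' => ?_⟩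
  have h1 : 2 ^ v.primeFactors.card ≤ v.divisors.card := two_pow_le v (by omega)
  refine h1.trans (Nat.le_floor ?_)
  have h2 := hD v (by omega) hv'
  have h3 : ((v.divisors.card : ℝ)) ^ (400 : ℕ) ≤ (P : ℝ) := by
    have h : ((v.divisors.card ^ 400 : ℕ) : ℝ) ≤ (P : ℝ) := Nat.cast_le.2 h2
    rwa [Nat.cast_pow] at h
  have h4 : ((v.divisors.card : ℝ)) = (((v.divisors.card : ℝ)) ^ (400 : ℕ)) ^ ((1 : ℝ) / 400) := by
    have h := Real.pow_rpow_inv_natCast (x := (v.divisors.card : ℝ)) (n := 400)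
      (Nat.cast_nonneg _) (by norm_num)
    have e : ((1 : ℝ) / 400) = ((400 : ℕ) : ℝ)⁻¹ := by norm_num
    rw [e, h]
  rw [h4]
  exact Real.rpow_le_rpow (pow_nonneg (Nat.cast_nonneg _) _) h3 (by norm_num)

/-- the logarithm -/
theorem log_bd (P a V : ℕ) (hP : 1 ≤ P) (hV : 1 ≤ V) (hVP : V ≤ P ^ (a + 1)) :
    1 + Real.log V ≤ (1 + 400 * (a + 1)) * (P : ℝ) ^ ((1 : ℝ) / 400) := by
  have hP' : (1 : ℝ) ≤ (P : ℝ) := by exact_mod_cast hP
  have h1 : Real.log V ≤ ((a : ℝ) + 1) * Real.log P := by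
    have h : Real.log V ≤ Real.log ((P : ℝ) ^ (a + 1)) := by
      apply Real.log_le_log (by exact_mod_cast hV)
      exact_mod_cast hVP
    rw [Real.log_pow] at h
    push_cast at h
    exact h
  have h2 : Real.log P ≤ (P : ℝ) ^ ((1 : ℝ) / 400) / ((1 : ℝ) / 400) :=
    Real.log_le_rpow_div (by linarith) (by norm_num)
  have h3 : (1 : ℝ) ≤ (P : ℝ) ^ ((1 : ℝ) / 400) := Real.one_le_rpow hP' (by norm_num)
  have h4 : ((a : ℝ) + 1) * Real.log P ≤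
      ((a : ℝ) + 1) * ((P : ℝ) ^ ((1 : ℝ) / 400) / ((1 : ℝ) / 400)) :=
    mul_le_mul_of_nonneg_left h2 (by positivity)
  have h5 : ((a : ℝ) + 1) * ((P : ℝ) ^ ((1 : ℝ) / 400) / ((1 : ℝ) / 400)) =
    400 * ((a : ℝ) + 1) * (P : ℝ) ^ ((1 : ℝ) / 400) := by ring
  linarith

/-- the final computation: `x = P`, `s = √X`, `y = P^(1/400)`, `b = b2`, `k = K2 / 2`, `a = a2`,
`j = J2`, `q = a - b`, `D = 4^J2`. -/
theorem fin (x y s T V L c D n1 n2 n3 : ℝ) (a b k j m q : ℕ) (hx : 1 ≤ x) (hy : 1 ≤ y)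
    (hT0 : 0 ≤ T) (hT : T ≤ y) (hs : s ≤ c * x ^ k) (hc : 0 ≤ c) (hD : 0 ≤ D)
    (hV : V ≤ 3 * x ^ q) (hL0 : 0 ≤ L) (hL : L ≤ c * y)
    (haq : a = q + b) (hjk : m * j = a + k)
    (h1 : n1 ≤ 56 * T * x ^ (2 * j) * (s * L + V))
    (h2 : n2 ≤ D * (112 * T) * n3) (h3 : n3 * x ^ b ≤ 6 * x ^ a * x ^ (2 * j)) :
    (n1 + n2) * x ^ (k + b) ≤ (56 * c ^ 2 + 168 + 672 * D) * y ^ 2 *
      (x ^ (2 * j + 2 * k + b) + x ^ ((2 + m) * j)) := by
  have hx0 : 0 < x := by linarith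
  have e1 : x ^ ((2 + m) * j) = x ^ (2 * j) * x ^ q * x ^ b * x ^ k := by
    rw [← pow_add, ← pow_add, ← pow_add]
    congr 1
    have : (2 + m) * j = 2 * j + m * j := by ring
    omega
  have e2 : x ^ (2 * j + 2 * k + b) = x ^ (2 * j) * x ^ k * x ^ k * x ^ b := by
    rw [← pow_add, ← pow_add, ← pow_add]
    congr 1
    omega
  have e4 : x ^ a = x ^ q * x ^ b := by rw [← pow_add, haq]
  rw [e1, e2, pow_add]
  rw [e4] at h3
  set J := x ^ (2 * j)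
  set K := x ^ k
  set B := x ^ b
  set Q := x ^ q
  have hJ : 0 < J := by positivity
  have hK : 0 < K := by positivity
  have hB : 0 < B := by positivity
  have hQ : 0 < Q := by positivity
  have hyy : y ≤ y ^ 2 := by nlinarith
  have a1 : s * L ≤ (c * K) * (c * y) := mul_le_mul hs hL hL0 (by positivity)
  have a2 : n1 ≤ 56 * T * J * ((c * K) * (c * y) + 3 * Q) := h1.trans (by gcongr)
  have a3 : 56 * T * J * ((c * K) * (c * y) + 3 * Q) ≤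
      56 * y * J * ((c * K) * (c * y) + 3 * Q) := by gcongr
  have a4 : n1 * (K * B) ≤ 56 * y * J * ((c * K) * (c * y) + 3 * Q) * (K * B) := by
    apply mul_le_mul_of_nonneg_right (a2.trans a3) (by positivity)
  have b1 : n2 * (K * B) ≤ (D * (112 * T) * n3) * (K * B) :=
    mul_le_mul_of_nonneg_right h2 (by positivity)
  have b2 : (D * (112 * T) * n3) * (K * B) = (D * (112 * T) * K) * (n3 * B) := by ring
  have b3 : (D * (112 * T) * K) * (n3 * B) ≤ (D * (112 * T) * K) * (6 * (Q * B) * J) :=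
    mul_le_mul_of_nonneg_left h3 (by positivity)
  have b4 : (D * (112 * T) * K) * (6 * (Q * B) * J) ≤ (D * (112 * y) * K) * (6 * (Q * B) * J) := by
    gcongr
  have c1 : y * (J * Q * B * K) ≤ y ^ 2 * (J * Q * B * K) :=
    mul_le_mul_of_nonneg_right hyy (by positivity)
  have c1' : D * (y * (J * Q * B * K)) ≤ D * (y ^ 2 * (J * Q * B * K)) :=
    mul_le_mul_of_nonneg_left c1 hD
  have c2 : 0 ≤ y ^ 2 * (J * K * K * B) := by positivity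
  have c3 : 0 ≤ c ^ 2 * (y ^ 2 * (J * Q * B * K)) := by positivity
  have c4 : 0 ≤ D * (y ^ 2 * (J * K * K * B)) := by positivity
  have f1 : (n1 + n2) * (K * B) ≤
      56 * c ^ 2 * (y ^ 2 * (J * K * K * B)) + 168 * (y * (J * Q * B * K)) +
        672 * (D * (y * (J * Q * B * K))) := by
    have g1 : 56 * y * J * ((c * K) * (c * y) + 3 * Q) * (K * B) =
        56 * c ^ 2 * (y ^ 2 * (J * K * K * B)) + 168 * (y * (J * Q * B * K)) := by ring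
    have g2 : (D * (112 * y) * K) * (6 * (Q * B) * J) = 672 * (D * (y * (J * Q * B * K))) := by
      ring
    rw [add_mul]
    linarith
  have f2 : (56 * c ^ 2 + 168 + 672 * D) * y ^ 2 * (J * K * K * B + J * Q * B * K) =
      56 * c ^ 2 * (y ^ 2 * (J * K * K * B)) + 56 * (c ^ 2 * (y ^ 2 * (J * Q * B * K))) +
      168 * (y ^ 2 * (J * K * K * B)) + 168 * (y ^ 2 * (J * Q * B * K)) +
      672 * (D * (y ^ 2 * (J * K * K * B))) + 672 * (D * (y ^ 2 * (J * Q * B * K))) := by ring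
  rw [f2]
  linarith

end I_QJ2

open I_QJ2 in
theorem QJ2_pf (hQ : S_QFN) (hT : S_TRV) (hB : S_BG2) (hM : S_MP2) (hD : S_DVB) (hP : S_PR2) :
    S_QJ2 := by
  intro m hm ho
  obtain ⟨⟨hp0, ⟨k, hk⟩, _, _, _, hp1, hp2, hp3⟩, _, ⟨_, _, _, _, hp4, hp5⟩⟩ := hP m hm
  obtain ⟨PD, hD⟩ := hD (a2 m + 1) 400
  obtain ⟨PM, hM⟩ := hM m hm ho
  have hJ1 : 1 ≤ J2 m := by unfold J2; omega
  have hab : b2 m ≤ a2 m := by omega
  set c : ℝ := 2 ^ k + 1 + 400 * (a2 m + 1) with hc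
  refine ⟨PD + PM + 2 ^ k + 3, 56 * c ^ 2 + 168 + 672 * 4 ^ (J2 m), by positivity, ?_⟩
  intro P X hP0 hX1 hX2
  have h2K0 : 1 ≤ 2 ^ k := Nat.one_le_two_pow
  have hPD : PD ≤ P := by omega
  have hPM : PM ≤ P := by omega
  have h2K : 2 ^ k ≤ P := by omega
  have hP3 : 3 ≤ P := by omega
  have hP1 : 1 ≤ P := by omega
  have hPr : (1 : ℝ) ≤ (P : ℝ) := by exact_mod_cast hP1
  have hPr0 : (0 : ℝ) < (P : ℝ) := by linarith
  have h3P : 3 * P ^ a2 m ≤ P ^ (a2 m + 1) := by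
    rw [pow_succ, mul_comm]; exact Nat.mul_le_mul_left _ hP3
  obtain ⟨T, hT1, hT2⟩ := exT P (a2 m) (fun M => hD P hPD M)
  have hX0 : 1 ≤ X := le_trans (one_le_pow₀ hPr) hX1
  have hX00 : 0 < X := by linarith
  obtain ⟨hfin, hv⟩ := hQ m P (J2 m) X hX00
  have hKe : K2 m = 2 * k := by omega
  have hmJ : m * J2 m = a2 m + k := by
    have : 2 * (m * J2 m) = 2 * (a2 m + k) := by rw [hp0, hKe]; ring
    omega
  have hkd : K2 m / 2 = k := by omega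
  have hsq : Real.sqrt X ≤ 2 ^ k * (P : ℝ) ^ k := by
    have h : X ≤ (2 ^ k * (P : ℝ) ^ k) ^ 2 := by
      refine hX2.trans (le_of_eq ?_)
      rw [hKe, mul_pow, mul_pow, ← pow_mul, ← pow_mul, mul_comm 2 k]
    calc Real.sqrt X ≤ Real.sqrt ((2 ^ k * (P : ℝ) ^ k) ^ 2) := Real.sqrt_le_sqrt h
      _ = 2 ^ k * (P : ℝ) ^ k := Real.sqrt_sq (by positivity)
  have hW0 : Real.sqrt X ≤ 2 * ((P ^ (a2 m - b2 m) : ℕ) : ℝ) := by
    have h1 : (2 : ℝ) ^ k * (P : ℝ) ^ k ≤ (P : ℝ) * (P : ℝ) ^ k := by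
      apply mul_le_mul_of_nonneg_right _ (by positivity)
      exact_mod_cast h2K
    have h2 : (P : ℝ) * (P : ℝ) ^ k = (P : ℝ) ^ (k + 1) := by ring
    have h3 : (P : ℝ) ^ (k + 1) ≤ (P : ℝ) ^ (a2 m - b2 m) := pow_le_pow_right₀ hPr (by omega)
    have h4 : (0 : ℝ) ≤ (P : ℝ) ^ (a2 m - b2 m) := by positivity
    push_cast
    linarith
  have hvW : ∀ x ∈ QS m X P (J2 m), x.2.2.2 ≤ 3 * P ^ a2 m := by
    intro x hx
    have h1 := hv x hx
    by_contra h2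
    have h3 : (((3 * P ^ a2 m : ℕ)) : ℝ) < (x.2.2.2 : ℝ) := by exact_mod_cast (not_le.1 h2)
    push_cast at h3
    have h4 : (3 * (P : ℝ) ^ a2 m) ^ 2 ≤ (x.2.2.2 : ℝ) ^ 2 :=
      pow_le_pow_left₀ (by positivity) h3.le 2
    have h5 : (3 * (P : ℝ) ^ a2 m) ^ 2 * (P : ℝ) ^ K2 m ≤ (x.2.2.2 : ℝ) ^ 2 * X :=
      mul_le_mul h4 hX1 (by positivity) (by positivity)
    have h6 : (3 * (P : ℝ) ^ a2 m) ^ 2 * (P : ℝ) ^ K2 m =
        9 * (P : ℝ) ^ (2 * m * J2 m) := by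
      rw [mul_pow, ← pow_mul, mul_assoc, ← pow_add]
      have e : a2 m * 2 + K2 m = 2 * m * J2 m := by
        rw [mul_assoc, hp0]; ring
      rw [e]; norm_num
    have h7 : 0 < (P : ℝ) ^ (2 * m * J2 m) := by positivity
    linarith
  set W0 := P ^ (a2 m - b2 m) with hW0d
  have hW01 : 1 ≤ W0 := Nat.one_le_pow _ _ hP1
  have hW0a : W0 ≤ P ^ a2 m := Nat.pow_le_pow_right hP1 (by omega)
  have hV3 : 2 * W0 + 1 ≤ 3 * W0 := by omega
  have hVW : 2 * W0 + 1 ≤ P ^ (a2 m + 1) := by omega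
  have hc1 := hT m P (J2 m) (2 * W0 + 1) T X (by omega) hJ1 hX0 (by omega)
    (fun v h1 h2 => hT2 v h1 (h2.trans hVW))
  have hc2 := hB m P (J2 m) (n1 m) (n2 m) (n3 m) (2 * P ^ (m * J2 m)) W0 (3 * P ^ a2 m) T X
    (by omega) hJ1 hX0 hp1 hp2 le_rfl hW0 (fun v h1 h2 => hT2 v h1 (h2.trans h3P)) hvW
  have hM' := hM P hPM (NN P (n1 m)) (NN P (n2 m)) (NN P (n3 m))
    (fun n hn => NN_prop P (n1 m) n hn) (fun n hn => NN_prop P (n2 m) n hn)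
    (fun n hn => ⟨(NN_prop P (n3 m) n hn).1, (NN_prop P (n3 m) n hn).2.1⟩)
  have hM4 := hM' 4
  have hM1 := hM' 1
  have hlog := log_bd P (a2 m) (2 * W0 + 1) hP1 (by omega) hVW
  have hdec : ((QS m X P (J2 m)).ncard : ℝ) ≤
      ({x ∈ QS m X P (J2 m) | x.2.2.2 ≤ 2 * W0 + 1}.ncard : ℝ) +
      ({x ∈ QS m X P (J2 m) | 2 * W0 + 1 < x.2.2.2}.ncard : ℝ) := by
    have h := Set.ncard_union_le {x ∈ QS m X P (J2 m) | x.2.2.2 ≤ 2 * W0 + 1}
      {x ∈ QS m X P (J2 m) | 2 * W0 + 1 < x.2.2.2}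
    have he : {x ∈ QS m X P (J2 m) | x.2.2.2 ≤ 2 * W0 + 1} ∪
        {x ∈ QS m X P (J2 m) | 2 * W0 + 1 < x.2.2.2} = QS m X P (J2 m) := by
      ext x
      constructor
      · rintro (h | h)
        · exact h.1
        · exact h.1
      · intro h
        rcases le_or_gt x.2.2.2 (2 * W0 + 1) with h' | h'
        · exact Or.inl ⟨h, h'⟩
        · exact Or.inr ⟨h, h'⟩
    rw [he] at h
    exact_mod_cast h
  have hy : (P : ℝ) ^ ((1 : ℝ) / 200) = ((P : ℝ) ^ ((1 : ℝ) / 400)) ^ 2 := by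
    rw [← Real.rpow_natCast, ← Real.rpow_mul hPr0.le]
    norm_num
  have hy1 : (1 : ℝ) ≤ (P : ℝ) ^ ((1 : ℝ) / 400) := Real.one_le_rpow hPr (by norm_num)
  rw [hy, hkd]
  have hcK : (2 : ℝ) ^ k ≤ c := by
    rw [hc]
    have : (0 : ℝ) ≤ (a2 m : ℝ) := by positivity
    linarith
  have hcL : 1 + 400 * ((a2 m : ℝ) + 1) ≤ c := by
    rw [hc]
    have : (0 : ℝ) ≤ (2 : ℝ) ^ k := by positivity
    linarith
  have hc0 : 0 ≤ c := by
    have : (0 : ℝ) ≤ (2 : ℝ) ^ k := by positivity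
    linarith
  have hMs : ((∑ w ∈ (Ioc W0 (3 * P ^ a2 m)).filter (fun w => Nat.Coprime 4 w),
        ((HT m 4 (2 * P ^ (m * J2 m)) w (NN P (n1 m)) (NN P (n2 m)) (NN P (n3 m))).card : ℝ) +
      ∑ w ∈ (Ioc W0 (3 * P ^ a2 m)).filter (fun w => Nat.Coprime 1 w),
        ((HT m 1 (2 * P ^ (m * J2 m)) w (NN P (n1 m)) (NN P (n2 m)) (NN P (n3 m))).card : ℝ))) *
        (P : ℝ) ^ b2 m ≤
      6 * (P : ℝ) ^ a2 m * (P : ℝ) ^ (2 * J2 m) := by
    have h4 : (P : ℝ) ^ b2 m * ∑ w ∈ (Ioc W0 (3 * P ^ a2 m)).filter (fun w => Nat.Coprime 4 w),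
        ((HT m 4 (2 * P ^ (m * J2 m)) w (NN P (n1 m)) (NN P (n2 m)) (NN P (n3 m))).card : ℝ) ≤
        3 * (P : ℝ) ^ a2 m * (P : ℝ) ^ (2 * J2 m) := by exact_mod_cast hM4
    have h1 : (P : ℝ) ^ b2 m * ∑ w ∈ (Ioc W0 (3 * P ^ a2 m)).filter (fun w => Nat.Coprime 1 w),
        ((HT m 1 (2 * P ^ (m * J2 m)) w (NN P (n1 m)) (NN P (n2 m)) (NN P (n3 m))).card : ℝ) ≤
        3 * (P : ℝ) ^ a2 m * (P : ℝ) ^ (2 * J2 m) := by exact_mod_cast hM1
    linarith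
  have hmain := fin (P : ℝ) ((P : ℝ) ^ ((1 : ℝ) / 400)) (Real.sqrt X) T ((2 * W0 + 1 : ℕ) : ℝ)
    (1 + Real.log ((2 * W0 + 1 : ℕ) : ℝ)) c (4 ^ (J2 m)) _ _ _ (a2 m) (b2 m) k (J2 m) m
    (a2 m - b2 m)
    hPr hy1 (by positivity) hT1 (hsq.trans (by gcongr)) hc0 (by positivity)
    (by rw [hW0d] at hV3 ⊢; exact_mod_cast hV3) ?_ (hlog.trans (by gcongr)) (by omega) hmJ
    hc1 hc2 hMs
  · have he : 2 * J2 m + K2 m + b2 m = 2 * J2 m + 2 * k + b2 m := by omega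
    rw [he]
    exact (mul_le_mul_of_nonneg_right hdec (by positivity)).trans hmain
  · have : 0 ≤ Real.log ((2 * W0 + 1 : ℕ) : ℝ) := Real.log_natCast_nonneg _
    linarith

end Pool.Agent.Work.MP_e0c7e8_nt.AW
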