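import Pool.Agent.Work.MP_e0c7e8_nt.AW.Stmts

/-!
# Block AW, item SEL: selection of rows
-/

set_option autoImplicit false

namespace Pool.Agent.Work.MP_e0c7e8_nt.AW

open Finset

namespace I_SEL

/-- Injective tuples in a finite set. -/
theorem inj_ge {α : Type} [DecidableEq α] (k : ℕ) (D : Finset α) :
    (D.card + 1 - k) ^ k ≤
      ((Fintype.piFinset fun _ : Fin k => D).filter Function.Injective).card := by
  refine (Nat.pow_sub_le_descFactorial D.card k).trans ?_
  have h1 : Fintype.card (Fin k ↪ D) = D.card.descFactorial k := by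
    rw [Fintype.card_embedding_eq, Fintype.card_coe, Fintype.card_fin]
  rw [← h1, ← Finset.card_univ]
  refine Finset.card_le_card_of_injOn (fun e : Fin k ↪ D => fun j => ((e j : D) : α)) ?_ ?_
  · intro e _
    rw [Finset.mem_coe, Finset.mem_filter, Fintype.mem_piFinset]
    refine ⟨fun j => (e j).2, fun i j hij => e.injective (Subtype.ext hij)⟩
  · intro e _ e' _ h
    ext j
    exact congrFun h j

end I_SEL

theorem SEL_pf : S_SEL := by
  intro k α β _ _ A B H E N1 M θ e κ hk hN1 hM hθ he hκ hA hB hH hdens hE h4k hlt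
  classical
  by_contra hcon
  push Not at hcon
  -- neighbours
  set D : β → Finset α := fun b => A.filter fun a => (a, b) ∈ H with hD
  set I : Finset (Fin k → α) :=
    (Fintype.piFinset fun _ : Fin k => A).filter Function.Injective with hI
  set CN : (Fin k → α) → Finset β := fun p => B.filter fun b => ∀ j, (p j, b) ∈ H with hCN
  -- sum of degrees
  have hsumD : ((H.card : ℕ) : ℝ) = ∑ b ∈ B, ((D b).card : ℝ) := by
    have h1 : H.card = ∑ b ∈ B, (D b).card := by
      rw [Finset.card_eq_sum_card_fiberwise (f := Prod.snd) (t := B)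
        (fun x hx => (Finset.mem_product.1 (hH hx)).2)]
      refine Finset.sum_congr rfl fun b hb => ?_
      refine Finset.card_bij' (fun x _ => x.1) (fun a _ => (a, b)) ?_ ?_ ?_ ?_
      · intro x hx
        rw [Finset.mem_filter] at hx
        rw [hD, Finset.mem_filter]
        refine ⟨(Finset.mem_product.1 (hH hx.1)).1, ?_⟩
        have : (x.1, b) = x := by rw [← hx.2]
        rw [this]; exact hx.1
      · intro a ha
        rw [hD, Finset.mem_filter] at ha
        rw [Finset.mem_filter]
        exact ⟨ha.2, rfl⟩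
      · intro x hx
        rw [Finset.mem_filter] at hx
        rw [← hx.2]
      · intro a ha
        rfl
    rw [h1]; push_cast; rfl
  -- double counting
  have hdc : ∑ p ∈ I, ((CN p).card : ℝ) = ∑ b ∈ B,
      ((((Fintype.piFinset fun _ : Fin k => D b).filter Function.Injective).card : ℕ) : ℝ) := by
    have h1 : ∀ p, ((CN p).card : ℝ) = ∑ b ∈ B, if (∀ j, (p j, b) ∈ H) then (1 : ℝ) else 0 := by
      intro p
      rw [hCN, Finset.card_filter]; push_cast; rfl
    have h2 : ∀ b ∈ B,
        ((((Fintype.piFinset fun _ : Fin k => D b).filter Function.Injective).card : ℕ) : ℝ)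
        = ∑ p ∈ I, if (∀ j, (p j, b) ∈ H) then (1 : ℝ) else 0 := by
      intro b _
      have h3 : (Fintype.piFinset fun _ : Fin k => D b).filter Function.Injective
          = I.filter fun p => ∀ j, (p j, b) ∈ H := by
        ext p
        simp only [hI, hD, Finset.mem_filter, Fintype.mem_piFinset]
        constructor
        · rintro ⟨h, hinj⟩
          exact ⟨⟨fun j => (h j).1, hinj⟩, fun j => (h j).2⟩
        · rintro ⟨⟨h, hinj⟩, h'⟩
          exact ⟨fun j => ⟨h j, h' j⟩, hinj⟩
      rw [h3, Finset.card_filter]; push_cast; rfl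
    rw [Finset.sum_congr rfl h2, Finset.sum_comm]
    exact Finset.sum_congr rfl fun p _ => h1 p
  -- upper bound
  have hup : ∑ p ∈ I, ((CN p).card : ℝ) ≤ (e + κ) * (N1 ^ k * M) := by
    have hCNle : ∀ p, ((CN p).card : ℝ) ≤ M := by
      intro p
      refine le_trans ?_ hB
      exact_mod_cast Finset.card_le_card (Finset.filter_subset _ _)
    have hpt : ∀ p ∈ I, ((CN p).card : ℝ) ≤ (if p ∈ E then M else 0) + κ * M := by
      intro p hp
      rw [hI, Finset.mem_filter, Fintype.mem_piFinset] at hp
      by_cases hpE : p ∈ E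
      · rw [if_pos hpE]
        have : 0 ≤ κ * M := mul_nonneg hκ hM.le
        linarith [hCNle p]
      · rw [if_neg hpE, zero_add]
        exact (hcon p hp.2 hp.1 hpE).le
    have hIcard : (I.card : ℝ) ≤ N1 ^ k := by
      have h1 : I.card ≤ A.card ^ k := by
        refine (Finset.card_le_card (Finset.filter_subset _ _)).trans ?_
        rw [Fintype.card_piFinset]; simp
      calc (I.card : ℝ) ≤ ((A.card ^ k : ℕ) : ℝ) := by exact_mod_cast h1
        _ = (A.card : ℝ) ^ k := by push_cast; rfl
        _ ≤ N1 ^ k := pow_le_pow_left₀ (by positivity) hA k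
    have hEI : ((I.filter (· ∈ E)).card : ℝ) ≤ e * N1 ^ k := by
      refine le_trans ?_ hE
      have : I.filter (· ∈ E) ⊆ E := by
        intro p hp
        exact (Finset.mem_filter.1 hp).2
      exact_mod_cast Finset.card_le_card this
    calc ∑ p ∈ I, ((CN p).card : ℝ)
        ≤ ∑ p ∈ I, ((if p ∈ E then M else 0) + κ * M) := Finset.sum_le_sum hpt
      _ = ((I.filter (· ∈ E)).card : ℝ) * M + (I.card : ℝ) * (κ * M) := by
          rw [Finset.sum_add_distrib, ← Finset.sum_filter, Finset.sum_const, Finset.sum_const,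
            nsmul_eq_mul, nsmul_eq_mul]
      _ ≤ (e * N1 ^ k) * M + N1 ^ k * (κ * M) := by
          gcongr
      _ = (e + κ) * (N1 ^ k * M) := by ring
  -- lower bound
  have hlow : (θ / 4) ^ k * (N1 ^ k * M) ≤ ∑ b ∈ B,
      ((((Fintype.piFinset fun _ : Fin k => D b).filter Function.Injective).card : ℕ) : ℝ) := by
    obtain ⟨k', rfl⟩ : ∃ k', k = k' + 1 := ⟨k - 1, by omega⟩
    have hpt : ∀ b ∈ B, (θ * N1 / 4) ^ k' * (((D b).card : ℝ) / 2 - θ * N1 / 4) ≤
      ((((Fintype.piFinset fun _ : Fin (k' + 1) => D b).filter Function.Injective).card : ℕ) :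
        ℝ) := by
      intro b _
      by_cases hb : θ * N1 / 2 ≤ ((D b).card : ℝ)
      · have h1 : (((D b).card + 1 - (k' + 1)) ^ (k' + 1) : ℕ) ≤
            ((Fintype.piFinset fun _ : Fin (k' + 1) => D b).filter Function.Injective).card :=
          I_SEL.inj_ge (k' + 1) (D b)
        have hkle : (2 * ((k' : ℝ) + 1)) ≤ ((D b).card : ℝ) := by
          have : (4 * ((k' + 1 : ℕ) : ℝ)) ≤ θ * N1 := h4k
          push_cast at this
          linarith
        have hkle' : k' + 1 ≤ (D b).card := by
          have : ((k' + 1 : ℕ) : ℝ) ≤ ((D b).card : ℝ) := by push_cast; linarith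
          exact_mod_cast this
        have h2 : ((D b).card : ℝ) / 2 ≤ (((D b).card + 1 - (k' + 1) : ℕ) : ℝ) := by
          rw [Nat.cast_sub (by omega)]
          push_cast
          linarith
        have h3 : θ * N1 / 4 ≤ (((D b).card + 1 - (k' + 1) : ℕ) : ℝ) := by linarith
        have h0 : 0 ≤ θ * N1 / 4 := by positivity
        calc (θ * N1 / 4) ^ k' * (((D b).card : ℝ) / 2 - θ * N1 / 4)
            ≤ (θ * N1 / 4) ^ k' * (((D b).card : ℝ) / 2) := by
              refine mul_le_mul_of_nonneg_left ?_ (pow_nonneg h0 _)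
              linarith
          _ ≤ (((D b).card + 1 - (k' + 1) : ℕ) : ℝ) ^ k' *
                (((D b).card + 1 - (k' + 1) : ℕ) : ℝ) := by
              refine mul_le_mul (pow_le_pow_left₀ h0 h3 _) h2 (by positivity) (by positivity)
          _ = ((((D b).card + 1 - (k' + 1)) ^ (k' + 1) : ℕ) : ℝ) := by
              rw [Nat.cast_pow, pow_succ]
          _ ≤ _ := by exact_mod_cast h1
      · have hneg : ((D b).card : ℝ) / 2 - θ * N1 / 4 ≤ 0 := by linarith
        have h0 : 0 ≤ (θ * N1 / 4) ^ k' := by positivity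
        exact le_trans (mul_nonpos_of_nonneg_of_nonpos h0 hneg) (Nat.cast_nonneg _)
    refine le_trans ?_ (Finset.sum_le_sum hpt)
    rw [← Finset.mul_sum, Finset.sum_sub_distrib, ← Finset.sum_div, ← hsumD, Finset.sum_const,
      nsmul_eq_mul]
    have h5 : (B.card : ℝ) * (θ * N1 / 4) ≤ M * (θ * N1 / 4) :=
      mul_le_mul_of_nonneg_right hB (by positivity)
    have h6 : θ * N1 / 4 * M ≤ (H.card : ℝ) / 2 - (B.card : ℝ) * (θ * N1 / 4) := by
      nlinarith
    calc (θ / 4) ^ (k' + 1) * (N1 ^ (k' + 1) * M)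
        = (θ * N1 / 4) ^ k' * (θ * N1 / 4 * M) := by
          rw [pow_succ, pow_succ, div_pow, div_pow, mul_pow]; ring
      _ ≤ _ := mul_le_mul_of_nonneg_left h6 (by positivity)
  rw [hdc] at hup
  have hpos : 0 < N1 ^ k * M := by positivity
  have := lt_of_lt_of_le (mul_lt_mul_of_pos_right hlt hpos) (hlow.trans hup)
  exact lt_irrefl _ this

end Pool.Agent.Work.MP_e0c7e8_nt.AW
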