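import Pool.Agent.Work.MP_e0c7e8_nt.AW.Stmts
import Pool.Agent.Work.MP_e0c7e8_nt.AV.I_TYP

/-!
# Item TY2 of the block AW: roots that are products of two functions
-/

set_option autoImplicit false

namespace Pool.Agent.Work.MP_e0c7e8_nt.AW

open Finset Pool.Agent.Work.MP_e0c7e8_nt.SM Pool.Agent.Work.MP_e0c7e8_nt.BG
  Pool.Agent.Work.MP_e0c7e8_nt.AV

theorem TY2_pf : S_TY2 := by
  classical
  intro G α β _ _ _ _ L hL H a b l u hu
  let S : Subgroup G := (powMonoidHom 2 : G →* G).range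
  have hs : ∀ x : G, ∃ s : G, s ^ 2 = Quotient.out (QuotientGroup.mk x : G ⧸ S) * x := by
    intro x
    have h1 : (QuotientGroup.mk (Quotient.out (QuotientGroup.mk x : G ⧸ S)) : G ⧸ S) =
        QuotientGroup.mk x := QuotientGroup.out_eq' _
    rw [QuotientGroup.eq] at h1
    obtain ⟨y, hy⟩ := h1
    refine ⟨Quotient.out (QuotientGroup.mk x : G ⧸ S) * y, ?_⟩
    have h2 : y ^ 2 = (Quotient.out (QuotientGroup.mk x : G ⧸ S))⁻¹ * x := hy
    rw [mul_pow, h2, sq, mul_assoc, mul_inv_cancel_left]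
  choose s hs using hs
  let ka : α × β → G := fun P => u P * (s (a P.1))⁻¹
  let cls : α × β → G ⧸ S := fun P => QuotientGroup.mk (a P.1)
  have hka : ∀ P ∈ H, ka P ^ 2 = l * (b P.2 * (Quotient.out (cls P))⁻¹) := by
    intro P hP
    have h1 : ka P ^ 2 = u P ^ 2 * (s (a P.1) ^ 2)⁻¹ := by
      simp only [ka]
      rw [mul_pow, inv_pow]
    rw [h1, hs, hu P hP, mul_inv, mul_assoc]
    congr 1
    change a P.1 * b P.2 * ((Quotient.out (cls P))⁻¹ * (a P.1)⁻¹) = _
    rw [mul_comm ((Quotient.out (cls P))⁻¹), ← mul_assoc, mul_comm (a P.1), mul_assoc (b P.2),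
      mul_inv_cancel, mul_one]
  let rep : (G ⧸ S) × β → G := fun q =>
    if h : ∃ P ∈ H, cls P = q.1 ∧ P.2 = q.2 then ka h.choose else 1
  have hrep : ∀ P ∈ H, (ka P * (rep (cls P, P.2))⁻¹) ^ 2 = 1 := by
    intro P hP
    have h : ∃ P' ∈ H, cls P' = cls P ∧ P'.2 = P.2 := ⟨P, hP, rfl, rfl⟩
    have h1 : rep (cls P, P.2) = ka h.choose := dif_pos h
    have h2 := hka _ h.choose_spec.1
    rw [h.choose_spec.2.1, h.choose_spec.2.2] at h2
    rw [mul_pow, inv_pow, h1, h2, hka P hP, mul_inv_cancel]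
  have : Fintype G := Fintype.ofFinite G
  have : Fintype (G ⧸ S) := Fintype.ofFinite _
  let f : α × β → (G ⧸ S) × G := fun P => (cls P, ka P * (rep (cls P, P.2))⁻¹)
  let t : Finset ((G ⧸ S) × G) := Finset.univ ×ˢ (Finset.univ.filter fun x : G => x ^ 2 = 1)
  have hf : ∀ P ∈ H, f P ∈ t := by
    intro P hP
    simp only [t, f, Finset.mem_product, Finset.mem_univ, true_and, Finset.mem_filter]
    exact hrep P hP
  have ht : t.Nonempty := ⟨(QuotientGroup.mk 1, 1), by simp [t]⟩
  have hcard : t.card ≤ L ^ 2 := by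
    have h1 : (Finset.univ.filter fun x : G => x ^ 2 = 1).card ≤ L := by
      rw [← Fintype.card_subtype, ← Nat.card_eq_fintype_card]
      exact hL
    have h2 : Fintype.card (G ⧸ S) ≤ L := by
      rw [← Nat.card_eq_fintype_card]
      exact (AV.I_TYP.card_quot G).le.trans hL
    calc t.card = Fintype.card (G ⧸ S) *
          (Finset.univ.filter fun x : G => x ^ 2 = 1).card := by
          rw [Finset.card_product, Finset.card_univ]
      _ ≤ L * L := Nat.mul_le_mul h2 h1
      _ = L ^ 2 := (sq L).symm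
  obtain ⟨y, hy, hmax⟩ := Finset.exists_max_image t (fun y => (H.filter fun P => f P = y).card) ht
  refine ⟨H.filter fun P => f P = y, Finset.filter_subset _ _, ?_, Quotient.out y.1,
    fun x => s (a x), fun z => y.2 * rep (y.1, z), ?_, ?_⟩
  · have h1 := Finset.card_le_mul_card_image_of_maps_to hf
      (H.filter fun P => f P = y).card hmax
    calc H.card ≤ (H.filter fun P => f P = y).card * t.card := h1
      _ ≤ (H.filter fun P => f P = y).card * L ^ 2 := Nat.mul_le_mul_left _ hcard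
      _ = L ^ 2 * (H.filter fun P => f P = y).card := mul_comm _ _
  · intro P hP
    obtain ⟨hPH, hPy⟩ := Finset.mem_filter.1 hP
    have h1 : cls P = y.1 := congrArg Prod.fst hPy
    have h2 : ka P * (rep (cls P, P.2))⁻¹ = y.2 := congrArg Prod.snd hPy
    change u P = s (a P.1) * (y.2 * rep (y.1, P.2))
    rw [← h2, ← h1, inv_mul_cancel_right]
    simp only [ka]
    rw [mul_comm (u P), mul_inv_cancel_left]
  · intro P hP
    obtain ⟨hPH, hPy⟩ := Finset.mem_filter.1 hP
    have h1 : cls P = y.1 := congrArg Prod.fst hPy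
    rw [← h1]
    exact hs _

end Pool.Agent.Work.MP_e0c7e8_nt.AW
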