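import Pool.Agent.Work.MP_e0c7e8_nt.AV.I_AVG
import Pool.Agent.Work.MP_e0c7e8_nt.AV.I_BAD
import Pool.Agent.Work.MP_e0c7e8_nt.AV.I_CCP
import Pool.Agent.Work.MP_e0c7e8_nt.AV.I_CL1
import Pool.Agent.Work.MP_e0c7e8_nt.AV.I_CL2
import Pool.Agent.Work.MP_e0c7e8_nt.AV.I_CLP
import Pool.Agent.Work.MP_e0c7e8_nt.AV.I_CSG
import Pool.Agent.Work.MP_e0c7e8_nt.AV.I_DVB
import Pool.Agent.Work.MP_e0c7e8_nt.AV.I_GDS
import Pool.Agent.Work.MP_e0c7e8_nt.AV.I_NUU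
import Pool.Agent.Work.MP_e0c7e8_nt.AV.I_NZM
import Pool.Agent.Work.MP_e0c7e8_nt.AV.I_QFN
import Pool.Agent.Work.MP_e0c7e8_nt.AV.I_R1
import Pool.Agent.Work.MP_e0c7e8_nt.AV.I_RT1
import Pool.Agent.Work.MP_e0c7e8_nt.AV.I_RT2
import Pool.Agent.Work.MP_e0c7e8_nt.AV.I_SLS
import Pool.Agent.Work.MP_e0c7e8_nt.AV.I_SQC
import Pool.Agent.Work.MP_e0c7e8_nt.AV.I_TRV
import Pool.Agent.Work.MP_e0c7e8_nt.AW.I_BG2
import Pool.Agent.Work.MP_e0c7e8_nt.AW.I_EXB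
import Pool.Agent.Work.MP_e0c7e8_nt.AW.I_FD2
import Pool.Agent.Work.MP_e0c7e8_nt.AW.I_FN2
import Pool.Agent.Work.MP_e0c7e8_nt.AW.I_FT2
import Pool.Agent.Work.MP_e0c7e8_nt.AW.I_FX2
import Pool.Agent.Work.MP_e0c7e8_nt.AW.I_GS2
import Pool.Agent.Work.MP_e0c7e8_nt.AW.I_MA2
import Pool.Agent.Work.MP_e0c7e8_nt.AW.I_MB2
import Pool.Agent.Work.MP_e0c7e8_nt.AW.I_NCA
import Pool.Agent.Work.MP_e0c7e8_nt.AW.I_PIG
import Pool.Agent.Work.MP_e0c7e8_nt.AW.I_PR2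
import Pool.Agent.Work.MP_e0c7e8_nt.AW.I_QI2
import Pool.Agent.Work.MP_e0c7e8_nt.AW.I_QJ2
import Pool.Agent.Work.MP_e0c7e8_nt.AW.I_SEL
import Pool.Agent.Work.MP_e0c7e8_nt.AW.I_TY2
import Pool.Agent.Work.MP_e0c7e8_nt.BG.I_TWO
import Pool.Agent.Work.MP_e0c7e8_nt.SM.Main
import Pool.Agent.Work.MP_e0c7e8_nt.SM.MainX

/-!
# The average of `k`-torsion below Heath-Brown and Pierce: assembly
-/

set_option autoImplicit false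

namespace Pool.Agent.Work.MP_e0c7e8_nt.AW

open Finset Pool.Agent.Work.MP_e0c7e8_nt.SM Pool.Agent.Work.MP_e0c7e8_nt.BG
  Pool.Agent.Work.MP_e0c7e8_nt.AV

theorem c1a1_all : ClaimC1a1 := claimC1a1 claimC0

theorem c1a_all : ClaimC1a := claimC1a c1a1_all

theorem c1c_all : ClaimC1c := claimC1c claimC1b claimN1

theorem c2b1_all : ClaimC2b1 := claimC2b1 claimC0

theorem X4_all : ClaimX4 := claimX4 claimX5 claimX6 (claimX8 (claimX7 claimS1)) claimX9 claimX10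

theorem TRV_all : S_TRV := TRV_pf (NUU_pf RT2_pf) QFN_pf

theorem GDS_all : S_GDS :=
  GDS_pf (CLP_pf claimC2b0 (CL1_pf c2b1_all) (CL2_pf claimC0 c2b1_all)) CSG_pf CCP_pf SLS_pf
    QFN_pf c1a_all

theorem MP2_all : S_MP2 :=
  MP2_pf (MA2_pf AVG_pf DVB_pf (EXB_pf NZM_pf) NCA_pf PR2_pf)
    (MB2_pf (FX2_pf PIG_pf (FT2_pf TY2_pf) SEL_pf R1_pf) RT1_pf DVB_pf PR2_pf)

theorem FN2_all : S_FN2 :=
  FN2_pf (FD2_pf PR2_pf (BAD_pf X4_all SQC_pf)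
    (GS2_pf GDS_all (QI2_pf QFN_pf TRV_all DVB_pf PR2_pf)
      (QJ2_pf QFN_pf TRV_all (BG2_pf (NUU_pf RT2_pf) QFN_pf) MP2_all DVB_pf PR2_pf) PR2_pf c1a_all
      c1c_all) c1a_all c1c_all) (TWO_pf claimC0 c1a1_all c1a_all)

end Pool.Agent.Work.MP_e0c7e8_nt.AW
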