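import Pool.Agent.Work.MP_e0c7e8_nt.AV.StmtsI

/-!
# The average of `k`-torsion below Heath-Brown and Pierce, saving `1 / (13 m^3)`: statements

A simpler argument with a much better exponent (note 4539 is the first version; the second version
is described in the docstrings here). Every item `S_XXX` is proved in its own file `AW/I_XXX.lean` as
`theorem XXX_pf (h₁ : S_YYY) ... : S_XXX`; the hypotheses may be any EARLIER statements here and any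
`S_..` of `AV` and `BG`, `Claim..` of `SM` (all proved on main; direct use is fine too).

Idea. `n = p x z` with `p ∈ A` (rows), `x ∈ B`, `z ∈ C` (columns `(x, z)`). For one modulus `w` with
many small roots `u(p, x, z)`, `u^2 = l (p x z)^m` modulo `w^2`: pass to a dense subset with
`u = g(p) h(x, z)` modulo `w^2`; choose a `k`-tuple of rows `p_1..p_k` without small relations, with
many common columns; all columns `(u(p_j, c))_j` are parallel (`AV.S_R1`); two common columns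
`c = (x, z)`, `c' = (x', z)` have the same `z`; `u(p_j, c) = a s_j`, `u(p_j, c') = a' s_j` with
coprime `a, a'`. As the rows have no small relation, `max |s_j|` is at least about `Y^(k-1)`
(pigeonhole), so `a, a'` are small, and `w^2` divides `x'^m a^2 - x^m a'^2 ≠ 0`: too large.
-/

set_option autoImplicit false

namespace Pool.Agent.Work.MP_e0c7e8_nt.AW

open Finset Pool.Agent.Work.MP_e0c7e8_nt.SM Pool.Agent.Work.MP_e0c7e8_nt.BG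
  Pool.Agent.Work.MP_e0c7e8_nt.AV

/-! ## Definitions -/

open Classical in
/-- The points `(p, (x, z))` of `A × B × C`, prime to `w`, such that `l (p x z)^m` has a square root
modulo `w^2` of size at most `U`. -/
noncomputable def HT (m l U w : ℕ) (A B C : Finset ℕ) : Finset (ℕ × (ℕ × ℕ)) :=
  (A ×ˢ (B ×ˢ C)).filter fun x => (x.1.Coprime w ∧ x.2.1.Coprime w ∧ x.2.2.Coprime w) ∧
    ∃ u : ℤ, |u| ≤ (U : ℤ) ∧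
      (w : ℤ) ^ 2 ∣ u ^ 2 - (l : ℤ) * ((x.1 : ℤ) * ((x.2.1 : ℤ) * (x.2.2 : ℤ))) ^ m

open Classical in
/-- The `k`-tuples of different rows with a small relation. -/
noncomputable def EX3 (m k Y w : ℕ) (A : Finset ℕ) : Finset (Fin k → ℕ) :=
  (Fintype.piFinset fun _ => A).filter fun p => Function.Injective p ∧ ∃ y, Rel m k Y w p y

open Classical in
/-- The nontrivial collisions of columns. -/
noncomputable def NC (m w : ℕ) (B C : Finset ℕ) : Finset ((ℕ × ℕ) × (ℕ × ℕ)) :=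
  ((B ×ˢ C) ×ˢ (B ×ˢ C)).filter fun z => z.1.1 * z.1.2 ≠ z.2.1 * z.2.2 ∧
    (w : ℤ) ^ 2 ∣ ((z.1.1 : ℤ) * (z.1.2 : ℤ)) ^ m - ((z.2.1 : ℤ) * (z.2.2 : ℤ)) ^ m

/-- The number of rows. -/
def k2 (m : ℕ) : ℕ := 2 * m

/-- The size parameter. -/
def t2 (m : ℕ) : ℕ := 6 * m ^ 2 - 4 * m

/-- The saving is `P ^ b2`. -/
def b2 (m : ℕ) : ℕ := m + 1

/-- The exponent of the small densities. -/
def q2 (m : ℕ) : ℕ := (m + 2) * k2 m + 1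

/-- The number of primes of an ideal. -/
def J2 (m : ℕ) : ℕ := 3 * t2 m + 1

/-- `X` is about `P ^ K2`. -/
def K2 (m : ℕ) : ℕ := (2 * m + 2) * t2 m

/-- `w` is at most `3 P ^ a2`. -/
def a2 (m : ℕ) : ℕ := (2 * m - 1) * t2 m + m

/-- The coefficients of the relations are at most `P ^ y2`. -/
def y2 (m : ℕ) : ℕ := (a2 m - b2 m - q2 m - 2) / k2 m

/-- The number of primes of `p`. -/
def n1 (m : ℕ) : ℕ := m + 3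

/-- The number of primes of `x`. -/
def n2 (m : ℕ) : ℕ := q2 m + 2

/-- The number of primes of `z`. -/
def n3 (m : ℕ) : ℕ := 2 * J2 m - n1 m - n2 m

/-! ## Tools -/

/-- [PIG] vectors without small relations are not small: the `(Y + 1)^k` sums `∑ y_j s_j`,
`0 ≤ y_j ≤ Y`, are different and in `[-kYS, kYS]`. -/
def S_PIG : Prop := ∀ (k Y S : ℕ) (s : Fin k → ℤ), (∀ j, |s j| ≤ (S : ℤ)) →
  (∀ y : Fin k → ℤ, y ≠ 0 → (∀ j, |y j| ≤ (Y : ℤ)) → ∑ j, y j * s j ≠ 0) →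
  (Y + 1) ^ k ≤ 2 * (k * Y * S) + 1

/-- [TY2] roots that are products of two functions. `G / G^2` has as many elements as `G[2]`. Fix the
class `q` of `a P.1` (pigeonhole, `L` classes), a representative `r` of it, and `g` with
`g(α)^2 = r a(α)`. Then `(u P / g P.1)^2 = l b(P.2) / r` depends only on `P.2`: choose a root
`t (P.2)` and use the pigeonhole principle for `u P / (g P.1 t P.2) ∈ G[2]`. -/
def S_TY2 : Prop := ∀ (G α β : Type) [CommGroup G] [Finite G] [DecidableEq α] [DecidableEq β]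
  (L : ℕ), Nat.card {x : G // x ^ 2 = 1} ≤ L → ∀ (H : Finset (α × β)) (a : α → G) (b : β → G)
    (l : G) (u : α × β → G), (∀ P ∈ H, u P ^ 2 = l * (a P.1 * b P.2)) →
  ∃ H' ⊆ H, H.card ≤ L ^ 2 * H'.card ∧ ∃ (c : G) (g : α → G) (h : β → G),
    (∀ P ∈ H', u P = g P.1 * h P.2) ∧ ∀ P ∈ H', g P.1 ^ 2 = c * a P.1

/-- [FT2] the same for `HT` (`TY2` with `G` the units of `ZMod (w^2)`, `a p = p^m`,
`b (x, z) = (x z)^m`; a small root is a unit as `l`, `p`, `x`, `z` are prime to `w`). -/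
def S_FT2 : Prop := ∀ (m l U w L : ℕ) (A B C : Finset ℕ), 1 ≤ m → 2 ≤ w → l.Coprime w →
  Nat.card {x : (ZMod (w ^ 2))ˣ // x ^ 2 = 1} ≤ L →
  ∃ H ⊆ HT m l U w A B C, (HT m l U w A B C).card ≤ L ^ 2 * H.card ∧
    ∃ (u : ℕ × (ℕ × ℕ) → ℤ) (c : (ZMod (w ^ 2))ˣ) (g : ℕ → (ZMod (w ^ 2))ˣ)
      (h : ℕ × ℕ → (ZMod (w ^ 2))ˣ), ∀ x ∈ H, |u x| ≤ (U : ℤ) ∧
        (w : ℤ) ^ 2 ∣ u x ^ 2 - (l : ℤ) * ((x.1 : ℤ) * ((x.2.1 : ℤ) * (x.2.2 : ℤ))) ^ m ∧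
        ((u x : ℤ) : ZMod (w ^ 2)) = (g x.1 : ZMod (w ^ 2)) * (h x.2 : ZMod (w ^ 2)) ∧
        (g x.1 : ZMod (w ^ 2)) ^ 2 = (c : ZMod (w ^ 2)) * ((x.1 : ℕ) : ZMod (w ^ 2)) ^ m

/-- [SEL] selection of rows. `deg b` = number of `a` with `(a, b) ∈ H`. The `b` with
`deg b ≥ θ N1 / 2 ≥ 2 k` have `∑ deg ≥ θ N1 M / 2`; each has at least `(deg b - k)^k ≥ (deg b / 2)^k`
injective `k`-tuples of neighbours; power means: the sum over injective `p` of the number of common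
neighbours is at least `(θ / 4)^k N1^k M`. The `p ∈ E` contribute at most `e N1^k M`, and those with
fewer than `κ M` common neighbours less than or equal to `κ N1^k M`. -/
def S_SEL : Prop := ∀ (k : ℕ) (α β : Type) [DecidableEq α] [DecidableEq β] (A : Finset α)
  (B : Finset β) (H : Finset (α × β)) (E : Finset (Fin k → α)) (N1 M θ e κ : ℝ), 1 ≤ k →
  0 < N1 → 0 < M → 0 < θ → 0 ≤ e → 0 ≤ κ → (A.card : ℝ) ≤ N1 → (B.card : ℝ) ≤ M → H ⊆ A ×ˢ B →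
  θ * (N1 * M) ≤ (H.card : ℝ) → (E.card : ℝ) ≤ e * N1 ^ k → 4 * k ≤ θ * N1 →
  e + κ < (θ / 4) ^ k →
  ∃ p : Fin k → α, Function.Injective p ∧ (∀ j, p j ∈ A) ∧ p ∉ E ∧
    κ * M ≤ ((B.filter fun b => ∀ j, (p j, b) ∈ H).card : ℝ)

/-- [EXB] the exceptional tuples on average (`AV.S_NZM`; as `AV/I_EXA.lean`). -/
def S_EXB : Prop := ∀ (m k Y N1 T W0 W1 : ℕ) (A : Finset ℕ), Odd m → 1 ≤ k →
  (∀ n ∈ A, 1 ≤ n ∧ n ≤ N1 ∧ Squarefree n) →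
  (∀ M : ℕ, M ≠ 0 → M ≤ (k * Y * N1 ^ m) ^ (2 ^ k) → M.divisors.card ≤ T) →
  ∑ w ∈ Ioc W0 W1, (EX3 m k Y w A).card ≤ N1 ^ k * (2 * Y + 1) ^ k * T

/-- [NCA] the nontrivial collisions on average: `w^2` divides a nonzero number of absolute value at
most `(N2 N3)^m` (as `AV/I_COA.lean`). -/
def S_NCA : Prop := ∀ (m N2 N3 T W0 W1 : ℕ) (B C : Finset ℕ), 1 ≤ m →
  (∀ n ∈ B, 1 ≤ n ∧ n ≤ N2) → (∀ n ∈ C, 1 ≤ n ∧ n ≤ N3) →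
  (∀ M : ℕ, M ≠ 0 → M ≤ (N2 * N3) ^ m → M.divisors.card ≤ T) →
  ∑ w ∈ Ioc W0 W1, (NC m w B C).card ≤ (N2 * N3) ^ 2 * T

/-! ## One modulus -/

/-- [FX2] few points for one modulus. `M = N2 N3`. `FT2` gives `H` with
`|H| ≥ (θ / L2^2) N1 M`; `SEL` (with `θ / L2^2`, the set of columns `B ×ˢ C`, `E = EX3`) gives
different rows `p_j` without small relation and a set `CC` of at least `κ M` common columns. At
least `κ M / 2` columns are in no element of `NC`; columns `c, c'` outside `NC` with equal values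
`u (p_0, c) = u (p_0, c')` have the same product `x z`, so there are at most `T` columns outside
`NC` with the same value; the number `V` of different vectors `(u (p_j, c))_j` satisfies
`κ M / 2 ≤ V T`. `AV.S_R1`: all vectors are parallel. As `N3 < κ M` there are two common columns
`(x, z)`, `(x', z)`, `x ≠ x'`. `u (p_j, x', z) / u (p_j, x, z) = a' / a` in lowest terms,
`u (p_j, x, z) = a s_j`, `u (p_j, x', z) = a' s_j`, `|s_j| max(|a|, |a'|) ≤ U`; `PIG` with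
`S = U / max(|a|, |a'|)`: `max(|a|, |a'|) ((Y + 1)^k - 1) ≤ 2 k Y U`. Squares:
`w^2 ∣ l (p z)^m (x'^m a^2 - x^m a'^2)`, and the last factor is not zero (`x ≠ x'` squarefree, `m`
odd) and at most `N2^m max(a^2, a'^2)`. -/
def S_FX2 : Prop := ∀ (m k l U w Y N1 N2 N3 L2 T : ℕ) (A B C : Finset ℕ) (θ e κ : ℝ),
  Odd m → 1 ≤ k → 2 ≤ w → l.Coprime w → 1 ≤ Y → 1 ≤ N1 → 1 ≤ N2 → 1 ≤ N3 → 1 ≤ L2 → 1 ≤ T →
  (∀ n ∈ A, 1 ≤ n ∧ n ≤ N1 ∧ Squarefree n) → (∀ n ∈ B, 1 ≤ n ∧ n ≤ N2 ∧ Squarefree n) →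
  (∀ n ∈ C, 1 ≤ n ∧ n ≤ N3) →
  Nat.card {x : (ZMod (w ^ 2))ˣ // x ^ 2 = 1} ≤ L2 →
  (∀ n : ℕ, n ≠ 0 → n ≤ N2 * N3 → n.divisors.card ≤ T) →
  0 < θ → 0 ≤ e → 0 < κ →
  θ * ((N1 : ℝ) * ((N2 : ℝ) * (N3 : ℝ))) ≤ ((HT m l U w A B C).card : ℝ) →
  ((EX3 m k Y w A).card : ℝ) ≤ e * (N1 : ℝ) ^ k →
  ((NC m w B C).card : ℝ) ≤ κ / 2 * ((N2 : ℝ) * (N3 : ℝ)) →
  4 * k * (L2 : ℝ) ^ 2 ≤ θ * N1 → e + κ < (θ / (4 * (L2 : ℝ) ^ 2)) ^ k →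
  k * Y * U ≤ w ^ 2 →
  (9 : ℝ) ^ k * (k.factorial : ℝ) * ((k : ℝ) * Y * U) ^ 2 * (2 * T) <
    ((Y : ℝ) + 1) ^ k * (κ * ((N2 : ℝ) * (N3 : ℝ))) * (w : ℝ) ^ 2 →
  (N3 : ℝ) < κ * ((N2 : ℝ) * (N3 : ℝ)) →
  (N2 : ℝ) ^ m * (2 * ((k : ℝ) * Y * U)) ^ 2 < (((Y : ℝ) + 1) ^ k - 1) ^ 2 * (w : ℝ) ^ 2 → False

/-! ## All moduli -/

/-- [PR2] the inequalities between the parameters. -/
def S_PR2 : Prop := ∀ m : ℕ, 5 ≤ m →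
  (2 * (m * J2 m) = 2 * a2 m + K2 m ∧ Even (K2 m) ∧ 1 ≤ y2 m ∧ 1 ≤ k2 m ∧
    k2 m * y2 m + q2 m + b2 m + 2 ≤ a2 m ∧ n1 m + n2 m ≤ J2 m ∧ n1 m + n2 m + n3 m = 2 * J2 m ∧
    1 ≤ n3 m) ∧
  (n2 m + n3 m + b2 m + q2 m + 2 ≤ a2 m ∧ y2 m + m * J2 m + 1 + 2 * b2 m ≤ 2 * a2 m ∧
    2 * y2 m + 2 * (m * J2 m) + q2 m + 2 + 2 * b2 m ≤ k2 m * y2 m + n2 m + n3 m + 2 * a2 m ∧
    m * n2 m + 2 * y2 m + 2 * (m * J2 m) + 1 + 2 * b2 m ≤ 2 * (k2 m * y2 m) + 2 * a2 m) ∧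
  (2 * ((m + 1) * J2 m) = 3 * K2 m + 2 * (m + 1) ∧ 2 * ((m + 1) * (J2 m - 1)) = 3 * K2 m ∧
    J2 m ≤ K2 m / 2 ∧ 50 * K2 m < 637 * m ^ 3 ∧ K2 m / 2 + b2 m + 1 ≤ a2 m ∧ 1 ≤ K2 m)

/-- [MA2] choice of `w` (`AV.S_AVG` with `θ = P^(-b2)`, `W = 3 P^a2`, `H = P^(2 J2)`,
`E = P^(k2 n1 - q2)`, `C = P^(n2 + n3 - q2) / 2`; `EXB` for `k = k2 m`, `Y = P^y2`, `NCA`,
`AV.S_DVB`, `PR2`). -/
def S_MA2 : Prop := ∀ m : ℕ, 5 ≤ m → Odd m → ∃ P0 : ℕ, ∀ P : ℕ, P0 ≤ P → ∀ A B C : Finset ℕ,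
  (∀ n ∈ A, 1 ≤ n ∧ n ≤ P ^ n1 m ∧ Squarefree n) →
  (∀ n ∈ B, 1 ≤ n ∧ n ≤ P ^ n2 m ∧ Squarefree n) → (∀ n ∈ C, 1 ≤ n ∧ n ≤ P ^ n3 m) →
  ∀ l : ℕ, 3 * P ^ a2 m * P ^ (2 * J2 m) < P ^ b2 m *
    ∑ w ∈ (Ioc (P ^ (a2 m - b2 m)) (3 * P ^ a2 m)).filter (fun w => l.Coprime w),
      (HT m l (2 * P ^ (m * J2 m)) w A B C).card →
  ∃ w ∈ Ioc (P ^ (a2 m - b2 m)) (3 * P ^ a2 m), l.Coprime w ∧
    P ^ (2 * J2 m) ≤ 2 * P ^ b2 m * (HT m l (2 * P ^ (m * J2 m)) w A B C).card ∧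
    P ^ q2 m * (EX3 m (k2 m) (P ^ y2 m) w A).card ≤ P ^ (k2 m * n1 m) ∧
    2 * P ^ q2 m * (NC m w B C).card ≤ P ^ (n2 m + n3 m)

/-- [MB2] no such `w` (`FX2` with `k = k2 m`, `N1 = P^n1` .., `θ = P^(-b2) / 2`,
`e = κ = P^(-q2)`, `L2 = 28 * 2^ω(w)` and `8 k L2^2 ≤ P^2`, `T ≤ P` by `AV.S_DVB` and `AV.S_RT1`;
`PR2`; `(θ / (4 L2^2))^k ≥ P^(-(m+2)k)`). -/
def S_MB2 : Prop := ∀ m : ℕ, 5 ≤ m → Odd m → ∃ P0 : ℕ, ∀ P : ℕ, P0 ≤ P → ∀ A B C : Finset ℕ,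
  (∀ n ∈ A, 1 ≤ n ∧ n ≤ P ^ n1 m ∧ Squarefree n) →
  (∀ n ∈ B, 1 ≤ n ∧ n ≤ P ^ n2 m ∧ Squarefree n) → (∀ n ∈ C, 1 ≤ n ∧ n ≤ P ^ n3 m) →
  ∀ l : ℕ, ∀ w ∈ Ioc (P ^ (a2 m - b2 m)) (3 * P ^ a2 m), l.Coprime w →
    P ^ (2 * J2 m) ≤ 2 * P ^ b2 m * (HT m l (2 * P ^ (m * J2 m)) w A B C).card →
    P ^ q2 m * (EX3 m (k2 m) (P ^ y2 m) w A).card ≤ P ^ (k2 m * n1 m) →
    2 * P ^ q2 m * (NC m w B C).card ≤ P ^ (n2 m + n3 m) → False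

/-- [MP2] the main saving (`MA2`, `MB2`). -/
def S_MP2 : Prop := ∀ m : ℕ, 5 ≤ m → Odd m → ∃ P0 : ℕ, ∀ P : ℕ, P0 ≤ P → ∀ A B C : Finset ℕ,
  (∀ n ∈ A, 1 ≤ n ∧ n ≤ P ^ n1 m ∧ Squarefree n) →
  (∀ n ∈ B, 1 ≤ n ∧ n ≤ P ^ n2 m ∧ Squarefree n) → (∀ n ∈ C, 1 ≤ n ∧ n ≤ P ^ n3 m) →
  ∀ l : ℕ, P ^ b2 m *
    ∑ w ∈ (Ioc (P ^ (a2 m - b2 m)) (3 * P ^ a2 m)).filter (fun w => l.Coprime w),
      (HT m l (2 * P ^ (m * J2 m)) w A B C).card ≤ 3 * P ^ a2 m * P ^ (2 * J2 m)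

theorem MP2_pf (hA : S_MA2) (hB : S_MB2) : S_MP2 := by
  intro m hm ho
  obtain ⟨PA, hA⟩ := hA m hm ho
  obtain ⟨PB, hB⟩ := hB m hm ho
  refine ⟨max PA PB, fun P hP A B C h1 h2 h3 l => ?_⟩
  by_contra hlt
  obtain ⟨w, hw, hl, g1, g2, g3⟩ :=
    hA P (le_trans (le_max_left _ _) hP) A B C h1 h2 h3 l (not_le.1 hlt)
  exact hB P (le_trans (le_max_right _ _) hP) A B C h1 h2 h3 l w hw hl g1 g2 g3

/-! ## Counting solutions -/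

/-- [BG2] solutions with large `v` (as `AV/I_BIG.lean`). For `v` odd put `(w, l, u'') = (v, 4, u)`,
for `v` even `(v / 2, 1, u / 2)`; `p` is the product of `j1` primes of the first set, `x` the product
of `j2` other primes of the first set (chosen in any way), `z` the product of all the other primes
of both sets: `(p, (x, z))` is a point of `HT`. It determines the union of the two sets, so there are
at most `2^(2J)` pairs of sets with the same point; at most `56 * 2^ω(v) * 2` numbers `u` for given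
sets and `v` (`AV.S_NUU`). -/
def S_BG2 : Prop := ∀ (m P J j1 j2 j3 U W0 W1 T : ℕ) (X : ℝ), 1 ≤ m → 1 ≤ J → 1 ≤ X →
  j1 + j2 ≤ J → j1 + j2 + j3 = 2 * J → 2 * P ^ (m * J) ≤ U → Real.sqrt X ≤ 2 * W0 →
  (∀ v : ℕ, 1 ≤ v → v ≤ W1 → 2 ^ v.primeFactors.card ≤ T) →
  (∀ x ∈ QS m X P J, x.2.2.2 ≤ W1) →
  ({x ∈ QS m X P J | 2 * W0 + 1 < x.2.2.2}.ncard : ℝ) ≤ 4 ^ J * (112 * T) *
    (∑ w ∈ (Ioc W0 W1).filter (fun w => Nat.Coprime 4 w),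
        ((HT m 4 U w (NN P j1) (NN P j2) (NN P j3)).card : ℝ) +
      ∑ w ∈ (Ioc W0 W1).filter (fun w => Nat.Coprime 1 w),
        ((HT m 1 U w (NN P j1) (NN P j2) (NN P j3)).card : ℝ))

/-- [QI2] fewer than `J2` primes in each set (as `AV/I_QIB.lean`, with `1 / 200` instead of `1 / 8`:
`AV.S_QFN`, `AV.S_TRV`, `AV.S_DVB`, `PR2`). -/
def S_QI2 : Prop := ∀ m : ℕ, 5 ≤ m → ∃ (P0 : ℕ) (C : ℝ), 0 < C ∧ ∀ (P : ℕ) (X : ℝ), P0 ≤ P →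
  (P : ℝ) ^ K2 m ≤ X → X ≤ (2 * P : ℝ) ^ K2 m → ∀ i, 1 ≤ i → i < J2 m →
  ((QS m X P i).ncard : ℝ) * (P : ℝ) ^ (K2 m / 2) ≤
    C * (P : ℝ) ^ ((1 : ℝ) / 200) * ((P : ℝ) ^ (2 * i + K2 m) + (P : ℝ) ^ ((2 + m) * i))

/-- [QJ2] `J2` primes in each set (as `AV/I_QJB.lean`: `AV.S_QFN`, `AV.S_TRV` with
`V = 2 P^(a2 - b2) + 1`, `BG2` with `J = J2`, `j1 = n1`, .., `W0 = P^(a2 - b2)`, `W1 = 3 P^a2`, `MP2`,
`AV.S_DVB`, `PR2`; the elements of `NN P j` are squarefree and at most `P^j`). -/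
def S_QJ2 : Prop := ∀ m : ℕ, 5 ≤ m → Odd m → ∃ (P0 : ℕ) (C : ℝ), 0 < C ∧ ∀ (P : ℕ) (X : ℝ),
  P0 ≤ P → (P : ℝ) ^ K2 m ≤ X → X ≤ (2 * P : ℝ) ^ K2 m →
  ((QS m X P (J2 m)).ncard : ℝ) * (P : ℝ) ^ (K2 m / 2 + b2 m) ≤
    C * (P : ℝ) ^ ((1 : ℝ) / 200) *
      ((P : ℝ) ^ (2 * J2 m + K2 m + b2 m) + (P : ℝ) ^ ((2 + m) * J2 m))

/-! ## Assembly -/

/-- [GS2] the discriminants with many split primes (as `AV/I_GSM.lean`, by helper29). -/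
def S_GS2 : Prop := ∀ m : ℕ, 5 ≤ m → Odd m → ∃ (X0 : ℝ) (C : ℝ), 1 ≤ X0 ∧ 0 < C ∧
  ∀ (X : ℝ) (Ds : Finset ℤ), X0 ≤ X →
  (∀ d ∈ Ds, d < 0 ∧ (d % 4 = 0 ∨ d % 4 = 1) ∧ X / 2 < |(d : ℝ)| ∧ |(d : ℝ)| ≤ X ∧
    X ^ ((1 - 1 / (400 * J2 m)) / (K2 m : ℝ)) ≤ (Pd d ⌊X ^ ((1 : ℝ) / (K2 m : ℕ))⌋₊ : ℝ)) →
  ∑ d ∈ Ds, (Nat.card {y : ClassGroup ↥(Od d) // y ^ m = 1} : ℝ) ≤
    C * X ^ ((3 : ℝ) / 2 - (J2 m - 1 / 50) / K2 m)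

/-- [FD2] one dyadic interval (as `AV/I_FDM.lean`: `GS2`, `AV.S_BAD` with `c = 1 / (400 J2)`,
`ClaimC1a`, `ClaimC1c`, `PR2`): `(J2 - 1) / K2 = 3 / (2 m + 2)`. -/
def S_FD2 : Prop := ∀ m : ℕ, 5 ≤ m → Odd m → ∃ C : ℝ, 0 < C ∧ ∀ X : ℝ, 1 ≤ X →
  ∑ d ∈ DD X, (Nat.card {y : ClassGroup ↥(Od d) // y ^ m = 1} : ℝ) ≤
    C * X ^ ((3 : ℝ) / 2 - 3 / (2 * m + 2) - 49 / (50 * K2 m))

/-- [FN2] the final theorem (as `AV/I_FIN.lean`: `FD2`, `BG.S_TWO`, `PR2`; `50 K2 < 49 * 13 m^3`). -/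
def S_FN2 : Prop := ∀ a m : ℕ, 5 ≤ m → Odd m → ∃ C : ℝ, 0 < C ∧ ∀ X : ℝ, 1 ≤ X →
  ∑ d ∈ (Icc (-⌊X⌋) (-1)).filter (fun d : ℤ => d % 4 = 0 ∨ d % 4 = 1),
    (Nat.card {x : ClassGroup ↥(Od d) // x ^ (2 ^ a * m) = 1} : ℝ) ≤
      C * X ^ ((3 : ℝ) / 2 - 3 / (2 * m + 2) - 1 / (13 * m ^ 3))

end Pool.Agent.Work.MP_e0c7e8_nt.AW
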